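import Pool.Agent.Y801.Z5S.Num1

/-!
# The cells and the certificates
-/

open Pool.Agent.H312R.ZA

namespace Pool.Agent.Y801.Z5S

open Pool.Agent.H312R.PC (EF lnA lnA_spec ngl EF_neg)

/-- the cells, density `γ / 10^6` on `[p, q]` -/
def clN : List (ℕ × ℕ × ℕ) :=
  [(30, 31, 959336), (31, 33, 607767), (33, 35, 473425), (35, 38, 380510), (38, 41, 287779), (41, 45,
    235408), (45, 50, 179452), (50, 56, 137814), (56, 64, 104103), (64, 75, 75045), (75, 90, 51656), (90,
    110, 34119), (110, 139, 21703), (139, 185, 12539), (185, 265, 6230), (265, 434, 2293)]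

/-- the list of the potential, step `1/16` -/
def lUm : List (ℤ × ℤ) :=
  [(-7874, 4240), (7874, -4240), (-4586, 6944), (4586, -6944), (-12618, 2960), (12618, -2960), (-18328,
    2224), (18328, -2224), (-24832, 1760), (24832, -1760), (-35074, 1440), (35074, -1440), (-46778, 1200),
    (46778, -1200), (-58116, 1024), (58116, -1024), (-67422, 896), (67422, -896), (-83276, 800), (83276,
    -800), (-111912, 720), (111912, -720), (-104742, 656), (104742, -656), (-185462, 608), (185462, -608),
    (-185830, 560), (185830, -560), (-268684, 528), (268684, -528), (-703138, 496), (703138, -496), (-81328,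
    480), (81328, -480), (1000000, 384), (-1000000, -384), (2000000, 256), (-2000000, -256), (1000000, 224),
    (-1000000, -224), (1000000, 288), (-1000000, -288)]

lemma mrg_eq : mrg (phl 1000000 16 ++ bld 16 (lT 1000000 clN)) = lUm := by decide +kernel

def st0 : List ℤ :=
  [1, 6, 9, 3, 2, 1, 1, 1, 1, 2, 4, 8, 9, 2, 1, 1, 1, 2, 2, 3, 6, 11, 3, 2, 1, 1, 2, 2, 3, 6, 12, 18, 1, 4,
    3, 2, 2, 2, 3, 5, 8, 13, 6, 3, 2, 2, 3, 4, 6, 11, 18, 15]

lemma ck0 : chkL 16 lUm (-418056000000000000000) 480 st0 = true := by decide +kernel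

lemma en0 : endL 480 st0 = 720 := by decide +kernel

def st1 : List ℤ :=
  [5, 4, 3, 3, 3, 5, 8, 13, 20, 16, 6, 4, 4, 4, 4, 6, 10, 15, 22, 21, 7, 5, 4, 5, 5, 7, 10, 16, 23, 32, 14,
    9, 7, 5, 5, 5, 6, 8, 12, 17, 25, 33, 37, 7, 12, 9, 7, 6, 6, 6, 8, 10]

lemma ck1 : chkL 16 lUm (-418056000000000000000) 720 st1 = true := by decide +kernel

lemma en1 : endL 720 st1 = 1264 := by decide +kernel

def st2 : List ℤ :=
  [14, 20, 27, 35, 44, 35, 1, 16, 11, 9, 7, 7, 7, 8, 9, 12, 16, 21, 27, 34, 42, 49, 41, 4, 19, 14, 11, 9,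
    8, 8, 8, 9, 11, 13, 17, 21, 27, 33, 41, 49, 56, 61, 47, 2, 26, 20, 16, 13, 11, 10, 10, 10]

lemma ck2 : chkL 16 lUm (-418056000000000000000) 1264 st2 = true := by decide +kernel

lemma en2 : endL 1264 st2 = 2340 := by decide +kernel

def st3 : List ℤ :=
  [10, 12, 14, 16, 20, 24, 29, 35, 42, 49, 57, 64, 71, 76, 69, 32, 36, 28, 23, 19, 16, 14, 13, 12, 11, 11,
    12, 12, 13, 15, 17, 20, 23, 26, 30, 35, 40, 46, 53, 60, 67, 74, 81, 88, 94, 98, 94, 82, 17, 52, 43, 36,
    31]

lemma ck3 : chkL 16 lUm (-418056000000000000000) 2340 st3 = true := by decide +kernel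

lemma en3 : endL 2340 st3 = 4402 := by decide +kernel

def st4 : List ℤ :=
  [27, 23, 21, 18, 17, 16, 15, 14, 14, 14, 15, 15, 16, 17, 18, 20, 22, 24, 27, 30, 33, 37, 41, 46, 51, 56,
    62, 68, 74, 81, 88, 95, 102, 110, 117, 124, 130, 136, 140, 143, 140, 134, 119, 32, 84, 73, 64, 56, 50,
    45, 40, 36]

lemma ck4 : chkL 16 lUm (-418056000000000000000) 4402 st4 = true := by decide +kernel

lemma en4 : endL 4402 st4 = 7392 := by decide +kernel

def st5 : List ℤ :=
  [33, 30, 28, 26, 24, 23, 22, 21, 20, 20, 20, 20, 20, 20, 20, 21, 22, 23, 24, 25, 27, 29, 31, 33, 36, 39,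
    42, 45, 49, 53, 57, 62, 67, 72, 78, 84, 91, 98, 105, 113, 121, 130, 139, 149, 159, 170, 181, 193, 206,
    219, 232, 236]

lemma ck5 : chkL 16 lUm (-418056000000000000000) 7392 st5 = true := by decide +kernel

lemma en5 : endL 7392 st5 = 11200 := by decide +kernel

lemma ckL1 : chkL 16 (ngl lUm) 418054400000000000000 256 [32, 96, 62, 25, 7] = true := by decide +kernel

lemma ckL2 : chkL 16 (ngl lUm) 418534400000000000000 478 [2] = true := by decide +kernel

lemma const_bounds : (1734424 : ℝ) / 10000 ≤ cph - 46 * Real.log 4 ∧ cph - 46 * Real.log 4 ≤ 1734425 / 10000 := by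
  have h36 := abs_le.mp (lnA_spec 36 (by norm_num) (by norm_num))
  have h32 := abs_le.mp (lnA_spec 32 (by norm_num) (by norm_num))
  have h28 := abs_le.mp (lnA_spec 28 (by norm_num) (by norm_num))
  have h4 := abs_le.mp (lnA_spec 4 (by norm_num) (by norm_num))
  have e36 : lnA 36 = 3583518938456 := by decide +kernel
  have e32 : lnA 32 = 3465735902800 := by decide +kernel
  have e28 : lnA 28 = 3332204510175 := by decide +kernel
  have e4 : lnA 4 = 1386294361120 := by decide +kernel
  rw [e36] at h36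
  rw [e32] at h32
  rw [e28] at h28
  rw [e4] at h4
  unfold cph
  push_cast at h36 h32 h28 h4
  constructor <;> linarith [h36.1, h36.2, h32.1, h32.2, h28.1, h28.2, h4.1, h4.2]

lemma EF_up (v : ℝ) (h1 : 30 ≤ v) (h2 : v ≤ 700) : EF 1000000 16 lUm v ≤ (-52257 : ℝ) / 2000 := by
  have s0 : (480 : ℝ) / 16 ≤ v → v ≤ (720 : ℝ) / 16 → EF 1000000 16 lUm v ≤ (-52257 : ℝ) / 2000 := fun ha hb =>
    chkL_spec (D := 1000000) (M := 16) (by norm_num) (by norm_num) (by norm_num) (A := -418056000000000000000) _ (by norm_num) st0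
      480 (by decide) ck0 v (by norm_num; linarith) (by rw [en0]; norm_num; linarith)
  have s1 : (720 : ℝ) / 16 ≤ v → v ≤ (1264 : ℝ) / 16 → EF 1000000 16 lUm v ≤ (-52257 : ℝ) / 2000 := fun ha hb =>
    chkL_spec (D := 1000000) (M := 16) (by norm_num) (by norm_num) (by norm_num) (A := -418056000000000000000) _ (by norm_num) st1
      720 (by decide) ck1 v (by norm_num; linarith) (by rw [en1]; norm_num; linarith)
  have s2 : (1264 : ℝ) / 16 ≤ v → v ≤ (2340 : ℝ) / 16 → EF 1000000 16 lUm v ≤ (-52257 : ℝ) / 2000 := fun ha hb =>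
    chkL_spec (D := 1000000) (M := 16) (by norm_num) (by norm_num) (by norm_num) (A := -418056000000000000000) _ (by norm_num) st2
      1264 (by decide) ck2 v (by norm_num; linarith) (by rw [en2]; norm_num; linarith)
  have s3 : (2340 : ℝ) / 16 ≤ v → v ≤ (4402 : ℝ) / 16 → EF 1000000 16 lUm v ≤ (-52257 : ℝ) / 2000 := fun ha hb =>
    chkL_spec (D := 1000000) (M := 16) (by norm_num) (by norm_num) (by norm_num) (A := -418056000000000000000) _ (by norm_num) st3
      2340 (by decide) ck3 v (by norm_num; linarith) (by rw [en3]; norm_num; linarith)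
  have s4 : (4402 : ℝ) / 16 ≤ v → v ≤ (7392 : ℝ) / 16 → EF 1000000 16 lUm v ≤ (-52257 : ℝ) / 2000 := fun ha hb =>
    chkL_spec (D := 1000000) (M := 16) (by norm_num) (by norm_num) (by norm_num) (A := -418056000000000000000) _ (by norm_num) st4
      4402 (by decide) ck4 v (by norm_num; linarith) (by rw [en4]; norm_num; linarith)
  have s5 : (7392 : ℝ) / 16 ≤ v → v ≤ (11200 : ℝ) / 16 → EF 1000000 16 lUm v ≤ (-52257 : ℝ) / 2000 := fun ha hb =>
    chkL_spec (D := 1000000) (M := 16) (by norm_num) (by norm_num) (by norm_num) (A := -418056000000000000000) _ (by norm_num) st5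
      7392 (by decide) ck5 v (by norm_num; linarith) (by rw [en5]; norm_num; linarith)
  rcases le_total v ((720 : ℝ) / 16) with k0 | k0
  · exact s0 (by linarith) k0
  rcases le_total v ((1264 : ℝ) / 16) with k1 | k1
  · exact s1 (by linarith) k1
  rcases le_total v ((2340 : ℝ) / 16) with k2 | k2
  · exact s2 (by linarith) k2
  rcases le_total v ((4402 : ℝ) / 16) with k3 | k3
  · exact s3 (by linarith) k3
  rcases le_total v ((7392 : ℝ) / 16) with k4 | k4
  · exact s4 (by linarith) k4
  exact s5 (by linarith) (by linarith)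

lemma EF_lo1 (v : ℝ) (h1 : 16 ≤ v) (h2 : v ≤ 239 / 8) : EF 1000000 16 (ngl lUm) v ≤ (65321 : ℝ) / 2500 :=
  chkL_spec (D := 1000000) (M := 16) (by norm_num) (by norm_num) (by norm_num) (A := 418054400000000000000) _ (by norm_num) _
    256 (by decide) ckL1 v (by norm_num; linarith) (by
      have : endL 256 [32, 96, 62, 25, 7] = 478 := by decide +kernel
      rw [this]; norm_num; linarith)

lemma EF_lo2 (v : ℝ) (h1 : 239 / 8 ≤ v) (h2 : v ≤ 30) : EF 1000000 16 (ngl lUm) v ≤ (16349 : ℝ) / 625 :=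
  chkL_spec (D := 1000000) (M := 16) (by norm_num) (by norm_num) (by norm_num) (A := 418534400000000000000) _ (by norm_num) _
    478 (by decide) ckL2 v (by norm_num; linarith) (by
      have : endL 478 [2] = 480 := by decide +kernel
      rw [this]; norm_num; linarith)

theorem hyp : Hyp 1000000 clN (73657 / 500) (3 / 100) (239 / 8) where
  hlam := by norm_num
  hδ := by norm_num
  hθ := by norm_num
  up := by
    intro v h1 h2
    rw [VW_eq (M := 16) (by norm_num) (by norm_num), mrg_eq]
    have h3 := EF_up v h1 h2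
    have h4 := const_bounds.2
    linarith
  lo := by
    intro v h1 h2
    rw [VW_eq (M := 16) (by norm_num) (by norm_num), mrg_eq]
    have h4 := const_bounds.1
    rcases le_total v (239 / 8) with h3 | h3
    · have h5 := EF_lo1 v h1 h3
      rw [EF_neg] at h5
      have h6 : (0 : ℝ) ≤ (if (239 / 8 : ℝ) ≤ v then ((3 : ℝ) / 100) else 0) := by
        split_ifs
        · norm_num
        · exact le_rfl
      linarith
    · have h5 := EF_lo2 v h3 h2
      rw [EF_neg] at h5
      rw [if_pos h3]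
      linarith

end Pool.Agent.Y801.Z5S
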