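import Pool.Agent.H336R2.Z5.ZP
import Pool.Agent.H336R2.Z5M.Rho
import Pool.Agent.H336R2.Z5.H3pre

/-!
# Irrationality measure of `ζ(5)`: the determinant has degree at most `14 n + 2` in the parameter

The coefficient of `ζ(5)` in the linear form only sees the poles of order six, `5 n ≤ k ≤ 19 n`, to first order.
So it vanishes on the multiples of `∏_{5n ≤ r ≤ 12n} (x - x(-r))²`, a polynomial of degree `14 n + 2`.
-/

open Polynomial Pool.Agent.H337R2 Pool.Agent.H336R2.Z5 Filter Topology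

namespace Pool.Agent.Y801.Z5S

noncomputable section

open Pool.Agent.H336R2.Z5M in
lemma NL_affine (n : ℕ) (u : ℚ) (Q : ℚ[X]) : NL n u Q = NL n 0 Q + (-24 * rho n Q) * u := by
  rw [NL_apply, NL_apply]
  unfold xf rho
  ring

/-- the polynomial which kills the coefficient of `ζ(5)` -/
def ZZ (n : ℕ) : ℚ[X] := ∏ r ∈ Finset.Icc (5 * n) (12 * n), (XN n r) ^ 2

lemma XN_monic (n r : ℕ) : (XN n r).Monic := by
  unfold XN
  exact Polynomial.monic_X_add_C _

lemma XN_natDegree (n r : ℕ) : (XN n r).natDegree = 1 := by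
  unfold XN
  exact Polynomial.natDegree_X_add_C _

lemma ZZ_monic (n : ℕ) : (ZZ n).Monic := by
  unfold ZZ
  exact Polynomial.monic_prod_of_monic _ _ fun r _ => (XN_monic n r).pow 2

lemma ZZ_natDegree (n : ℕ) : (ZZ n).natDegree = 14 * n + 2 := by
  unfold ZZ
  rw [Polynomial.natDegree_prod_of_monic _ _ fun r _ => (XN_monic n r).pow 2]
  have h : ∀ r ∈ Finset.Icc (5 * n) (12 * n), ((XN n r) ^ 2).natDegree = 2 := by
    intro r _
    rw [(XN_monic n r).natDegree_pow, XN_natDegree]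
  rw [Finset.sum_congr rfl h, Finset.sum_const, Nat.card_Icc, smul_eq_mul]
  omega

lemma TS_lin' (k : ℕ) : TS (-(k : ℚ)) (X + C (k : ℚ)) = PowerSeries.X := by
  rw [map_add, TS_X, TS_C, add_assoc, ← map_add, neg_add_cancel, map_zero, add_zero]

lemma EE_ZZ_dvd (n : ℕ) (Q : ℚ[X]) {k : ℕ} (h5 : 5 * n ≤ k) (h19 : k ≤ 19 * n) :
    PowerSeries.X ^ 2 ∣ TS (-(k : ℚ)) (EE n (ZZ n * Q)) := by
  obtain ⟨r, hr1, hr2, hr3⟩ : ∃ r : ℕ, 5 * n ≤ r ∧ r ≤ 12 * n ∧ (r = k ∨ r + k = 24 * n) := by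
    rcases le_or_gt k (12 * n) with h | h
    · exact ⟨k, h5, h, Or.inl rfl⟩
    · exact ⟨24 * n - k, by omega, by omega, Or.inr (by omega)⟩
  have hmem : r ∈ Finset.Icc (5 * n) (12 * n) := Finset.mem_Icc.2 ⟨hr1, hr2⟩
  have e1 : EE n (ZZ n * Q) = ((XN n r).comp (xp n)) ^ 2 *
      ((∏ r' ∈ (Finset.Icc (5 * n) (12 * n)).erase r, (XN n r') ^ 2) * (X ^ 49 * Q)).comp (xp n) := by
    unfold EE ZZ
    rw [← Finset.mul_prod_erase _ _ hmem, ← Polynomial.pow_comp, ← Polynomial.mul_comp]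
    generalize (∏ r' ∈ (Finset.Icc (5 * n) (12 * n)).erase r, (XN n r') ^ 2) = A
    generalize (XN n r) ^ 2 = B
    generalize (X ^ 49 : ℚ[X]) = Y
    rw [show Y * (B * A * Q) = B * (A * (Y * Q)) by ring]
  rw [e1, map_mul, map_pow]
  apply Dvd.dvd.mul_right
  apply pow_dvd_pow_of_dvd
  rw [Pool.Agent.H336R2.Z5.H3.XN_comp, map_mul]
  rcases hr3 with h | h
  · subst h
    rw [TS_lin']
    exact Dvd.intro _ rfl
  · have e2 : (24 * (n : ℚ) - r) = (k : ℚ) := by
      have : ((r + k : ℕ) : ℚ) = ((24 * n : ℕ) : ℚ) := by rw [h]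
      push_cast at this
      linarith
    rw [e2, TS_lin']
    exact Dvd.intro_left _ rfl

lemma pa5_ZZ (n : ℕ) (Q : ℚ[X]) (k : ℕ) : pa (sN n) (muN n) (PPn n * EE n (ZZ n * Q)) k 5 = 0 := by
  unfold pa
  split_ifs with h
  · obtain ⟨h6, h5, h19⟩ := Pool.Agent.H336R2.Z5M.mu_six h
    rw [h6]
    unfold pfc
    have hd : PowerSeries.X ^ 2 ∣ TS (-(k : ℚ)) (PPn n * EE n (ZZ n * Q)) *
        Pool.Agent.H337R2.VV ((sN n).erase k) (muN n) (-(k : ℚ)) := by
      rw [map_mul]
      exact ((EE_ZZ_dvd n Q h5 h19).mul_left _).mul_right _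
    exact (PowerSeries.X_pow_dvd_iff.1 hd) 1 (by norm_num)
  · rfl

lemma rho_ZZ (n : ℕ) (Q : ℚ[X]) : Pool.Agent.H336R2.Z5M.rho n (ZZ n * Q) = 0 := by
  unfold Pool.Agent.H336R2.Z5M.rho
  exact Finset.sum_eq_zero fun k _ => pa5_ZZ n Q k

/-- monic basis adapted to the coefficient of `ζ(5)` -/
def bas (n i : ℕ) : ℚ[X] := if i < 14 * n + 2 then X ^ i else ZZ n * X ^ (i - (14 * n + 2))

lemma bas_monic (n i : ℕ) : (bas n i).Monic ∧ (bas n i).natDegree = i := by
  unfold bas
  split_ifs with h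
  · exact ⟨Polynomial.monic_X_pow i, Polynomial.natDegree_X_pow i⟩
  · refine ⟨(ZZ_monic n).mul (Polynomial.monic_X_pow _), ?_⟩
    rw [(ZZ_monic n).natDegree_mul (Polynomial.monic_X_pow _), ZZ_natDegree, Polynomial.natDegree_X_pow]
    omega

lemma rho_bas (n i j : ℕ) (h : 14 * n + 2 ≤ i) : Pool.Agent.H336R2.Z5M.rho n (bas n j * bas n i) = 0 := by
  have e : bas n j * bas n i = ZZ n * (bas n j * X ^ (i - (14 * n + 2))) := by
    have e1 : bas n i = ZZ n * X ^ (i - (14 * n + 2)) := by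
      unfold bas
      rw [if_neg (by omega)]
    rw [e1]
    ring
  rw [e]
  exact rho_ZZ n _

theorem det_poly (n : ℕ) : ∃ P : ℚ[X], P.natDegree ≤ 14 * n + 2 ∧ ∀ u : ℚ, P.eval u = DET n u (mN n) := by
  set m := mN n with hm
  set M : Matrix (Fin m) (Fin m) ℚ[X] := Matrix.of fun i j =>
    C (NL n 0 (bas n i * bas n j)) + C (-24 * Pool.Agent.H336R2.Z5M.rho n (bas n i * bas n j)) * X with hM
  refine ⟨M.det, ?_, fun u => ?_⟩
  · have hent : ∀ i j : Fin m, (M i j).natDegree ≤ if (j : ℕ) < 14 * n + 2 then 1 else 0 := by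
      intro i j
      rw [hM, Matrix.of_apply]
      split_ifs with h
      · refine (Polynomial.natDegree_add_le _ _).trans (max_le ?_ ?_)
        · rw [Polynomial.natDegree_C]; omega
        · exact (Polynomial.natDegree_C_mul_le _ _).trans Polynomial.natDegree_X_le
      · rw [rho_bas n j i (by omega), mul_zero, map_zero, zero_mul, add_zero, Polynomial.natDegree_C]
    rw [Matrix.det_apply]
    apply Polynomial.natDegree_sum_le_of_forall_le
    intro σ _
    have h1 : (∏ i : Fin m, M (σ i) i).natDegree ≤ 14 * n + 2 := by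
      refine (Polynomial.natDegree_prod_le _ _).trans ?_
      refine (Finset.sum_le_sum fun i _ => hent (σ i) i).trans ?_
      rw [← Finset.sum_filter, Finset.sum_const, smul_eq_mul, mul_one]
      have h2 : (Finset.univ.filter fun i : Fin m => (i : ℕ) < 14 * n + 2).card ≤
          (Finset.range (14 * n + 2)).card := by
        apply Finset.card_le_card_of_injOn (fun i : Fin m => (i : ℕ))
        · intro i hi
          simpa using hi
        · intro a _ b _ hab
          exact Fin.ext hab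
      rwa [Finset.card_range] at h2
    rcases Int.units_eq_one_or (Equiv.Perm.sign σ) with hσ | hσ
    · rw [hσ, one_smul]
      exact h1
    · rw [hσ, Units.neg_smul, one_smul, Polynomial.natDegree_neg]
      exact h1
  · have h1 : M.det.eval u = (M.map (Polynomial.eval u)).det := by
      have := RingHom.map_det (Polynomial.evalRingHom u) M
      rw [Polynomial.coe_evalRingHom] at this
      exact this
    rw [h1]
    have h2 : M.map (Polynomial.eval u) = Matrix.of fun i j : Fin m => NL n u (bas n i * bas n j) := by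
      ext i j
      rw [Matrix.map_apply, hM, Matrix.of_apply, Matrix.of_apply, NL_affine n u]
      simp
    rw [h2]
    exact Pool.Agent.H336R2.HD.A1_det_monic (NL n u) m (bas n) (fun i _ => bas_monic n i)

end

end Pool.Agent.Y801.Z5S
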