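import Pool.Agent.H312R.ZA.AW3
import Pool.Agent.H312R.PC.PsiCert

/-!
# Far points, arbitrary nodes
-/

open Polynomial Pool.Agent.H337R2 Pool.Agent.H336R2.Z5 Pool.Agent.H312R.ZA Pool.Agent.H312R.ZA.W3

namespace Pool.Agent.Y801.Z5S

noncomputable section

lemma numer2 : 2 * (xl 18 + xl 16 + xl 14) - 96 - 4 * Real.log 350 + 48 / 1000 ≤ 1473 / 10 := by
  have h18 := abs_le.mp (Pool.Agent.H312R.PC.lnA_spec 18 (by norm_num) (by norm_num))
  have h16 := abs_le.mp (Pool.Agent.H312R.PC.lnA_spec 16 (by norm_num) (by norm_num))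
  have h14 := abs_le.mp (Pool.Agent.H312R.PC.lnA_spec 14 (by norm_num) (by norm_num))
  have h350 := abs_le.mp (Pool.Agent.H312R.PC.lnA_spec 350 (by norm_num) (by norm_num))
  have e : 2 * (18 * Pool.Agent.H312R.PC.lnA 18 + 16 * Pool.Agent.H312R.PC.lnA 16 +
      14 * Pool.Agent.H312R.PC.lnA 14) - 4 * Pool.Agent.H312R.PC.lnA 350 ≤ (1473 * 100000000000 + 96 * 1000000000000
      - 48 * 1000000000 - 10000000) := by decide +kernel
  have e' : 2 * (18 * (Pool.Agent.H312R.PC.lnA 18 : ℝ) + 16 * (Pool.Agent.H312R.PC.lnA 16 : ℝ) +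
      14 * (Pool.Agent.H312R.PC.lnA 14 : ℝ)) - 4 * (Pool.Agent.H312R.PC.lnA 350 : ℝ) ≤
      (1473 * 100000000000 + 96 * 1000000000000 - 48 * 1000000000 - 10000000) := by exact_mod_cast e
  unfold xl
  push_cast at h18 h16 h14 h350
  linarith [h18.1, h18.2, h16.1, h16.2, h14.1, h14.2, h350.1, h350.2]

lemma fin_bd2 {n : ℕ} (hn : 2 ≤ n) {lam : ℝ} (hlam : 1473 / 10 ≤ lam) :
    4900 * n * (((18 * n).factorial : ℝ) ^ 2 * ((16 * n).factorial : ℝ) ^ 2 *
      ((14 * n).factorial : ℝ) ^ 2) * (1001 / 1000) ^ (48 * n + 3) / (350 * (n : ℝ)) ^ (4 * n) ≤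
    (4900 * (Real.exp 1 ^ 6 * 4845 ^ 2) * Real.exp (3 / 1000)) * (n : ℝ) ^ 7 *
      Real.exp (lam * n + 92 * n * Real.log n) := by
  have hn0 : (0 : ℝ) < n := by exact_mod_cast (by omega : 0 < n)
  have hF := F_bd (by omega : 1 ≤ n)
  have h1 : (1001 / 1000 : ℝ) ^ (48 * n + 3) ≤ Real.exp (3 / 1000) * Real.exp (n * (48 / 1000)) := by
    calc (1001 / 1000 : ℝ) ^ (48 * n + 3) ≤ (Real.exp (1 / 1000)) ^ (48 * n + 3) := by
          apply pow_le_pow_left₀ (by norm_num)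
          have := Real.add_one_le_exp (1 / 1000)
          linarith
      _ = _ := by
          rw [← Real.exp_nat_mul, ← Real.exp_add]
          congr 1
          push_cast; ring
  have h2 : (350 * (n : ℝ)) ^ (4 * n) = Real.exp (n * (4 * Real.log 350) + 4 * n * Real.log n) := by
    rw [← Real.exp_log (show (0 : ℝ) < 350 * n by positivity), ← Real.exp_nat_mul,
      Real.log_mul (by norm_num) hn0.ne']
    congr 1
    push_cast; ring
  rw [div_eq_mul_inv, h2, ← Real.exp_neg]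
  calc 4900 * n * (((18 * n).factorial : ℝ) ^ 2 * ((16 * n).factorial : ℝ) ^ 2 *
      ((14 * n).factorial : ℝ) ^ 2) * (1001 / 1000) ^ (48 * n + 3) *
        Real.exp (-(n * (4 * Real.log 350) + 4 * n * Real.log n))
      ≤ 4900 * n * ((Real.exp 1 ^ 6 * 4845 ^ 2) * (n : ℝ) ^ 6 *
        Real.exp (n * (2 * (xl 18 + xl 16 + xl 14) - 96) + 96 * n * Real.log n)) *
        (Real.exp (3 / 1000) * Real.exp (n * (48 / 1000))) *
        Real.exp (-(n * (4 * Real.log 350) + 4 * n * Real.log n)) := by gcongr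
    _ = (4900 * (Real.exp 1 ^ 6 * 4845 ^ 2) * Real.exp (3 / 1000)) * (n : ℝ) ^ 7 *
        (Real.exp (n * (2 * (xl 18 + xl 16 + xl 14) - 96) + 96 * n * Real.log n) *
          Real.exp (n * (48 / 1000)) * Real.exp (-(n * (4 * Real.log 350) + 4 * n * Real.log n))) := by
        ring
    _ = (4900 * (Real.exp 1 ^ 6 * 4845 ^ 2) * Real.exp (3 / 1000)) * (n : ℝ) ^ 7 *
        Real.exp (n * (2 * (xl 18 + xl 16 + xl 14) - 96 - 4 * Real.log 350 + 48 / 1000) +
          92 * n * Real.log n) := by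
        rw [← Real.exp_add, ← Real.exp_add]
        congr 2
        ring
    _ ≤ _ := by
        apply mul_le_mul_of_nonneg_left _ (by positivity)
        apply Real.exp_le_exp.2
        have h3 := mul_le_mul_of_nonneg_left (numer2.trans hlam) hn0.le
        linarith

/-- far away: crude bound -/
theorem far_bd {lam : ℝ} (hlam : 1473 / 10 ≤ lam) : ∃ C : ℝ, 0 < C ∧ ∀ n : ℕ, 2 ≤ n → ∀ T : Finset ℕ,
    T.card = mN n → (∀ w ∈ T, w ≤ 700 * n) → ∀ s : ℕ, 700 * n < us n s →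
    |Wt n s| * (∏ v ∈ T, |xu n (us n s) - xu n v|) ^ 2 ≤
      C * (n : ℝ) ^ 7 * Real.exp (lam * n + 92 * n * Real.log n) := by
  refine ⟨4900 * (Real.exp 1 ^ 6 * 4845 ^ 2) * Real.exp (3 / 1000), by positivity,
    fun n hn T hT hTb s hs => ?_⟩
  have hn0 : (0 : ℝ) < n := by exact_mod_cast (by omega : 0 < n)
  have hsR : 700 * (n : ℝ) < (us n s : ℝ) := by exact_mod_cast hs
  set a : ℝ := (us n s : ℝ) / 2 with ha
  have hU : (us n s : ℝ) = 2 * a := by rw [ha]; ring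
  have ha0 : 350 * (n : ℝ) < a := by rw [ha]; linarith
  have hap : 0 < a := lt_trans (by positivity) ha0
  -- the value of x
  have hx : xr n (tau n s) = a ^ 2 - 144 * (n : ℝ) ^ 2 := by
    rw [N5_xr, xu, hU]; ring
  have hx0 : 0 ≤ xr n (tau n s) := by rw [hx]; nlinarith
  have hx1 : xr n (tau n s) ≤ a ^ 2 := by rw [hx]; nlinarith
  -- products
  set P18 : ℝ := ∏ j ∈ Finset.range (18 * n + 1), ((us n s : ℝ) / 2 - 9 * n + j) with hP18
  set P16 : ℝ := ∏ j ∈ Finset.range (16 * n + 1), ((us n s : ℝ) / 2 - 8 * n + j) with hP16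
  set P14 : ℝ := ∏ j ∈ Finset.range (14 * n + 1), ((us n s : ℝ) / 2 - 7 * n + j) with hP14
  have k18 : (a ^ 2 - (9 * (n : ℝ)) ^ 2) ^ (18 * n + 1) ≤ P18 ^ 2 := by
    have h := prod_lower (9 * n) a (by push_cast; linarith)
    rw [show 2 * (9 * n) + 1 = 18 * n + 1 by ring] at h
    push_cast at h
    exact h
  have k16 : (a ^ 2 - (8 * (n : ℝ)) ^ 2) ^ (16 * n + 1) ≤ P16 ^ 2 := by
    have h := prod_lower (8 * n) a (by push_cast; linarith)
    rw [show 2 * (8 * n) + 1 = 16 * n + 1 by ring] at h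
    push_cast at h
    exact h
  have k14 : (a ^ 2 - (7 * (n : ℝ)) ^ 2) ^ (14 * n + 1) ≤ P14 ^ 2 := by
    have h := prod_lower (7 * n) a (by push_cast; linarith)
    rw [show 2 * (7 * n) + 1 = 14 * n + 1 by ring] at h
    push_cast at h
    exact h
  set F : ℝ := ((18 * n).factorial : ℝ) ^ 2 * ((16 * n).factorial : ℝ) ^ 2 *
    ((14 * n).factorial : ℝ) ^ 2 with hF
  have hR : Rr n (tau n s) = F * (2 * a) / (P18 ^ 2 * P16 ^ 2 * P14 ^ 2) := by
    rw [W1_formula (by omega : 1 ≤ n) s, ← hP18, ← hP16, ← hP14, ← hF, hU]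
  have hR0 : 0 ≤ Rr n (tau n s) := by rw [hR]; positivity
  have hW : |Wt n s| ≤ 7 * (F * (2 * a) / (P18 ^ 2 * P16 ^ 2 * P14 ^ 2) * (a ^ 2) ^ 49) := by
    unfold Wt
    rw [abs_mul, abs_of_nonneg (mul_nonneg hR0 (pow_nonneg hx0 _)), ← hR]
    apply mul_le_mul _ _ (mul_nonneg hR0 (pow_nonneg hx0 _)) (by norm_num)
    · split_ifs <;> norm_num
    · exact mul_le_mul_of_nonneg_left (pow_le_pow_left₀ hx0 hx1 _) hR0
  have hP : (∏ v ∈ T, |xu n (us n s) - xu n v|) ^ 2 ≤ (a ^ 2) ^ (46 * (n - 1)) := by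
    have h1 : (∏ v ∈ T, |xu n (us n s) - xu n v|) ≤ (a ^ 2) ^ (mN n) := by
      calc ∏ v ∈ T, |xu n (us n s) - xu n v|
          ≤ ∏ _v ∈ T, a ^ 2 := by
            refine Finset.prod_le_prod (fun _ _ => abs_nonneg _) fun v hv => ?_
            have hj2 : (v : ℝ) ≤ 700 * n := by
              exact_mod_cast hTb v hv
            have hj0 : (0 : ℝ) ≤ v := by positivity
            unfold xu
            rw [hU, abs_le]
            constructor <;> nlinarith
        _ = (a ^ 2) ^ (mN n) := by rw [Finset.prod_const, hT]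
    have h0 : 0 ≤ ∏ v ∈ T, |xu n (us n s) - xu n v| := Finset.prod_nonneg fun _ _ => abs_nonneg _
    calc (∏ v ∈ T, |xu n (us n s) - xu n v|) ^ 2 ≤ ((a ^ 2) ^ (mN n)) ^ 2 := pow_le_pow_left₀ h0 h1 2
      _ = (a ^ 2) ^ (46 * (n - 1)) := by
          rw [← pow_mul]; congr 1; unfold mN; ring
  calc |Wt n s| * (∏ v ∈ T, |xu n (us n s) - xu n v|) ^ 2
      ≤ 7 * (F * (2 * a) / (P18 ^ 2 * P16 ^ 2 * P14 ^ 2) * (a ^ 2) ^ 49) *
        (a ^ 2) ^ (46 * (n - 1)) := by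
        apply mul_le_mul hW hP (sq_nonneg _) ((abs_nonneg _).trans hW)
    _ ≤ 4900 * n * F * (1001 / 1000) ^ (48 * n + 3) / (350 * (n : ℝ)) ^ (4 * n) :=
        core hn ha0 P18 P16 P14 k18 k16 k14 F (by positivity)
    _ ≤ _ := fin_bd2 hn hlam

end

end Pool.Agent.Y801.Z5S
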