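import Pool.Agent.Y801.Z5S.GP7

/-!
# The archimedean bound with arbitrary cells: conclusion
-/

open Polynomial Pool.Agent.H337R2 Pool.Agent.H336R2.Z5 Pool.Agent.H312R.ZA Filter Topology

namespace Pool.Agent.Y801.Z5S

noncomputable section

lemma phi_zero : phi 0 = 96 * Real.log 2 := by
  have h36 : Real.log 36 = Real.log 18 + Real.log 2 := by
    rw [← Real.log_mul (by norm_num) (by norm_num)]; norm_num
  have h32 : Real.log 32 = Real.log 16 + Real.log 2 := by
    rw [← Real.log_mul (by norm_num) (by norm_num)]; norm_num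
  have h28 : Real.log 28 = Real.log 14 + Real.log 2 := by
    rw [← Real.log_mul (by norm_num) (by norm_num)]; norm_num
  have hf : ∀ b : ℝ, ff 0 b = 2 * Psi b := by
    intro b
    unfold ff
    rw [zero_add, zero_sub, Psi_neg']
    ring
  unfold phi
  rw [hf, hf, hf, h36, h32, h28]
  unfold Psi
  ring

lemma J1_ff0 (D : ℕ) (l : List (ℕ × ℕ × ℕ)) : J1 D l (ff 0) = 2 * J1 D l Psi := by
  rw [← J1_smul]
  congr 1
  funext b
  unfold ff
  rw [zero_add, zero_sub, Psi_neg']
  ring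

section
variable {D : ℕ} {l : List (ℕ × ℕ × ℕ)} {lam δ θ : ℝ} {C : ℝ} {n : ℕ} {Y : Finset ℕ}

/-- the values outside the nodes -/
lemma hM_all (hyp : Hyp D l lam δ θ) (hC : 0 ≤ C) (h : ND D l C n Y) (hn : 2 ≤ n) {c1 c2 : ℝ} (hc1 : 0 ≤ c1)
    (hc2 : 0 ≤ c2)
    (hfar : ∀ s : ℕ, 700 * n < us n s → |Wt n s| * (∏ v ∈ SS n ∪ Y, |xu n (us n s) - xu n v|) ^ 2 ≤
      Real.exp (c1 * Real.log n) * Real.exp (lam * n + 92 * n * Real.log n))
    (hW : ∀ s : ℕ, us n s ≤ 700 * n → |Wt n s| ≤ Real.exp (c2 * Real.log n) * Real.exp (n * phi ((us n s : ℝ) / n))) :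
    ∀ s : ℕ, us n s ∉ SS n ∪ Y → |Wt n s| * (∏ v ∈ SS n ∪ Y, |xu n (us n s) - xu n v|) ^ 2 ≤
      Real.exp ((c1 + c2 + 2 * (C + 70)) * Real.log n + (lam * n + 92 * n * Real.log n)) := by
  intro s hs
  have hl := half_le_log hn
  have hl0 : 0 ≤ Real.log n := by linarith
  have hn0 : (0 : ℝ) < n := by exact_mod_cast (by omega : 0 < n)
  rcases lt_or_ge (700 * n) (us n s) with h7 | h7
  · refine (hfar s h7).trans ?_
    rw [← Real.exp_add]
    apply Real.exp_le_exp.2
    have : 0 ≤ (c2 + 2 * (C + 70)) * Real.log n := by positivity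
    nlinarith
  rcases lt_or_ge (us n s) (30 * n) with h3 | h3
  · rw [Wt_zero h3 (fun hc => hs (Finset.mem_union_left _ hc)), abs_zero, zero_mul]
    exact (Real.exp_pos _).le
  obtain ⟨hp, hb⟩ := h.logP hn hs (by unfold us; omega) h7
  set P := ∏ v ∈ SS n ∪ Y, |xu n (us n s) - xu n v| with hP
  have e1 : P ^ 2 = Real.exp (2 * Real.log P) := by
    rw [show 2 * Real.log P = Real.log (P ^ 2) by rw [Real.log_pow]; norm_num, Real.exp_log (by positivity)]
  have hV := hyp.up ((us n s : ℝ) / n) (by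
    rw [le_div_iff₀ hn0]
    exact_mod_cast h3) (by
    rw [div_le_iff₀ hn0]
    exact_mod_cast h7)
  have hV' : (n : ℝ) * VW D l ((us n s : ℝ) / n) ≤ n * lam := mul_le_mul_of_nonneg_left hV hn0.le
  unfold VW at hV'
  have hb2 := (abs_le.1 hb).2
  calc |Wt n s| * P ^ 2 ≤ (Real.exp (c2 * Real.log n) * Real.exp (n * phi ((us n s : ℝ) / n))) * P ^ 2 :=
        mul_le_mul_of_nonneg_right (hW s h7) (by positivity)
    _ = Real.exp (c2 * Real.log n + n * phi ((us n s : ℝ) / n) + 2 * Real.log P) := by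
        rw [e1, ← Real.exp_add, ← Real.exp_add]
    _ ≤ _ := by
        apply Real.exp_le_exp.2
        have : 0 ≤ c1 * Real.log n := by positivity
        linarith

/-- the sum of the logarithms -/
lemma arch_sum (hyp : Hyp D l lam δ θ) (hC : 0 ≤ C) (h : ND D l C n Y) (hn : 2 ≤ n) {c2 c3 : ℝ}
    (hc2 : 0 ≤ c2) (hc3 : c2 ≤ c3)
    (hW : ∀ s : ℕ, us n s ≤ 700 * n → |Wt n s| ≤ Real.exp (c2 * Real.log n) * Real.exp (n * phi ((us n s : ℝ) / n)))
    {MM : ℝ} (hMM : MM = Real.exp (c3 * Real.log n + (lam * n + 92 * n * Real.log n))) {Z : ℝ} (hZ : 0 < Z)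
    (hdet : Z * ∏ w ∈ SS n ∪ Y, LT n (SS n ∪ Y) w ≤
      ((mN n).factorial : ℝ) * 2 ^ (mN n) *
        ∏ w ∈ SS n ∪ Y, (|Wt n (w - 16 * n - 1)| * LT n (SS n ∪ Y) w ^ 2 + MM)) :
    Real.log Z ≤ 1058 * (n : ℝ) ^ 2 * Real.log n + AW D l lam δ θ * (n : ℝ) ^ 2 +
      ((3 * C + 23 * (c3 + 2 * (C + 70) + 2)) * (n * Real.log n) + 23 * n * Real.log (23 * n) + 23 * n + δ * n) := by
  have hl := half_le_log hn
  have hl0 : 0 ≤ Real.log n := by linarith
  have hn0 : (0 : ℝ) < n := by exact_mod_cast (by omega : 0 < n)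
  have hn2 : (2 : ℝ) ≤ n := by exact_mod_cast hn
  set T := SS n ∪ Y with hT
  set c4 : ℝ := c3 + 2 * (C + 70) + 2 with hc4
  have hc30 : 0 ≤ c3 := hc2.trans hc3
  have hc40 : 0 ≤ c4 := by rw [hc4]; positivity
  set W : ℕ → ℝ := fun w => |Wt n (w - 16 * n - 1)| with hWd
  have hus : ∀ w ∈ T, us n (w - 16 * n - 1) = w := by
    intro w hw
    have := (h.bdT hw).1
    unfold us
    omega
  have hWw : ∀ w ∈ T, W w ≤ Real.exp (c2 * Real.log n + n * phi ((w : ℝ) / n)) := by
    intro w hw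
    have h1 := hW (w - 16 * n - 1) (by rw [hus w hw]; exact (h.bdT hw).2)
    rw [hus w hw, ← Real.exp_add] at h1
    exact h1
  have hLpos : ∀ w ∈ T, 0 < LT n T w := fun w hw => (h.logT hn hw).1
  -- saturated factors
  have hsat : ∀ w ∈ SS n, 0 < W w * LT n T w ^ 2 + MM ∧ Real.log (W w * LT n T w ^ 2 + MM) ≤
      n * phi ((w : ℝ) / n) + 2 * Real.log (LT n T w) + (if θ ≤ (w : ℝ) / n then δ * n else 0) + c4 * Real.log n := by
    intro w hw
    have hwT : w ∈ T := Finset.mem_union_left _ hw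
    have hwS := SS_mem hw
    have hlo := hyp.lo ((w : ℝ) / n) (by
      rw [le_div_iff₀ hn0]
      exact_mod_cast hwS.1.le) (by
      rw [div_le_iff₀ hn0]
      exact_mod_cast hwS.2.1.le)
    have hlo' : (n : ℝ) * lam ≤ n * (VW D l ((w : ℝ) / n) + (if θ ≤ (w : ℝ) / n then δ else 0)) :=
      mul_le_mul_of_nonneg_left hlo hn0.le
    unfold VW at hlo'
    have hL := (abs_le.1 (h.logT hn hwT).2.2).1
    have hd : (n : ℝ) * (if θ ≤ (w : ℝ) / n then δ else 0) = (if θ ≤ (w : ℝ) / n then δ * n else 0) := by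
      split_ifs
      · ring
      · ring
    have hdn0 : 0 ≤ (if θ ≤ (w : ℝ) / n then δ * n else 0) := by
      have := hyp.hδ
      split_ifs
      · positivity
      · exact le_rfl
    rw [mul_add, hd] at hlo'
    exact sat_factor (W := W w) (L := LT n T w) (MM := MM) (nφ := n * phi ((w : ℝ) / n))
      (X := lam * n + 92 * n * Real.log n) (C' := C + 70) (lg := Real.log n) (c2 := c2) (c3 := c3)
      (dn := if θ ≤ (w : ℝ) / n then δ * n else 0) hl (by linarith) hc3 hc2 hdn0 (hLpos w hwT) hMM (hWw w hwT)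
      (by linarith) (abs_nonneg _)
  -- the other factors
  have hnon : ∀ w ∈ Y, 0 < W w * LT n T w ^ 2 + MM ∧ Real.log (W w * LT n T w ^ 2 + MM) ≤
      (lam * n + 92 * n * Real.log n) + c4 * Real.log n := by
    intro w hw
    have hwT : w ∈ T := Finset.mem_union_right _ hw
    have hwY := h.bd w hw
    have hup := hyp.up ((w : ℝ) / n) (by
      rw [le_div_iff₀ hn0]
      exact_mod_cast hwY.1) (by
      rw [div_le_iff₀ hn0]
      exact_mod_cast hwY.2.le)
    have hup' : (n : ℝ) * VW D l ((w : ℝ) / n) ≤ n * lam := mul_le_mul_of_nonneg_left hup hn0.le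
    unfold VW at hup'
    have hL := (abs_le.1 (h.logT hn hwT).2.2).2
    have hMM0 : 0 < MM := by rw [hMM]; exact Real.exp_pos _
    have hLp := hLpos w hwT
    have hpos : 0 < W w * LT n T w ^ 2 + MM := by
      have : 0 ≤ W w := abs_nonneg _
      positivity
    refine ⟨hpos, ?_⟩
    rw [← Real.log_exp ((lam * n + 92 * n * Real.log n) + c4 * Real.log n)]
    apply Real.log_le_log hpos
    have e1 : LT n T w ^ 2 = Real.exp (2 * Real.log (LT n T w)) := by
      rw [show 2 * Real.log (LT n T w) = Real.log (LT n T w ^ 2) by rw [Real.log_pow]; norm_num,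
        Real.exp_log (by positivity)]
    set E := Real.exp (lam * n + 92 * n * Real.log n + (c3 + 2 * (C + 70)) * Real.log n) with hE
    have a1 : W w * LT n T w ^ 2 ≤ E := by
      calc W w * LT n T w ^ 2 ≤ Real.exp (c2 * Real.log n + n * phi ((w : ℝ) / n)) * LT n T w ^ 2 :=
            mul_le_mul_of_nonneg_right (hWw w hwT) (by positivity)
        _ = Real.exp (c2 * Real.log n + n * phi ((w : ℝ) / n) + 2 * Real.log (LT n T w)) := by
            rw [e1, ← Real.exp_add]
        _ ≤ E := by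
            apply Real.exp_le_exp.2
            have h1 : c2 * Real.log n ≤ c3 * Real.log n := mul_le_mul_of_nonneg_right hc3 hl0
            linarith
    have a2 : MM ≤ E := by
      rw [hMM]
      apply Real.exp_le_exp.2
      have : 0 ≤ 2 * (C + 70) * Real.log n := by positivity
      linarith
    have a3 : (2 : ℝ) ≤ Real.exp (2 * Real.log n) := by
      have := Real.add_one_le_exp (2 * Real.log n)
      linarith
    calc W w * LT n T w ^ 2 + MM ≤ 2 * E := by linarith
      _ ≤ Real.exp (2 * Real.log n) * E := mul_le_mul_of_nonneg_right a3 (Real.exp_pos _).le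
      _ = _ := by
          rw [hE, ← Real.exp_add, hc4]
          congr 1
          ring
  have hfac : ∀ w ∈ T, 0 < W w * LT n T w ^ 2 + MM := by
    intro w hw
    rcases Finset.mem_union.1 hw with hw | hw
    · exact (hsat w hw).1
    · exact (hnon w hw).1
  -- take logarithms
  have hlog : Real.log Z + ∑ w ∈ T, Real.log (LT n T w) ≤
      Real.log ((mN n).factorial : ℝ) + mN n * Real.log 2 + ∑ w ∈ T, Real.log (W w * LT n T w ^ 2 + MM) := by
    have hfacR : (0 : ℝ) < ((mN n).factorial : ℝ) := by exact_mod_cast Nat.factorial_pos _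
    rw [← Real.log_prod (fun w hw => (hLpos w hw).ne'), ← Real.log_prod (fun w hw => (hfac w hw).ne'),
      ← Real.log_mul hZ.ne' (Finset.prod_pos hLpos).ne', ← Real.log_pow,
      ← Real.log_mul hfacR.ne' (by positivity), ← Real.log_mul (by positivity) (Finset.prod_pos hfac).ne']
    exact Real.log_le_log (mul_pos hZ (Finset.prod_pos hLpos)) hdet
  have hsplit : ∀ f : ℕ → ℝ, ∑ w ∈ T, f w = ∑ w ∈ SS n, f w + ∑ w ∈ Y, f w :=
    fun f => Finset.sum_union h.disj
  rw [hsplit, hsplit] at hlog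
  have hSSc : ((SS n).card : ℝ) = 10 * n := by rw [SS_card]; push_cast; ring
  have hYc : (Y.card : ℝ) = 13 * n - 23 := by
    rw [h.card, Nat.cast_sub (by omega)]
    push_cast
    ring
  have hS1 : ∑ w ∈ SS n, Real.log (W w * LT n T w ^ 2 + MM) ≤
      ∑ w ∈ SS n, n * phi ((w : ℝ) / n) + 2 * ∑ w ∈ SS n, Real.log (LT n T w) +
        ((30 - θ) * n + 1) * (δ * n) + 10 * n * (c4 * Real.log n) := by
    refine (Finset.sum_le_sum fun w hw => (hsat w hw).2).trans ?_
    have e2 : ∑ w ∈ SS n, 2 * Real.log (LT n T w) = 2 * ∑ w ∈ SS n, Real.log (LT n T w) :=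
      (Finset.mul_sum _ _ _).symm
    rw [Finset.sum_add_distrib, Finset.sum_add_distrib, Finset.sum_add_distrib, e2, Finset.sum_const,
      nsmul_eq_mul, hSSc, ← Finset.sum_filter, Finset.sum_const, nsmul_eq_mul]
    have h1 := card_top (θ := θ) hn hyp.hθ
    have hδ := hyp.hδ
    have h2 := mul_le_mul_of_nonneg_right h1 (by positivity : 0 ≤ δ * n)
    linarith
  have hS2 : ∑ w ∈ Y, Real.log (W w * LT n T w ^ 2 + MM) ≤
      13 * n * ((lam * n + 92 * n * Real.log n) + c4 * Real.log n) := by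
    refine (Finset.sum_le_sum fun w hw => (hnon w hw).2).trans ?_
    rw [Finset.sum_const, nsmul_eq_mul, hYc]
    have hlam := hyp.hlam
    have : 0 ≤ (lam * n + 92 * n * Real.log n) + c4 * Real.log n := by
      have : 0 ≤ lam * n := by positivity
      positivity
    nlinarith
  -- the sums of the logarithms of the products
  have hLS : ∑ w ∈ SS n, Real.log (LT n T w) =
      ∑ w ∈ SS n, ∑ v ∈ T, gl w v - 10 * n * ((23 * n - 24) * Real.log 4) := by
    rw [Finset.sum_congr rfl fun w hw => (h.logT hn (Finset.mem_union_left _ hw)).2.1, Finset.sum_sub_distrib,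
      Finset.sum_const, nsmul_eq_mul, hSSc]
  have hLY : ∑ w ∈ Y, Real.log (LT n T w) =
      ∑ w ∈ Y, ∑ v ∈ T, gl w v - (13 * n - 23) * ((23 * n - 24) * Real.log 4) := by
    rw [Finset.sum_congr rfl fun w hw => (h.logT hn (Finset.mem_union_right _ hw)).2.1, Finset.sum_sub_distrib,
      Finset.sum_const, nsmul_eq_mul, hYc]
  have hES := (abs_le.1 h.eS).2
  have hEY := (abs_le.1 h.eY).1
  have hEp := h.ephi
  rw [← hT] at hES hEY
  have hfacm : Real.log ((mN n).factorial : ℝ) ≤ 23 * n * Real.log (23 * n) := by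
    have h1 : mN n ≤ 23 * n := by unfold mN; omega
    have hmpos : 1 ≤ mN n := by unfold mN; omega
    have h2 : ((mN n).factorial : ℝ) ≤ (mN n : ℝ) ^ (mN n) := by exact_mod_cast Nat.factorial_le_pow (mN n)
    have hm' : (mN n : ℝ) ≤ 23 * n := by exact_mod_cast h1
    have hm1 : (1 : ℝ) ≤ mN n := by exact_mod_cast hmpos
    calc Real.log ((mN n).factorial : ℝ) ≤ Real.log ((mN n : ℝ) ^ (mN n)) :=
          Real.log_le_log (by positivity) h2
      _ = mN n * Real.log (mN n) := by rw [Real.log_pow]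
      _ ≤ 23 * n * Real.log (23 * n) := by
          apply mul_le_mul hm' (Real.log_le_log (by linarith) hm') (Real.log_nonneg hm1) (by positivity)
  have hmlog2 : (mN n : ℝ) * Real.log 2 ≤ 23 * n := by
    have hm' : (mN n : ℝ) ≤ 23 * n := by
      have h1 : mN n ≤ 23 * n := by unfold mN; omega
      exact_mod_cast h1
    have h2 := Real.log_two_lt_d9
    have h3 : 0 ≤ Real.log 2 := Real.log_nonneg (by norm_num)
    have : (mN n : ℝ) * Real.log 2 ≤ 23 * n * 1 := mul_le_mul hm' (by linarith) h3 (by positivity)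
    linarith
  have hlog4 : Real.log 4 * ((23 * n - 24) * (3 * n - 23)) ≤ 69 * Real.log 4 * (n : ℝ) ^ 2 := by
    have h0 : 0 ≤ Real.log 4 := Real.log_nonneg (by norm_num)
    have h1 : (23 * (n : ℝ) - 24) * (3 * n - 23) ≤ 69 * (n : ℝ) ^ 2 := by nlinarith
    have := mul_le_mul_of_nonneg_left h1 h0
    linarith
  have hAW : AW D l lam δ θ * (n : ℝ) ^ 2 =
      (n : ℝ) ^ 2 * (10 * cph - J1 D (lS D) (HH 18) - J1 D (lS D) (HH 16) - J1 D (lS D) (HH 14)) +
      (n : ℝ) ^ 2 * J1 D (lT D l) (fun y => J1 D (lS D) (HH y)) -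
      (n : ℝ) ^ 2 * J1 D (lT D l) (fun y => J1 D l (HH y)) + 69 * Real.log 4 * (n : ℝ) ^ 2 +
      13 * (lam * (n : ℝ) ^ 2) + (30 - θ) * (δ * (n : ℝ) ^ 2) := by
    unfold AW
    ring
  rw [hAW]
  have hp1 : 13 * n * ((lam * n + 92 * n * Real.log n) + c4 * Real.log n) =
      13 * (lam * (n : ℝ) ^ 2) + 1196 * ((n : ℝ) ^ 2 * Real.log n) + 13 * (c4 * (n * Real.log n)) := by ring
  have hp2 : ((30 - θ) * n + 1) * (δ * n) = (30 - θ) * (δ * (n : ℝ) ^ 2) + δ * n := by ring
  have hp3 : 10 * (n : ℝ) * (c4 * Real.log n) = 10 * (c4 * (n * Real.log n)) := by ring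
  have hp4 : - (10 * n * ((23 * n - 24) * Real.log 4)) + (13 * n - 23) * ((23 * n - 24) * Real.log 4) =
      Real.log 4 * ((23 * n - 24) * (3 * n - 23)) := by ring
  have hp5 : 460 * (n : ℝ) ^ 2 * Real.log n = 460 * ((n : ℝ) ^ 2 * Real.log n) := by ring
  have hp6 : 598 * (n : ℝ) ^ 2 * Real.log n = 598 * ((n : ℝ) ^ 2 * Real.log n) := by ring
  have hp7 : 1058 * (n : ℝ) ^ 2 * Real.log n = 1058 * ((n : ℝ) ^ 2 * Real.log n) := by ring
  have hp8 : (3 * C + 23 * c4) * (n * Real.log n) = 3 * (C * (n * Real.log n)) + 23 * (c4 * (n * Real.log n)) := by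
    ring
  rw [hp1] at hS2
  rw [hp2, hp3] at hS1
  rw [hp5] at hES
  rw [hp6] at hEY
  rw [hp7, hp8]
  linarith

/-- the condition on `x` -/
lemma x_cond (h : ND D l C n Y) (hn : 2 ≤ n) (hC : 0 ≤ C) {c3 c5 ε : ℝ} (hc5 : 24 * Crho * (n : ℝ) ^ 112 ≤ Real.exp (c5 * Real.log n))
    (hsm : (c5 + 4 * C + 140) * Real.log n ≤ ε * n) (hc3 : 0 ≤ c3) {y : ℝ} (hy0 : 0 ≤ y)
    (hy : y ≤ Real.exp (-((VW D l 0 - lam + ε) * n))) :
    ∑ w ∈ SS n ∪ Y, Real.log ((w : ℝ) ^ 2 / 4) ≤
      2 * n * J1 D (lT D l) Psi + 46 * n * Real.log n - 23 * n * Real.log 4 + (2 * C + 70) * Real.log n ∧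
    24 * (Crho * (n : ℝ) ^ 112 * Real.exp (96 * Real.log 2 * n + 2 * (2 * n * J1 D (lT D l) Psi +
      46 * n * Real.log n - 23 * n * Real.log 4 + (2 * C + 70) * Real.log n))) * y ≤
      Real.exp (c3 * Real.log n + (lam * n + 92 * n * Real.log n)) := by
  have hl := half_le_log hn
  have hl0 : 0 ≤ Real.log n := by linarith
  have hn0 : (0 : ℝ) < n := by exact_mod_cast (by omega : 0 < n)
  constructor
  · have e : ∀ w ∈ SS n ∪ Y, Real.log ((w : ℝ) ^ 2 / 4) = 2 * Real.log w - Real.log 4 := by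
      intro w hw
      have h1 := (h.bdT hw).1
      have h2 : (0 : ℝ) < w := by exact_mod_cast (by omega : 0 < w)
      rw [Real.log_div (by positivity) (by norm_num), Real.log_pow]
      norm_num
    rw [Finset.sum_congr rfl e, Finset.sum_sub_distrib, ← Finset.mul_sum, Finset.sum_const, nsmul_eq_mul, h.cardR hn]
    have h3 := h.elog
    have h4 := log4_lt
    nlinarith
  · set B : ℝ := 96 * Real.log 2 * n + 2 * (2 * n * J1 D (lT D l) Psi + 46 * n * Real.log n - 23 * n * Real.log 4 +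
      (2 * C + 70) * Real.log n) with hB
    have hB' : B = VW D l 0 * n + 92 * n * Real.log n + (4 * C + 140) * Real.log n := by
      rw [hB]
      unfold VW
      rw [phi_zero, J1_ff0]
      ring
    calc 24 * (Crho * (n : ℝ) ^ 112 * Real.exp B) * y = (24 * Crho * (n : ℝ) ^ 112) * Real.exp B * y := by ring
      _ ≤ Real.exp (c5 * Real.log n) * Real.exp B * Real.exp (-((VW D l 0 - lam + ε) * n)) := by
          apply mul_le_mul (mul_le_mul_of_nonneg_right hc5 (Real.exp_pos _).le) hy hy0 (by positivity)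
      _ = Real.exp (c5 * Real.log n + B + -((VW D l 0 - lam + ε) * n)) := by
          rw [← Real.exp_add, ← Real.exp_add]
      _ ≤ _ := by
          apply Real.exp_le_exp.2
          rw [hB']
          have : 0 ≤ c3 * Real.log n := by positivity
          nlinarith

end

/-- **the archimedean bound** -/
theorem arch (D : ℕ) (hD : 1 ≤ D) (hD2 : Even D) (l : List (ℕ × ℕ × ℕ)) (hl : okc D 30 l = true)
    (hm : J1 D l id = 13) (lam δ θ : ℝ) (hyp : Hyp D l lam δ θ) : ArchB (AW D l lam δ θ) (VW D l 0 - lam) := by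
  obtain ⟨C, hC, hnodes⟩ := nodes D hD hD2 l hl hm
  obtain ⟨Cf, hCf, hfar⟩ := far_bd hyp.hlam
  obtain ⟨C2, K2, hC2, hwt⟩ := W2_weight
  obtain ⟨c1, hc1, hc1'⟩ := poly_exp Cf hCf 7
  obtain ⟨c2, hc2, hc2'⟩ := poly_exp C2 hC2 K2
  obtain ⟨c5, hc5, hc5'⟩ := poly_exp (24 * Crho) (by have := Crho_pos; positivity) 112
  set c3 : ℝ := c1 + c2 + 2 * (C + 70) with hc3
  have hc30 : 0 ≤ c3 := by rw [hc3]; positivity
  intro ε hε
  -- the error terms
  have hlim : ∀ᶠ n : ℕ in atTop, ((3 * C + 23 * (c3 + 2 * (C + 70) + 2)) * (n * Real.log n) +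
      23 * n * Real.log (23 * n) + 23 * n + δ * n) ≤ ε * (n : ℝ) ^ 2 ∧
      (c5 + 4 * C + 140) * Real.log n ≤ ε * n := by
    have h1 : Tendsto (fun n : ℕ => Real.log n / (n : ℝ)) atTop (𝓝 0) := by
      have := (Real.isLittleO_log_id_atTop.tendsto_div_nhds_zero).comp tendsto_natCast_atTop_atTop
      simpa [Function.comp_def] using this
    have h2 : Tendsto (fun n : ℕ => ((3 * C + 23 * (c3 + 2 * (C + 70) + 2)) + 23) * (Real.log n / (n : ℝ)) +
        (23 * Real.log 23 + 23 + δ) * ((n : ℝ))⁻¹)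
        atTop (𝓝 (((3 * C + 23 * (c3 + 2 * (C + 70) + 2)) + 23) * 0 + (23 * Real.log 23 + 23 + δ) * 0)) :=
      (h1.const_mul _).add (tendsto_inv_atTop_nhds_zero_nat.const_mul _)
    rw [mul_zero, mul_zero, add_zero] at h2
    have h3 : Tendsto (fun n : ℕ => (c5 + 4 * C + 140) * (Real.log n / (n : ℝ))) atTop
        (𝓝 ((c5 + 4 * C + 140) * 0)) := h1.const_mul _
    rw [mul_zero] at h3
    filter_upwards [h2.eventually (gt_mem_nhds hε), h3.eventually (gt_mem_nhds hε), eventually_ge_atTop 1]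
      with n a1 a2 a3
    have hn0 : (0 : ℝ) < n := by exact_mod_cast a3
    constructor
    · rw [Real.log_mul (by norm_num) hn0.ne']
      have h5 : ((3 * C + 23 * (c3 + 2 * (C + 70) + 2)) * (n * Real.log n) +
          23 * n * (Real.log 23 + Real.log n) + 23 * n + δ * n) =
          (n : ℝ) ^ 2 * (((3 * C + 23 * (c3 + 2 * (C + 70) + 2)) + 23) * (Real.log n / (n : ℝ)) +
            (23 * Real.log 23 + 23 + δ) * ((n : ℝ))⁻¹) := by
        field_simp
        ring
      rw [h5, mul_comm ε]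
      exact mul_le_mul_of_nonneg_left a1.le (by positivity)
    · have h6 : (c5 + 4 * C + 140) * Real.log n = n * ((c5 + 4 * C + 140) * (Real.log n / (n : ℝ))) := by
        field_simp
      rw [h6, mul_comm ε]
      exact mul_le_mul_of_nonneg_left a2.le hn0.le
  filter_upwards [hlim, eventually_ge_atTop 2, eventually_ge_atTop D] with n h1 h2 h3 x hx hDne
  obtain ⟨Y, hY⟩ := hnodes n h2 h3
  have hn2 : (2 : ℝ) ≤ n := by exact_mod_cast h2
  have hfar' : ∀ s : ℕ, 700 * n < us n s → |Wt n s| * (∏ v ∈ SS n ∪ Y, |xu n (us n s) - xu n v|) ^ 2 ≤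
      Real.exp (c1 * Real.log n) * Real.exp (lam * n + 92 * n * Real.log n) := by
    intro s hs
    refine (hfar n h2 (SS n ∪ Y) (hY.cardT h2) (fun w hw => (hY.bdT hw).2) s hs).trans ?_
    exact mul_le_mul_of_nonneg_right (hc1' n h2) (Real.exp_pos _).le
  have hW : ∀ s : ℕ, us n s ≤ 700 * n → |Wt n s| ≤ Real.exp (c2 * Real.log n) * Real.exp (n * phi ((us n s : ℝ) / n)) := by
    intro s hs
    refine (hwt n (by omega) s hs).trans ?_
    exact mul_le_mul_of_nonneg_right (hc2' n h2) (Real.exp_pos _).le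
  have hM := hM_all hyp hC hY h2 hc1 hc2 hfar' hW
  obtain ⟨hE, hxc⟩ := x_cond (lam := lam) (ε := ε) hY h2 hC (hc5' n h2) h1.2 hc30 (abs_nonneg ((x : ℝ) - zr 5)) hx
  have hdet := det_set h2 (SS n ∪ Y) (hY.cardT h2) (fun w hw => (hY.bdT hw).1)
    (Real.exp (c3 * Real.log n + (lam * n + 92 * n * Real.log n))) _ (Real.exp_pos _).le hM hE x hxc
  have hZ : 0 < |((DET n x (mN n) : ℚ) : ℝ)| := abs_pos.2 (by exact_mod_cast hDne)
  have hc23 : c2 ≤ c3 := by rw [hc3]; linarith
  have hfin := arch_sum hyp hC hY h2 hc2 hc23 hW rfl hZ hdet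
  have := h1.1
  linarith

end

end Pool.Agent.Y801.Z5S
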