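import Pool.Agent.Y801.Z5S.Cells
import Pool.Agent.Y801.Z5S.GP8

/-!
# Irrationality measure of `ζ(5)`: final numerical assembly
-/

open Polynomial Pool.Agent.H337R2 Pool.Agent.H336R2.Z5 Pool.Agent.H312R.ZA

namespace Pool.Agent.Y801.Z5S

noncomputable section

open Pool.Agent.H312R.PC (lnA lnA_spec)

lemma clN_ok : okc 1000000 30 clN = true := by decide +kernel

lemma clN_ends : endsOK clN := okc_ends clN_ok

lemma clN_mass : J1 1000000 clN id = 13 := by
  have h := J1_approx (D := 1000000) (by norm_num) 1 clN clN_ends id id (fun _ => 0) (fun y _ => by simp)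
  have e1 : JI clN id = 13000000 := by decide +kernel
  have e2 : JE clN (fun _ => 0) = 0 := by decide +kernel
  rw [e1, e2] at h
  have h1 := abs_le.1 h
  push_cast at h1
  linarith [h1.1, h1.2]

lemma jS18 : (4360394871007332000000 : ℝ) ≤ 4 * 10 ^ 12 * 1000000 * J1 1000000 (lS 1000000) (HH 18) := by
  have h := JH_spec (D := 1000000) (by norm_num) (lS 1000000) (lS_ends 1000000) (t := 18) (by norm_num)
  have e1 : JI (lS 1000000) (HI (18 : ℕ)) = 4360395100127332000000 := by decide +kernel
  have e2 : JE (lS 1000000) (HE (18 : ℕ)) = 229120000000000 := by decide +kernel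
  rw [e1, e2] at h
  have h1 := (abs_le.1 h).1
  push_cast at h1
  linarith

lemma jS16 : (3930263273333096000000 : ℝ) ≤ 4 * 10 ^ 12 * 1000000 * J1 1000000 (lS 1000000) (HH 16) := by
  have h := JH_spec (D := 1000000) (by norm_num) (lS 1000000) (lS_ends 1000000) (t := 16) (by norm_num)
  have e1 : JI (lS 1000000) (HI (16 : ℕ)) = 3930263486133096000000 := by decide +kernel
  have e2 : JE (lS 1000000) (HE (16 : ℕ)) = 212800000000000 := by decide +kernel
  rw [e1, e2] at h
  have h1 := (abs_le.1 h).1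
  push_cast at h1
  linarith

lemma jS14 : (3472095677132608000000 : ℝ) ≤ 4 * 10 ^ 12 * 1000000 * J1 1000000 (lS 1000000) (HH 14) := by
  have h := JH_spec (D := 1000000) (by norm_num) (lS 1000000) (lS_ends 1000000) (t := 14) (by norm_num)
  have e1 : JI (lS 1000000) (HI (14 : ℕ)) = 3472095875532608000000 := by decide +kernel
  have e2 : JE (lS 1000000) (HE (14 : ℕ)) = 198400000000000 := by decide +kernel
  rw [e1, e2] at h
  have h1 := (abs_le.1 h).1
  push_cast at h1
  linarith

lemma jT : 4 * 10 ^ 12 * 1000000 * 1000000 * J1 1000000 (lT 1000000 clN) (fun t => J1 1000000 (lS 1000000) (HH t)) ≤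
    (5977355097439325991672000000 : ℝ) := by
  have h := JJ_spec (D := 1000000) (by norm_num) (lS 1000000) (lT 1000000 clN) (lS_ends 1000000) (lT_ends clN_ends)
  have e1 : JI (lT 1000000 clN) (fun t => JI (lS 1000000) (HI t)) = 5977349753529752551672000000 := by decide +kernel
  have e2 : JE (lT 1000000 clN) (fun t => JE (lS 1000000) (HE t)) = 5343909573440000000000 := by decide +kernel
  rw [e1, e2] at h
  have h1 := (abs_le.1 h).2
  push_cast at h1
  linarith

lemma jN : (9397332709900899795976595988 : ℝ) ≤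
    4 * 10 ^ 12 * 1000000 * 1000000 * J1 1000000 (lT 1000000 clN) (fun t => J1 1000000 clN (HH t)) := by
  have h := JJ_spec (D := 1000000) (by norm_num) clN (lT 1000000 clN) clN_ends (lT_ends clN_ends)
  have e1 : JI (lT 1000000 clN) (fun t => JI clN (HI t)) = 9397353113147034852128915988 := by decide +kernel
  have e2 : JE (lT 1000000 clN) (fun t => JE clN (HE t)) = 20403246135056152320000 := by decide +kernel
  rw [e1, e2] at h
  have h1 := (abs_le.1 h).1
  push_cast at h1
  linarith

lemma jP : 10 ^ 12 * 1000000 * J1 1000000 (lT 1000000 clN) Psi ≤ (84514831070559219568 : ℝ) := by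
  have h := JP_spec (D := 1000000) (by norm_num) (lT 1000000 clN) (lT_ends clN_ends)
  have e1 : JI (lT 1000000 clN) PI' = 84514823907234979568 := by decide +kernel
  have e2 : JE (lT 1000000 clN) (fun z => z * Pool.Agent.H312R.PC.lnE) = 7163324240000 := by decide +kernel
  rw [e1, e2] at h
  have h1 := (abs_le.1 h).2
  push_cast at h1
  linarith

lemma AW_le : AW 1000000 clN (73657 / 500) (3 / 100) (239 / 8) ≤ 29359 / 50 := by
  have h1 := jS18
  have h2 := jS16
  have h3 := jS14
  have h4 := jT
  have h5 := jN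
  have h6 := const_bounds.2
  have h7 := abs_le.mp (lnA_spec 4 (by norm_num) (by norm_num))
  have e4 : lnA 4 = 1386294361120 := by decide +kernel
  rw [e4] at h7
  push_cast at h7
  unfold AW
  linarith [h7.1, h7.2]

lemma V0_le : VW 1000000 clN 0 ≤ 42604 / 125 := by
  have h1 := jP
  have h4 := abs_le.mp (lnA_spec 4 (by norm_num) (by norm_num))
  have h2 := abs_le.mp (lnA_spec 2 (by norm_num) (by norm_num))
  have e4 : lnA 4 = 1386294361120 := by decide +kernel
  have e2 : lnA 2 = 693147180560 := by decide +kernel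
  rw [e4] at h4
  rw [e2] at h2
  push_cast at h4 h2
  unfold VW
  rw [phi_zero, J1_ff0]
  linarith [h4.1, h4.2, h2.1, h2.2]

theorem archB : ArchB (29359 / 50) (42604 / 125 - 73657 / 500) := by
  have h := arch 1000000 (by norm_num) (by decide) clN clN_ok clN_mass _ _ _ hyp
  intro ε hε
  filter_upwards [h ε hε] with n hn x hx hD
  have h1 := hn x (hx.trans (Real.exp_le_exp.2 ?_)) hD
  · refine h1.trans ?_
    have h2 := AW_le
    have h3 : (0 : ℝ) ≤ (n : ℝ) ^ 2 := by positivity
    nlinarith
  · have h2 := V0_le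
    have h3 : (0 : ℝ) ≤ (n : ℝ) := Nat.cast_nonneg n
    have h4 : (VW 1000000 clN 0 - 73657 / 500 + ε) * n ≤ (42604 / 125 - 73657 / 500 + ε) * n :=
      mul_le_mul_of_nonneg_right (by linarith) h3
    linarith

/-- **Irrationality measure of `ζ(5)`** -/
theorem measure83 : ∃ c : ℝ, 0 < c ∧ ∀ (a : ℤ) (b : ℕ), 0 < b → c / (b : ℝ) ^ 83 ≤ |zr 5 - (a : ℝ) / b| :=
  measure_of archB (K := 3 / 7) (by norm_num) (by norm_num) (by norm_num) (by norm_num)

theorem main : Irrational (zr 5) ∧
    ∃ c : ℝ, 0 < c ∧ ∀ (p : ℤ) (q : ℕ), 0 < q → c / (q : ℝ) ^ 83 ≤ |zr 5 - (p : ℝ) / q| :=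
  ⟨(Pool.Agent.H336R2.Z5M.not_liouville measure83).1, measure83⟩

end

end Pool.Agent.Y801.Z5S
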