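import Pool.Agent.Y801.Z5S.Rho2a

/-!
# Irrationality measure of `ζ(5)`: sharp bound for the coefficient of `ζ(5)`, real version
-/

open Polynomial Pool.Agent.H337R2 Pool.Agent.H336R2.Z5 Pool.Agent.H312R.ZA Pool.Agent.H336R2.Z5M

namespace Pool.Agent.Y801.Z5S

noncomputable section

lemma const_arr (A B n e E X : ℝ) :
    20 * n * ((26 * n) * (((A * n) ^ 2) ^ 49 * (e * E) ^ 2) * (((B * n) ^ 2) ^ 6 * X)) =
    (20 * 26 * A ^ 98 * B ^ 12 * (e * e)) * n ^ 112 * (X * (E * E)) := by ring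

lemma mono6 {t a a' g g' p p' k k' X : ℝ} (ht : 0 ≤ t) (ha0 : 0 ≤ a) (ha : a ≤ a') (hg0 : 0 ≤ g) (hg : g ≤ g')
    (hp0 : 0 ≤ p) (hp : p ≤ p') (hk0 : 0 ≤ k) (hk : k ≤ k') (hX : 0 ≤ X) :
    t * (a * (g * p ^ 2) * (k * X)) ≤ t * (a' * (g' * p' ^ 2) * (k' * X)) := by
  have ha1 := ha0.trans ha
  have hg1 := hg0.trans hg
  have hp1 := hp0.trans hp
  gcongr

/-- the constant in the bound for the coefficient -/
def Crho : ℝ := 20 * 26 * 13 ^ 98 * 25 ^ 12 * Real.exp 12

lemma Crho_pos : 0 < Crho := by unfold Crho; positivity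

/-- real version: if the product of the nodes is bounded, then so is the coefficient -/
theorem rho_real {n m : ℕ} (nu : ℕ → ℕ) (hn : 1 ≤ n) (hm : m ≤ 23 * n) (hlow : ∀ l < m, 16 * n < nu l) (E : ℝ)
    (hE : ∑ l ∈ Finset.range m, Real.log ((nu l : ℝ) ^ 2 / 4) ≤ E) {i j : ℕ} (hi : i < m) (hj : j < m) :
    |((rho n (lag m (fun j => xq n (nu j)) i * lag m (fun j => xq n (nu j)) j) : ℚ) : ℝ)| ≤
      Crho * (n : ℝ) ^ 112 * Real.exp (96 * Real.log 2 * n + 2 * E) := by
  have h1 := rho_bound' nu hn hlow hi hj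
  have h2 : |((rho n (lag m (fun j => xq n (nu j)) i * lag m (fun j => xq n (nu j)) j) : ℚ) : ℝ)| ≤
      20 * n * ((T2 n m nu : ℚ) : ℝ) := by
    have : ((|rho n (lag m (fun j => xq n (nu j)) i * lag m (fun j => xq n (nu j)) j)| : ℚ) : ℝ) ≤
        ((20 * n * T2 n m nu : ℚ) : ℝ) := by exact_mod_cast h1
    rw [Rat.cast_abs] at this
    push_cast at this
    exact this
  refine h2.trans ?_
  have hn1 : (1 : ℝ) ≤ n := by exact_mod_cast hn
  have hn0 : (0 : ℝ) < n := by linarith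
  have hPN : ((PN n m nu : ℚ) : ℝ) ≤ Real.exp 6 * Real.exp E := by
    unfold PN
    push_cast
    rw [Finset.prod_mul_distrib, mul_comm]
    apply mul_le_mul
    · rw [Finset.prod_const, Finset.card_range]
      calc (1 + 1 / (4 * (n : ℝ))) ^ m ≤ (Real.exp (1 / (4 * (n : ℝ)))) ^ m := by
            apply pow_le_pow_left₀ (by positivity)
            have := Real.add_one_le_exp (1 / (4 * (n : ℝ)))
            linarith
        _ = Real.exp (m * (1 / (4 * (n : ℝ)))) := by rw [← Real.exp_nat_mul]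
        _ ≤ Real.exp 6 := by
            apply Real.exp_le_exp.2
            have hm' : (m : ℝ) ≤ 23 * n := by exact_mod_cast hm
            rw [mul_one_div, div_le_iff₀ (by positivity)]
            linarith
    · have hpos : ∀ l ∈ Finset.range m, (0 : ℝ) < (nu l : ℝ) ^ 2 / 4 := by
        intro l hl
        have h3 := hlow l (Finset.mem_range.1 hl)
        have : (0 : ℝ) < nu l := by exact_mod_cast (by omega : 0 < nu l)
        positivity
      rw [← Real.exp_log (Finset.prod_pos hpos), Real.log_prod (fun l hl => (hpos l hl).ne')]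
      exact Real.exp_le_exp.2 hE
    · exact Finset.prod_nonneg fun l _ => by positivity
    · exact (Real.exp_pos _).le
  have hPN0 : 0 ≤ ((PN n m nu : ℚ) : ℝ) := by exact_mod_cast PN_nonneg n m nu
  have a1 : 24 * (n : ℝ) + 2 ≤ 26 * n := by linarith
  have a2 : ((12 * (n : ℝ) + 1) ^ 2) ^ 49 ≤ ((13 * n) ^ 2) ^ 49 := by
    have : 12 * (n : ℝ) + 1 ≤ 13 * n := by linarith
    gcongr
  have a3 : ((24 * (n : ℝ) + 1) ^ 2) ^ 6 ≤ ((25 * n) ^ 2) ^ 6 := by
    have : 24 * (n : ℝ) + 1 ≤ 25 * n := by linarith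
    gcongr
  have a5 : (2 : ℝ) ^ (96 * n) = Real.exp (96 * Real.log 2 * n) := by
    have h1 : (2 : ℝ) ^ (96 * n) = Real.exp (((96 * n : ℕ) : ℝ) * Real.log 2) := by
      rw [← Real.log_pow, Real.exp_log (by positivity)]
    rw [h1]
    congr 1
    push_cast
    ring
  have hT : ((T2 n m nu : ℚ) : ℝ) = (24 * n + 2) * (((12 * (n : ℝ) + 1) ^ 2) ^ 49 * ((PN n m nu : ℚ) : ℝ) ^ 2) *
      (((24 * (n : ℝ) + 1) ^ 2) ^ 6 * 2 ^ (96 * n)) := by
    unfold T2
    push_cast
    rfl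
  rw [hT, a5]
  have hE12 : Real.exp 12 = Real.exp 6 * Real.exp 6 := by
    rw [← Real.exp_add]
    norm_num
  have hX : Real.exp (96 * Real.log 2 * n + 2 * E) = Real.exp (96 * Real.log 2 * n) * (Real.exp E * Real.exp E) := by
    rw [← Real.exp_add, ← Real.exp_add]
    congr 1
    ring
  have hfin : Crho * (n : ℝ) ^ 112 * Real.exp (96 * Real.log 2 * n + 2 * E) =
      20 * (n : ℝ) * ((26 * n) * (((13 * n) ^ 2) ^ 49 * (Real.exp 6 * Real.exp E) ^ 2) *
      (((25 * n) ^ 2) ^ 6 * Real.exp (96 * Real.log 2 * n))) := by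
    rw [hX, const_arr]
    unfold Crho
    rw [hE12]
  rw [hfin]
  exact mono6 (by positivity) (by positivity) a1 (by positivity) a2 hPN0 hPN (by positivity) a3 (Real.exp_pos _).le

end

end Pool.Agent.Y801.Z5S
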