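import Pool.Agent.H336R2.Z5M.Arch
import Pool.Agent.Y801.Z5S.Rho2

/-!
# Archimedean bound of the Hankel determinants with arbitrary nodes: row sums and the determinant inequality
(adapted from `H312R/ZA/AN6` and `H336R2/Z5M/Arch`)
-/

open Polynomial Pool.Agent.H337R2 Pool.Agent.H336R2.Z5 Pool.Agent.H312R.ZA Filter Topology

namespace Pool.Agent.Y801.Z5S

noncomputable section

theorem g_xr (n s : ℕ) : xr n (tau n s) = xu n (us n s) := by
  unfold xr tau xu us
  push_cast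
  ring

theorem g_xq (n u : ℕ) : ((xq n u : ℚ) : ℝ) = xu n u := by
  unfold xq xu
  push_cast
  ring

private theorem g_sum (N : ℕ) : ∑ j ∈ Finset.range N, 1 / ((j : ℝ) + 1) ^ 2 ≤ 2 - 2 / ((N : ℝ) + 1) := by
  induction N with
  | zero => simp
  | succ N ih =>
    rw [Finset.sum_range_succ]
    have h1 : 1 / ((N : ℝ) + 1) ^ 2 ≤ 2 / ((N : ℝ) + 1) - 2 / ((N : ℝ) + 1 + 1) := by
      rw [div_sub_div _ _ (by positivity) (by positivity), div_le_div_iff₀ (by positivity) (by positivity)]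
      nlinarith [(Nat.cast_nonneg N : (0:ℝ) ≤ N), sq_nonneg ((N : ℝ)), mul_nonneg (Nat.cast_nonneg N : (0:ℝ) ≤ N) (sq_nonneg ((N : ℝ)))]
    push_cast
    linarith

private theorem g_sum2 (N : ℕ) : ∑ j ∈ Finset.range N, 1 / ((j : ℝ) + 1) ^ 2 ≤ 2 := by
  have h1 := g_sum N
  have h2 : 0 ≤ 2 / ((N : ℝ) + 1) := by positivity
  linarith

private theorem g_sum3 (a : ℕ) (T : Finset ℕ) :
    ∑ s ∈ T.erase a, 1 / ((s : ℝ) - a) ^ 2 ≤ 4 := by
  obtain ⟨N, hN⟩ := T.bddAbove
  have hsub : T.erase a ⊆ Finset.range a ∪ Finset.Ico (a + 1) (a + 1 + (N + 1)) := by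
    intro s hs
    rw [Finset.mem_erase] at hs
    have h1 := hN (Finset.mem_coe.2 hs.2)
    rw [Finset.mem_union, Finset.mem_range, Finset.mem_Ico]
    omega
  calc ∑ s ∈ T.erase a, 1 / ((s : ℝ) - a) ^ 2
      ≤ ∑ s ∈ Finset.range a ∪ Finset.Ico (a + 1) (a + 1 + (N + 1)), 1 / ((s : ℝ) - a) ^ 2 :=
        Finset.sum_le_sum_of_subset_of_nonneg hsub fun _ _ _ => by positivity
    _ ≤ ∑ s ∈ Finset.range a, 1 / ((s : ℝ) - a) ^ 2 +
        ∑ s ∈ Finset.Ico (a + 1) (a + 1 + (N + 1)), 1 / ((s : ℝ) - a) ^ 2 := by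
        rw [← Finset.sum_union_inter]
        exact le_add_of_nonneg_right (Finset.sum_nonneg fun _ _ => by positivity)
    _ ≤ 2 + 2 := by
        refine add_le_add ?_ ?_
        · rw [← Finset.sum_range_reflect]
          refine le_trans (le_of_eq ?_) (g_sum2 a)
          refine Finset.sum_congr rfl fun j hj => ?_
          rw [Finset.mem_range] at hj
          have : ((a - 1 - j : ℕ) : ℝ) = (a : ℝ) - 1 - j := by
            rw [Nat.cast_sub (by omega), Nat.cast_sub (by omega)]; simp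
          rw [this]
          congr 1
          ring
        · rw [Finset.sum_Ico_eq_sum_range]
          have h : a + 1 + (N + 1) - (a + 1) = N + 1 := by omega
          rw [h]
          refine le_trans (le_of_eq ?_) (g_sum2 (N + 1))
          refine Finset.sum_congr rfl fun j _ => ?_
          push_cast
          congr 1
          ring
    _ = 4 := by norm_num

private theorem g_alg {w L d K MM : ℝ} (hw : 0 ≤ w) (hK : 0 < K) (hlb : K ≤ d ^ 2)
    (h1 : w * (d * L) ^ 2 ≤ MM) : w * L ^ 2 ≤ MM / K := by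
  rw [le_div_iff₀ hK]
  have h2 : w * L ^ 2 * K ≤ w * L ^ 2 * d ^ 2 := mul_le_mul_of_nonneg_left hlb (by positivity)
  have h3 : w * L ^ 2 * d ^ 2 = w * (d * L) ^ 2 := by ring
  linarith

private theorem g_lb {n : ℕ} {u v : ℕ} (h : 32 * n ≤ u + v) :
    64 * (n : ℝ) ^ 2 * ((u : ℝ) - v) ^ 2 ≤ |xu n u - xu n v| ^ 2 := by
  have hd : xu n u - xu n v = ((u : ℝ) - v) * ((u : ℝ) + v) / 4 := by
    unfold xu
    ring
  have hsum : (32 : ℝ) * n ≤ (u : ℝ) + v := by exact_mod_cast h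
  have h3 : (32 * (n : ℝ)) ^ 2 ≤ ((u : ℝ) + v) ^ 2 := pow_le_pow_left₀ (by positivity) hsum 2
  have h4 := mul_le_mul_of_nonneg_left h3 (sq_nonneg ((u : ℝ) - v))
  rw [sq_abs, hd]
  nlinarith

/-- row sums -/
theorem rowsum {n m : ℕ} (hn : 2 ≤ n) (nu : ℕ → ℕ) (hlow' : ∀ l < m, 16 * n < nu l) (MM : ℝ) (hM0 : 0 ≤ MM)
    (hM : ∀ s, (∀ i < m, nu i ≠ us n s) →
      |Wt n s| * (∏ j ∈ Finset.range m, |xu n (us n s) - xu n (nu j)|) ^ 2 ≤ MM)
    {i : ℕ} (hi : i < m) (T : Finset ℕ) :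
    ∑ s ∈ T, |Wt n s| * (aeval (xr n (tau n s)) (lag m (fun j => xq n (nu j)) i)) ^ 2 ≤
      |Wt n (nu i - 16 * n - 1)| * (∏ j ∈ (Finset.range m).erase i, |xu n (nu i) - xu n (nu j)|) ^ 2 + MM := by
  have hlow := hlow' i hi
  set a := nu i - 16 * n - 1 with ha
  have hua : us n a = nu i := by unfold us; omega
  have hval : ∀ s, (aeval (xr n (tau n s)) (lag m (fun j => xq n (nu j)) i)) =
      ∏ j ∈ (Finset.range m).erase i, (xu n (us n s) - xu n (nu j)) := by
    intro s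
    unfold lag
    rw [map_prod]
    refine Finset.prod_congr rfl fun j _ => ?_
    rw [map_sub, aeval_X, aeval_C, g_xr, eq_ratCast, g_xq]
  have hsq : ∀ s, (aeval (xr n (tau n s)) (lag m (fun j => xq n (nu j)) i)) ^ 2 =
      (∏ j ∈ (Finset.range m).erase i, |xu n (us n s) - xu n (nu j)|) ^ 2 := by
    intro s
    rw [hval, ← sq_abs, Finset.abs_prod]
  have hterm0 : |Wt n a| * (aeval (xr n (tau n a)) (lag m (fun j => xq n (nu j)) i)) ^ 2 =
      |Wt n a| * (∏ j ∈ (Finset.range m).erase i, |xu n (nu i) - xu n (nu j)|) ^ 2 := by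
    rw [hsq, hua]
  have hterm : ∀ s, s ≠ a →
      |Wt n s| * (aeval (xr n (tau n s)) (lag m (fun j => xq n (nu j)) i)) ^ 2 ≤
        MM / (64 * (n : ℝ) ^ 2) * (1 / ((s : ℝ) - a) ^ 2) := by
    intro s hs
    have hrhs : 0 ≤ MM / (64 * (n : ℝ) ^ 2) * (1 / ((s : ℝ) - a) ^ 2) := by positivity
    by_cases hex : ∃ j < m, nu j = us n s
    · obtain ⟨j, hj, hje⟩ := hex
      have hji : j ≠ i := by
        rintro rfl
        apply hs
        have : us n s = us n a := by rw [hua, hje]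
        unfold us at this
        omega
      have hz : (∏ j ∈ (Finset.range m).erase i, |xu n (us n s) - xu n (nu j)|) = 0 := by
        refine Finset.prod_eq_zero (Finset.mem_erase.2 ⟨hji, Finset.mem_range.2 hj⟩) ?_
        rw [hje]
        simp
      rw [hsq, hz]
      simpa using hrhs
    · push Not at hex
      have h1 := hM s hex
      have h2 : (∏ j ∈ Finset.range m, |xu n (us n s) - xu n (nu j)|) = |xu n (us n s) - xu n (nu i)| *
          ∏ j ∈ (Finset.range m).erase i, |xu n (us n s) - xu n (nu j)| := by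
        rw [Finset.mul_prod_erase _ (fun j => |xu n (us n s) - xu n (nu j)|)
          (Finset.mem_range.2 hi)]
      set L := ∏ j ∈ (Finset.range m).erase i, |xu n (us n s) - xu n (nu j)| with hL
      rw [h2] at h1
      rw [hsq]
      have hsum : 32 * n ≤ us n s + us n a := by unfold us; omega
      have hne : (s : ℝ) - a ≠ 0 := sub_ne_zero.2 (by exact_mod_cast hs)
      have hnn : (0 : ℝ) < n := by exact_mod_cast (by omega : 0 < n)
      have hlb := g_lb hsum
      rw [hua] at hlb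
      have hus : ((us n s : ℕ) : ℝ) - ((nu i : ℕ) : ℝ) = (s : ℝ) - a := by
        rw [← hua]; unfold us; push_cast; ring
      rw [hus] at hlb
      have hpos : 0 < 64 * (n : ℝ) ^ 2 * ((s : ℝ) - a) ^ 2 := by positivity
      refine (g_alg (abs_nonneg (Wt n s)) hpos hlb h1).trans (le_of_eq ?_)
      rw [div_mul_div_comm, mul_one]
  have hnn : (2 : ℝ) ≤ n := by exact_mod_cast hn
  have hrest : ∑ s ∈ T.erase a,
      |Wt n s| * (aeval (xr n (tau n s)) (lag m (fun j => xq n (nu j)) i)) ^ 2 ≤ MM := by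
    calc ∑ s ∈ T.erase a,
        |Wt n s| * (aeval (xr n (tau n s)) (lag m (fun j => xq n (nu j)) i)) ^ 2
        ≤ ∑ s ∈ T.erase a, MM / (64 * (n : ℝ) ^ 2) * (1 / ((s : ℝ) - a) ^ 2) :=
          Finset.sum_le_sum fun s hs => hterm s (Finset.mem_erase.1 hs).1
      _ = MM / (64 * (n : ℝ) ^ 2) * ∑ s ∈ T.erase a, 1 / ((s : ℝ) - a) ^ 2 := by
          rw [Finset.mul_sum]
      _ ≤ MM / (64 * (n : ℝ) ^ 2) * 4 :=
          mul_le_mul_of_nonneg_left (g_sum3 a T) (by positivity)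
      _ ≤ MM := by
          rw [div_mul_eq_mul_div, div_le_iff₀ (by positivity)]
          have h4 : (4 : ℝ) ≤ 64 * (n : ℝ) ^ 2 := by nlinarith
          exact mul_le_mul_of_nonneg_left h4 hM0
  by_cases haT : a ∈ T
  · rw [← Finset.add_sum_erase T _ haT, hterm0]
    linarith
  · rw [← Finset.erase_eq_of_notMem haT]
    have : 0 ≤ |Wt n a| * (∏ j ∈ (Finset.range m).erase i, |xu n (nu i) - xu n (nu j)|) ^ 2 := by positivity
    linarith

theorem xq_inj {n a b : ℕ} (h : xq n a = xq n b) : a = b := by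
  unfold xq at h
  have h1 : ((a : ℕ) : ℚ) ^ 2 = ((b : ℕ) : ℚ) ^ 2 := by linarith
  have h2 : ((a : ℕ) : ℚ) = ((b : ℕ) : ℚ) :=
    (pow_left_inj₀ (by positivity) (by positivity) (by norm_num)).1 h1
  exact_mod_cast h2

theorem det_gen {n : ℕ} (hn : 2 ≤ n) (u : ℚ) (nu : ℕ → ℕ) (hlow : ∀ l < mN n, 16 * n < nu l)
    (hinj : Set.InjOn nu (Finset.range (mN n))) (F : ℚ[X] → ℝ)
    (hB1 : ∀ Q : ℚ[X], Q.natDegree ≤ 48 * n - 48 →
      HasSum (fun s => Wt n s * aeval (xr n (tau n s)) Q) (((NL n u Q : ℚ) : ℝ) + F Q))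
    (MM : ℝ) (hM0 : 0 ≤ MM)
    (hM : ∀ s, (∀ i < mN n, nu i ≠ us n s) →
      |Wt n s| * (∏ j ∈ Finset.range (mN n), |xu n (us n s) - xu n (nu j)|) ^ 2 ≤ MM)
    (hF : ∀ i < mN n, ∀ j < mN n,
      |F (lag (mN n) (fun j => xq n (nu j)) i * lag (mN n) (fun j => xq n (nu j)) j)| ≤ MM) :
    |((DET n u (mN n) : ℚ) : ℝ)| *
        ∏ i ∈ Finset.range (mN n), ∏ j ∈ (Finset.range (mN n)).erase i, |xu n (nu i) - xu n (nu j)| ≤
      ((mN n).factorial : ℝ) * 2 ^ (mN n) * ∏ i ∈ Finset.range (mN n),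
        (|Wt n (nu i - 16 * n - 1)| *
          (∏ j ∈ (Finset.range (mN n)).erase i, |xu n (nu i) - xu n (nu j)|) ^ 2 + MM) := by
  have hdeg : 2 * mN n - 2 ≤ 48 * n - 48 := by
    unfold mN
    omega
  have h := Pool.Agent.H336R2.Z5M.det_pert (NL n u) F (mN n) (fun s => Wt n s) (fun s => xr n (tau n s))
    (fun Q hQ => hB1 Q (le_trans hQ hdeg)) (fun j => xq n (nu j))
    (fun a ha b hb hab => hinj ha hb (xq_inj hab))
    (fun i => |Wt n (nu i - 16 * n - 1)| *
      (∏ j ∈ (Finset.range (mN n)).erase i, |xu n (nu i) - xu n (nu j)|) ^ 2 + MM) MM hM0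
    (fun i _ => le_add_of_nonneg_left (by positivity))
    (fun i hi T => rowsum hn nu hlow MM hM0 hM hi T) hF
  have hLL : ∏ i ∈ Finset.range (mN n), ∏ j ∈ (Finset.range (mN n)).erase i, |xu n (nu i) - xu n (nu j)| =
      ∏ i ∈ Finset.range (mN n), ∏ j ∈ (Finset.range (mN n)).erase i,
        |((xq n (nu i) - xq n (nu j) : ℚ) : ℝ)| := by
    apply Finset.prod_congr rfl
    intro i _
    apply Finset.prod_congr rfl
    intro j _
    rw [← g_xq, ← g_xq, Rat.cast_sub]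
  rw [hLL]
  exact h

/-! ### finite sets of nodes -/

lemma exists_enum (T : Finset ℕ) (m : ℕ) (h : T.card = m) :
    ∃ nu : ℕ → ℕ, Set.InjOn nu (Finset.range m) ∧ (Finset.range m).image nu = T := by
  classical
  refine ⟨fun i => if hi : i < m then T.orderEmbOfFin h ⟨i, hi⟩ else 0, ?_, ?_⟩
  · intro a ha b hb hab
    have ha' : a < m := Finset.mem_range.1 (Finset.mem_coe.1 ha)
    have hb' : b < m := Finset.mem_range.1 (Finset.mem_coe.1 hb)
    simp only [dif_pos ha', dif_pos hb'] at hab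
    have := (T.orderEmbOfFin h).injective hab
    exact Fin.mk.inj_iff.1 this
  · ext w
    rw [Finset.mem_image]
    constructor
    · rintro ⟨i, hi, rfl⟩
      rw [Finset.mem_range] at hi
      rw [dif_pos hi]
      exact Finset.orderEmbOfFin_mem T h ⟨i, hi⟩
    · intro hw
      have h1 : w ∈ Set.range (T.orderEmbOfFin h) := by
        rw [Finset.range_orderEmbOfFin]
        exact hw
      obtain ⟨i, hi⟩ := h1
      refine ⟨i.1, Finset.mem_range.2 i.2, ?_⟩
      rw [dif_pos i.2]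
      exact hi

/-- product of the distances to the other nodes -/
def LT (n : ℕ) (T : Finset ℕ) (w : ℕ) : ℝ := ∏ v ∈ T.erase w, |xu n w - xu n v|

theorem det_set {n : ℕ} (hn : 2 ≤ n) (T : Finset ℕ) (hT : T.card = mN n) (hlow : ∀ w ∈ T, 16 * n < w)
    (MM E : ℝ) (hM0 : 0 ≤ MM)
    (hM : ∀ s, us n s ∉ T → |Wt n s| * (∏ v ∈ T, |xu n (us n s) - xu n v|) ^ 2 ≤ MM)
    (hE : ∑ w ∈ T, Real.log ((w : ℝ) ^ 2 / 4) ≤ E) (x : ℚ)
    (hx : 24 * (Crho * (n : ℝ) ^ 112 *
      Real.exp (96 * Real.log 2 * n + 2 * E)) * |(x : ℝ) - zr 5| ≤ MM) :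
    |((DET n x (mN n) : ℚ) : ℝ)| * ∏ w ∈ T, LT n T w ≤
      ((mN n).factorial : ℝ) * 2 ^ (mN n) * ∏ w ∈ T, (|Wt n (w - 16 * n - 1)| * LT n T w ^ 2 + MM) := by
  obtain ⟨nu, hinj, himg⟩ := exists_enum T (mN n) hT
  have hmem : ∀ i < mN n, nu i ∈ T := by
    intro i hi
    rw [← himg]
    exact Finset.mem_image_of_mem _ (Finset.mem_range.2 hi)
  have hsum : ∀ f : ℕ → ℝ, ∑ w ∈ T, f w = ∑ i ∈ Finset.range (mN n), f (nu i) := by
    intro f
    rw [← himg, Finset.sum_image hinj]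
  have hprod : ∀ f : ℕ → ℝ, ∏ w ∈ T, f w = ∏ i ∈ Finset.range (mN n), f (nu i) := by
    intro f
    rw [← himg, Finset.prod_image hinj]
  have hL : ∀ i < mN n, LT n T (nu i) = ∏ j ∈ (Finset.range (mN n)).erase i, |xu n (nu i) - xu n (nu j)| := by
    intro i hi
    have h1 : T.erase (nu i) = ((Finset.range (mN n)).erase i).image nu := by
      ext w
      rw [Finset.mem_erase, Finset.mem_image]
      constructor
      · rintro ⟨h1, h2⟩
        rw [← himg, Finset.mem_image] at h2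
        obtain ⟨j, hj, rfl⟩ := h2
        exact ⟨j, Finset.mem_erase.2 ⟨fun h => h1 (by rw [h]), hj⟩, rfl⟩
      · rintro ⟨j, hj, rfl⟩
        rw [Finset.mem_erase] at hj
        refine ⟨fun h => hj.1 (hinj (Finset.mem_coe.2 hj.2) (Finset.mem_coe.2 (Finset.mem_range.2 hi)) h), ?_⟩
        exact hmem j (Finset.mem_range.1 hj.2)
    unfold LT
    rw [h1, Finset.prod_image]
    intro a ha b hb hab
    exact hinj (Finset.mem_coe.2 (Finset.mem_of_mem_erase (Finset.mem_coe.1 ha)))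
      (Finset.mem_coe.2 (Finset.mem_of_mem_erase (Finset.mem_coe.1 hb))) hab
  have hlow' : ∀ l < mN n, 16 * n < nu l := fun l hl => hlow _ (hmem l hl)
  have h := det_gen hn x nu hlow' hinj
    (fun Q => 24 * ((Pool.Agent.H336R2.Z5M.rho n Q : ℚ) : ℝ) * ((x : ℝ) - zr 5))
    (fun Q hQ => Pool.Agent.H336R2.Z5M.hasSum_gen hn x Q hQ) MM hM0
    (fun s hs => by
      rw [← hprod (fun v => |xu n (us n s) - xu n v|)]
      apply hM s
      intro hmem2
      rw [← himg, Finset.mem_image] at hmem2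
      obtain ⟨j, hj, hje⟩ := hmem2
      exact hs j (Finset.mem_range.1 hj) hje)
    (fun i hi j hj => by
      refine le_trans ?_ hx
      have h1 := rho_real nu (by omega : 1 ≤ n) (by unfold mN; omega : mN n ≤ 23 * n) hlow' E
        (by rw [← hsum (fun w => Real.log ((w : ℝ) ^ 2 / 4))]; exact hE) hi hj
      rw [abs_mul, abs_mul, abs_of_pos (by norm_num : (0 : ℝ) < 24)]
      exact mul_le_mul_of_nonneg_right (mul_le_mul_of_nonneg_left h1 (by norm_num)) (abs_nonneg _))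
  have e1 : ∏ w ∈ T, LT n T w =
      ∏ i ∈ Finset.range (mN n), ∏ j ∈ (Finset.range (mN n)).erase i, |xu n (nu i) - xu n (nu j)| := by
    rw [hprod]
    exact Finset.prod_congr rfl fun i hi => hL i (Finset.mem_range.1 hi)
  have e2 : ∏ w ∈ T, (|Wt n (w - 16 * n - 1)| * LT n T w ^ 2 + MM) =
      ∏ i ∈ Finset.range (mN n), (|Wt n (nu i - 16 * n - 1)| *
        (∏ j ∈ (Finset.range (mN n)).erase i, |xu n (nu i) - xu n (nu j)|) ^ 2 + MM) := by
    rw [hprod]
    exact Finset.prod_congr rfl fun i hi => by rw [hL i (Finset.mem_range.1 hi)]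
  rw [e1, e2]
  exact h

end

end Pool.Agent.Y801.Z5S
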