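import Pool.Agent.H312R.ZA.Defs
import Pool.Agent.H312R.ZA.AP12

/-!
# Sums of `log |u² - w²|` over arithmetic progressions with arbitrary step
-/

open Finset Pool.Agent.H312R.ZA

namespace Pool.Agent.Y801.Z5S

noncomputable section

/-- the term `log |u² - w²|`, zero if `w = u` -/
def gl (u w : ℕ) : ℝ := if w = u then 0 else Real.log |(u : ℝ) ^ 2 - (w : ℝ) ^ 2|

/-- antiderivative of `w ↦ ff w t` -/
def HH (t y : ℝ) : ℝ := GG (y + t) - GG (y - t)

lemma brick' (u : ℤ) (c : ℕ) (hc : 1 ≤ c) (N : ℕ) (W : ℝ) (hW : |(u : ℝ)| + c * N + c + 1 ≤ W) :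
    |∑ j ∈ range N, Real.log ((u : ℝ) - c * j) - (Psi u - Psi ((u : ℝ) - c * N)) / c| ≤
      4 * Real.log W + 3 := Pool.Agent.H102R2.Z5.brick u c hc N W hW

lemma Psi_neg' (z : ℝ) : Psi (-z) = -Psi z := Pool.Agent.H102R2.Z5.Psi_neg z

lemma Psi_sub_abs {x y W : ℝ} (hW : 1 ≤ W) (hx : |x| ≤ W) (hy : |y| ≤ W) :
    |Psi y - Psi x| ≤ |y - x| * Real.log W + 2 := Pool.Agent.H102R2.Z5.abs_Psi_sub_le hW hx hy

/-- inner sums for an arbitrary step -/
theorem logsum (k N A u : ℕ) (hk : 1 ≤ k) (hu : 1 ≤ u) (W : ℝ) (hW : (u : ℝ) + A + k * N + k + 1 ≤ W) :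
    |∑ j ∈ range N, gl u (A + k * j) - (ff u ((A : ℝ) + k * N) - ff u A) / k| ≤ 9 * Real.log W + 6 := by
  have hu1 : (1:ℝ) ≤ u := by exact_mod_cast hu
  have hA0 : (0:ℝ) ≤ A := Nat.cast_nonneg _
  have hk1 : (1:ℝ) ≤ k := by exact_mod_cast hk
  have hkN : (0:ℝ) ≤ (k : ℝ) * N := by positivity
  have b1 := brick' ((u : ℤ) - A) k hk N W (by
    have : |(((u : ℤ) - A : ℤ) : ℝ)| ≤ u + A := by
      push_cast
      rw [abs_le]; constructor <;> linarith
    linarith)
  have b2 := brick' (-((u : ℤ) + A)) k hk N W (by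
    have : |((-((u : ℤ) + A) : ℤ) : ℝ)| ≤ u + A := by
      push_cast
      rw [abs_le]; constructor <;> linarith
    linarith)
  -- splitting the sum
  have hsplit : ∀ j ∈ Finset.range N, gl u (A + k * j) =
      Real.log ((((u : ℤ) - A : ℤ) : ℝ) - k * j) + Real.log (((-((u : ℤ) + A) : ℤ) : ℝ) - k * j) -
        (if A + k * j = u then Real.log ((u : ℝ) + (A + k * j)) else 0) := by
    intro j _
    unfold gl
    by_cases h : A + k * j = u
    · rw [if_pos h, if_pos h]
      have h' : (A : ℝ) + k * j = u := by exact_mod_cast h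
      have e1 : (((u : ℤ) - A : ℤ) : ℝ) - k * j = 0 := by push_cast; linarith
      have e2 : ((-((u : ℤ) + A) : ℤ) : ℝ) - k * j = -((u : ℝ) + (A + k * j)) := by push_cast; ring
      rw [e1, Real.log_zero, e2, Real.log_neg_eq_log]; ring
    · rw [if_neg h, if_neg h]
      have h' : (u : ℝ) - (A + k * j) ≠ 0 := by
        intro h0
        apply h
        have : (A : ℝ) + k * j = u := by linarith
        exact_mod_cast this
      have h'' : (u : ℝ) + (A + k * j) ≠ 0 := by positivity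
      have e0 : (u : ℝ) ^ 2 - (((A + k * j : ℕ)) : ℝ) ^ 2 = (u - (A + k * j)) * (u + (A + k * j)) := by
        push_cast
        ring
      rw [Real.log_abs, e0, Real.log_mul h' h'']
      have e1 : (((u : ℤ) - A : ℤ) : ℝ) - k * j = (u : ℝ) - (A + k * j) := by push_cast; ring
      have e2 : ((-((u : ℤ) + A) : ℤ) : ℝ) - k * j = -((u : ℝ) + (A + k * j)) := by push_cast; ring
      rw [e1, e2, Real.log_neg_eq_log]; ring
  rw [Finset.sum_congr rfl hsplit, Finset.sum_sub_distrib, Finset.sum_add_distrib]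
  -- the exceptional term
  have hlW : 0 ≤ Real.log W := Real.log_nonneg (by linarith)
  have hexc : |∑ j ∈ Finset.range N, (if A + k * j = u then Real.log ((u : ℝ) + (A + k * j)) else 0)| ≤
      Real.log W := by
    by_cases hex : ∃ j0 ∈ Finset.range N, A + k * j0 = u
    · obtain ⟨j0, hj0, h0⟩ := hex
      rw [Finset.sum_eq_single j0]
      · rw [if_pos h0]
        have h' : (A : ℝ) + k * j0 = u := by exact_mod_cast h0
        have hjN : (j0 : ℝ) ≤ N := by
          rw [Finset.mem_range] at hj0; exact_mod_cast hj0.le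
        have h3 : (k : ℝ) * j0 ≤ k * N := mul_le_mul_of_nonneg_left hjN (by linarith)
        have h4 : 0 ≤ Real.log ((u : ℝ) + (A + k * j0)) := Real.log_nonneg (by linarith)
        rw [abs_of_nonneg h4]
        exact Real.log_le_log (by linarith) (by linarith)
      · intro j _ hne
        rw [if_neg]
        intro h
        apply hne
        have : k * j = k * j0 := by omega
        exact Nat.eq_of_mul_eq_mul_left (by omega) this
      · intro h; exact absurd hj0 h
    · push Not at hex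
      rw [Finset.sum_eq_zero]
      · rw [abs_zero]; exact hlW
      · intro j hj
        rw [if_neg (hex j hj)]
  have e3 : (ff u ((A : ℝ) + k * N) - ff u A) / k =
      (Psi (((u : ℤ) - A : ℤ) : ℝ) - Psi ((((u : ℤ) - A : ℤ) : ℝ) - k * N)) / k +
      (Psi ((-((u : ℤ) + A) : ℤ) : ℝ) - Psi (((-((u : ℤ) + A) : ℤ) : ℝ) - k * N)) / k := by
    have e1 : ((-((u : ℤ) + A) : ℤ) : ℝ) = -((u : ℝ) + A) := by push_cast; ring
    have e2 : ((-((u : ℤ) + A) : ℤ) : ℝ) - k * N = -((u : ℝ) + (A + k * N)) := by push_cast; ring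
    have e4 : (((u : ℤ) - A : ℤ) : ℝ) = (u : ℝ) - A := by push_cast; ring
    have e5 : (((u : ℤ) - A : ℤ) : ℝ) - k * N = (u : ℝ) - (A + k * N) := by push_cast; ring
    rw [e2, e1, e5, e4, Psi_neg', Psi_neg']
    unfold ff
    ring
  rw [e3]
  rw [abs_le] at b1 b2 hexc ⊢
  constructor <;> linarith [b1.1, b1.2, b2.1, b2.2, hexc.1, hexc.2]

/-- moving the end of the interval -/
lemma ff_move {u y y' K W : ℝ} (hW : 1 ≤ W) (hy : |y| + |u| ≤ W) (hy' : |y'| + |u| ≤ W) (h : |y - y'| ≤ K) :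
    |ff u y - ff u y'| ≤ 2 * (K * Real.log W + 2) := by
  have hl := Real.log_nonneg hW
  have h1 := Psi_sub_abs (x := u + y') (y := u + y) hW ((abs_add_le _ _).trans (by linarith))
    ((abs_add_le _ _).trans (by linarith))
  have h2 := Psi_sub_abs (x := u - y') (y := u - y) hW ((abs_sub _ _).trans (by linarith))
    ((abs_sub _ _).trans (by linarith))
  have e1 : |u + y - (u + y')| = |y - y'| := by congr 1; ring
  have e2 : |u - y - (u - y')| = |y - y'| := by rw [abs_sub_comm y y']; congr 1; ring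
  rw [e1] at h1
  rw [e2] at h2
  have h3 : |y - y'| * Real.log W ≤ K * Real.log W := mul_le_mul_of_nonneg_right h hl
  unfold ff
  rw [abs_le] at h1 h2 ⊢
  constructor <;> linarith [h1.1, h1.2, h2.1, h2.2]

lemma GG_move {y y' K W : ℝ} (hW : 1 ≤ W) (hK : 0 ≤ K) (hy : |y| + K ≤ W) (hy' : |y'| + K ≤ W) (h : |y - y'| ≤ K) :
    |GG y - GG y'| ≤ K * (W * Real.log W + 2) + K * (K * Real.log W + 2) := by
  have hl := Real.log_nonneg hW
  have key : ∀ z z' : ℝ, z ≤ z' → |z| + K ≤ W → z' - z ≤ K → |GG z' - GG z| ≤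
      K * (W * Real.log W + 2) + K * (K * Real.log W + 2) := by
    intro z z' hz hzW hzK
    rcases eq_or_lt_of_le hz with h0 | h0
    · rw [h0, sub_self, abs_zero]
      have : 0 ≤ W := by linarith
      positivity
    have h1 := Pool.Agent.H102R2.Z5.G2_step z (z' - z) W (by linarith) (by linarith) hW
    rw [add_sub_cancel, ← GG_eq, ← GG_eq, ← Psi_eq] at h1
    have h2 := Psi_sub_abs (x := 0) (y := z) hW (by rw [abs_zero]; linarith) (by linarith)
    have hP0 : Psi 0 = 0 := Pool.Agent.H102R2.Z5.Psi_zero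
    rw [hP0, sub_zero, sub_zero] at h2
    have h3 : |z| * Real.log W ≤ W * Real.log W := mul_le_mul_of_nonneg_right (by linarith) hl
    have h4 : |(z' - z) * Psi z| ≤ K * (W * Real.log W + 2) := by
      rw [abs_mul, abs_of_nonneg (by linarith : 0 ≤ z' - z)]
      exact mul_le_mul hzK (by linarith) (abs_nonneg _) hK
    have h5 : (z' - z) * ((z' - z) * Real.log W + 2) ≤ K * (K * Real.log W + 2) := by
      apply mul_le_mul hzK _ (by
        have : 0 ≤ (z' - z) * Real.log W := mul_nonneg (by linarith) hl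
        linarith) hK
      have : (z' - z) * Real.log W ≤ K * Real.log W := mul_le_mul_of_nonneg_right hzK hl
      linarith
    rw [abs_le] at h1 h4 ⊢
    constructor <;> linarith [h1.1, h1.2, h4.1, h4.2]
  rcases le_total y y' with h0 | h0
  · rw [abs_sub_comm]
    exact key y y' h0 hy (by rw [abs_sub_comm] at h; exact (le_abs_self _).trans h)
  · exact key y' y h0 hy' ((le_abs_self _).trans h)

/-- outer sums -/
theorem psisum (k N : ℕ) (z : ℝ) (hk : 1 ≤ k) (W : ℝ) (hW : |z| + k * N ≤ W) (hW1 : 1 ≤ W) :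
    |∑ j ∈ range N, Psi (z + k * j) - (GG (z + k * N) - GG z) / k| ≤ N * (k * Real.log W + 2) := by
  have hk0 : (0 : ℝ) < k := by exact_mod_cast hk
  have h := Pool.Agent.H102R2.Z5.outer z k hk0 N W hW hW1
  rw [← GG_eq, ← GG_eq] at h
  exact h

/-- one-sided sums of logarithms -/
theorem logs_le (k N A : ℕ) (hk : 1 ≤ k) (hA : 1 ≤ A) :
    ∑ j ∈ range N, Real.log (((A + k * j : ℕ)) : ℝ) ≤ (Psi ((A : ℝ) + k * N) - Psi A) / k := by
  have hk0 : (0 : ℝ) < k := by exact_mod_cast hk
  have h := (Pool.Agent.H102R2.Z5.sum_log_pos (A : ℝ) (by exact_mod_cast hA) k (by exact_mod_cast hk) N).1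
  rw [le_div_iff₀ hk0, mul_comm]
  refine le_trans (le_of_eq ?_) h
  congr 1
  refine Finset.sum_congr rfl fun j _ => ?_
  push_cast
  rfl

end

end Pool.Agent.Y801.Z5S
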