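import Pool.Agent.Y801.Z5S.GP1

/-!
# Finite sets of nodes with a piecewise constant density: the basic estimates
-/

open Finset Pool.Agent.H312R.ZA

namespace Pool.Agent.Y801.Z5S

noncomputable section

lemma half_le_log {n : ℕ} (hn : 2 ≤ n) : (1 : ℝ) / 2 ≤ Real.log n := by
  have h1 : Real.log 2 ≤ Real.log n := Real.log_le_log (by norm_num) (by exact_mod_cast hn)
  have := Real.log_two_gt_d9
  linarith

lemma logc {c : ℝ} (hc : 1 ≤ c) {n : ℕ} (hn : 2 ≤ n) : Real.log (c * n) ≤ (2 * Real.log c + 1) * Real.log n := by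
  have hn0 : (0:ℝ) < n := by exact_mod_cast (by omega : 0 < n)
  have h1 := half_le_log hn
  have h2 := Real.log_nonneg hc
  rw [Real.log_mul (by linarith) hn0.ne']
  nlinarith

lemma div_bd {x B k : ℝ} (hk : 1 ≤ k) (h : |x| ≤ B) : |x / k| ≤ B := by
  have hk0 : 0 < k := by linarith
  rw [abs_div, abs_of_pos hk0, div_le_iff₀ hk0]
  have : 0 ≤ B := (abs_nonneg x).trans h
  nlinarith

/-- geometric data: everything in terms of `log W` -/
structure Dat (k : ℕ) (K0 W : ℝ) (n A N : ℕ) (α β : ℝ) : Prop where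
  hk : 1 ≤ k
  hK0 : 0 ≤ K0
  hn : 1 ≤ n
  hA : 1 ≤ A
  hAN : (A : ℝ) + k * N ≤ 701 * n
  hα : |(A : ℝ) - α| ≤ K0
  hβ : |(A : ℝ) + k * N - β| ≤ K0
  hW : 3000 * (n : ℝ) + 2 * k + 2 * K0 ≤ W

section
variable {k : ℕ} {K0 W : ℝ} {n A N : ℕ} {α β : ℝ}

lemma Dat.k1 (h : Dat k K0 W n A N α β) : (1 : ℝ) ≤ k := by exact_mod_cast h.hk

lemma Dat.n1 (h : Dat k K0 W n A N α β) : (1 : ℝ) ≤ n := by exact_mod_cast h.hn

lemma Dat.W1 (h : Dat k K0 W n A N α β) : (1 : ℝ) ≤ W := by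
  have := h.hW; have := h.n1; have := h.k1; have := h.hK0; linarith

lemma Dat.A0 (_h : Dat k K0 W n A N α β) : (0 : ℝ) ≤ A := Nat.cast_nonneg _

lemma Dat.kN (_h : Dat k K0 W n A N α β) : (0 : ℝ) ≤ k * N := by positivity

lemma Dat.sα (h : Dat k K0 W n A N α β) : |α| ≤ 701 * n + K0 := by
  have h1 := abs_le.1 h.hα
  have := h.hAN; have := h.A0; have := h.kN; have := h.n1
  rw [abs_le]; constructor <;> linarith [h1.1, h1.2]

lemma Dat.sβ (h : Dat k K0 W n A N α β) : |β| ≤ 701 * n + K0 := by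
  have h1 := abs_le.1 h.hβ
  have := h.hAN; have := h.A0; have := h.kN; have := h.n1
  rw [abs_le]; constructor <;> linarith [h1.1, h1.2]

lemma Dat.sA (h : Dat k K0 W n A N α β) : |(A : ℝ)| ≤ 701 * n := by
  have := h.hAN; have := h.A0; have := h.kN
  rw [abs_of_nonneg h.A0]; linarith

lemma Dat.sB (h : Dat k K0 W n A N α β) : |(A : ℝ) + k * N| ≤ 701 * n := by
  have := h.hAN; have := h.A0; have := h.kN
  rw [abs_of_nonneg (by linarith)]; linarith

lemma Dat.Nn (h : Dat k K0 W n A N α β) : (N : ℝ) ≤ 701 * n := by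
  have := h.hAN; have := h.A0; have h1 := h.k1
  have hN0 : (0 : ℝ) ≤ N := Nat.cast_nonneg _
  nlinarith

lemma Dat.hα' (h : Dat k K0 W n A N α β) : |α - A| ≤ K0 := by rw [abs_sub_comm]; exact h.hα

lemma Dat.hβ' (h : Dat k K0 W n A N α β) : |β - ((A : ℝ) + k * N)| ≤ K0 := by rw [abs_sub_comm]; exact h.hβ

lemma Dat.est1 (h : Dat k K0 W n A N α β) (u : ℕ) (hu1 : 1 ≤ u) (hu2 : u ≤ 700 * n) :
    |∑ j ∈ range N, gl u (A + k * j) - (ff u β - ff u α) / k| ≤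
      9 * Real.log W + 6 + 4 * (K0 * Real.log W + 2) := by
  have hu2' : (u : ℝ) ≤ 700 * n := by exact_mod_cast hu2
  have hu0 : (0 : ℝ) ≤ u := Nat.cast_nonneg _
  have au : |(u : ℝ)| ≤ 700 * n := by rw [abs_of_nonneg hu0]; exact hu2'
  have hk0 := h.k1
  have hn1 := h.n1
  have hW := h.hW
  have hK0 := h.hK0
  have h1 := logsum k N A u h.hk hu1 W (by have := h.hAN; linarith)
  have h2 := ff_move (u := u) (y := β) (y' := (A : ℝ) + k * N) (K := K0) h.W1 (by have := h.sβ; linarith)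
    (by have := h.sB; linarith) h.hβ'
  have h3 := ff_move (u := u) (y := α) (y' := (A : ℝ)) (K := K0) h.W1 (by have := h.sα; linarith)
    (by have := h.sA; linarith) h.hα'
  have e : ∑ j ∈ range N, gl u (A + k * j) - (ff u β - ff u α) / k =
      (∑ j ∈ range N, gl u (A + k * j) - (ff u ((A : ℝ) + k * N) - ff u A) / k) -
      (ff u β - ff u ((A : ℝ) + k * N)) / k + (ff u α - ff u A) / k := by ring
  have h4 := div_bd hk0 h2
  have h5 := div_bd hk0 h3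
  rw [e]
  clear h2 h3 e hW au hu2' hu2
  rw [abs_le] at h1 h4 h5 ⊢
  constructor <;> linarith [h1.1, h1.2, h4.1, h4.2, h5.1, h5.2]

lemma Dat.est2 (h : Dat k K0 W n A N α β) (t : ℝ) (ht0 : 0 ≤ t) (ht1 : t ≤ 700 * n) :
    |∑ j ∈ range N, ff ((A + k * j : ℕ) : ℝ) t - (HH t β - HH t α) / k| ≤
      2 * (N * (k * Real.log W + 2)) + 4 * (K0 * (W * Real.log W + 2) + K0 * (K0 * Real.log W + 2)) := by
  have at' : |t| ≤ 700 * n := by rw [abs_of_nonneg ht0]; exact ht1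
  have hk0 := h.k1
  have hn1 := h.n1
  have hW := h.hW
  have hK0 := h.hK0
  have sA := h.sA
  have sB := h.sB
  have sα := h.sα
  have sβ := h.sβ
  have hAN := h.hAN
  have hA0 := h.A0
  have g1 : |(A : ℝ) + t| ≤ A + t := by rw [abs_of_nonneg (by linarith)]
  have g2 : |(A : ℝ) - t| ≤ A + t := by rw [abs_le]; constructor <;> linarith
  have h1 := psisum k N ((A : ℝ) + t) h.hk W (by linarith) h.W1
  have h2 := psisum k N ((A : ℝ) - t) h.hk W (by linarith) h.W1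
  have m1 := GG_move (y := β + t) (y' := (A : ℝ) + k * N + t) (K := K0) h.W1 hK0
    (by have := abs_add_le β t; linarith)
    (by have := abs_add_le ((A : ℝ) + k * N) t; linarith)
    (by rw [show β + t - ((A : ℝ) + k * N + t) = β - ((A : ℝ) + k * N) by ring]; exact h.hβ')
  have m2 := GG_move (y := β - t) (y' := (A : ℝ) + k * N - t) (K := K0) h.W1 hK0
    (by have := abs_sub β t; linarith)
    (by have := abs_sub ((A : ℝ) + k * N) t; linarith)
    (by rw [show β - t - ((A : ℝ) + k * N - t) = β - ((A : ℝ) + k * N) by ring]; exact h.hβ')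
  have m3 := GG_move (y := α + t) (y' := (A : ℝ) + t) (K := K0) h.W1 hK0
    (by have := abs_add_le α t; linarith)
    (by have := abs_add_le (A : ℝ) t; linarith)
    (by rw [show α + t - ((A : ℝ) + t) = α - A by ring]; exact h.hα')
  have m4 := GG_move (y := α - t) (y' := (A : ℝ) - t) (K := K0) h.W1 hK0
    (by have := abs_sub α t; linarith)
    (by have := abs_sub (A : ℝ) t; linarith)
    (by rw [show α - t - ((A : ℝ) - t) = α - A by ring]; exact h.hα')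
  clear hW sA sB sα sβ g1 g2 at' ht1
  set B : ℝ := K0 * (W * Real.log W + 2) + K0 * (K0 * Real.log W + 2) with hB
  have e : ∑ j ∈ range N, ff ((A + k * j : ℕ) : ℝ) t - (HH t β - HH t α) / k =
      (∑ j ∈ range N, Psi ((A : ℝ) + t + k * j) - (GG ((A : ℝ) + t + k * N) - GG ((A : ℝ) + t)) / k) -
      (∑ j ∈ range N, Psi ((A : ℝ) - t + k * j) - (GG ((A : ℝ) - t + k * N) - GG ((A : ℝ) - t)) / k) -
      ((GG (β + t) - GG ((A : ℝ) + k * N + t)) - (GG (β - t) - GG ((A : ℝ) + k * N - t)) -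
        (GG (α + t) - GG ((A : ℝ) + t)) + (GG (α - t) - GG ((A : ℝ) - t))) / k := by
    have e1 : ∑ j ∈ range N, ff ((A + k * j : ℕ) : ℝ) t =
        ∑ j ∈ range N, Psi ((A : ℝ) + t + k * j) - ∑ j ∈ range N, Psi ((A : ℝ) - t + k * j) := by
      rw [← Finset.sum_sub_distrib]
      refine Finset.sum_congr rfl fun j _ => ?_
      unfold ff
      push_cast
      congr 2 <;> ring
    rw [e1, show (A : ℝ) + t + k * N = (A : ℝ) + k * N + t by ring,
      show (A : ℝ) - t + k * N = (A : ℝ) + k * N - t by ring]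
    unfold HH
    ring
  have h3 : |((GG (β + t) - GG ((A : ℝ) + k * N + t)) - (GG (β - t) - GG ((A : ℝ) + k * N - t)) -
        (GG (α + t) - GG ((A : ℝ) + t)) + (GG (α - t) - GG ((A : ℝ) - t))) / k| ≤ 4 * B := by
    apply div_bd hk0
    rw [abs_le] at m1 m2 m3 m4 ⊢
    constructor <;> linarith [m1.1, m1.2, m2.1, m2.2, m3.1, m3.2, m4.1, m4.2]
  rw [e]
  clear m1 m2 m3 m4 e
  rw [abs_le] at h1 h2 h3 ⊢
  constructor <;> linarith [h1.1, h1.2, h2.1, h2.2, h3.1, h3.2]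

lemma Dat.est3 (h : Dat k K0 W n A N α β) : |(N : ℝ) - (β - α) / k| ≤ 2 * K0 := by
  have hk0 := h.k1
  have hk0' : (0 : ℝ) < k := by linarith
  have e : (N : ℝ) - (β - α) / k = (((A : ℝ) + k * N - β) - ((A : ℝ) - α)) / k := by
    field_simp
    ring
  rw [e]
  exact div_bd hk0 ((abs_sub _ _).trans (by linarith [h.hα, h.hβ]))

lemma Dat.est4 (h : Dat k K0 W n A N α β) : ∑ j ∈ range N, Real.log (((A + k * j : ℕ)) : ℝ) ≤
    (Psi β - Psi α) / k + 2 * (K0 * Real.log W + 2) := by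
  have hk0 := h.k1
  have hn1 := h.n1
  have hW := h.hW
  have hK0 := h.hK0
  have sA := h.sA
  have sB := h.sB
  have sα := h.sα
  have sβ := h.sβ
  have hlW0 : 0 ≤ Real.log W := Real.log_nonneg h.W1
  have h1 := logs_le k N A h.hk h.hA
  have h2 := Psi_sub_abs (x := β) (y := (A : ℝ) + k * N) h.W1 (by linarith) (by linarith)
  have h3 := Psi_sub_abs (x := α) (y := (A : ℝ)) h.W1 (by linarith) (by linarith)
  have g1 : |(A : ℝ) + k * N - β| * Real.log W ≤ K0 * Real.log W := mul_le_mul_of_nonneg_right h.hβ hlW0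
  have g2 : |(A : ℝ) - α| * Real.log W ≤ K0 * Real.log W := mul_le_mul_of_nonneg_right h.hα hlW0
  have e : (Psi ((A : ℝ) + k * N) - Psi A) / k = (Psi β - Psi α) / k +
      ((Psi ((A : ℝ) + k * N) - Psi β) - (Psi A - Psi α)) / k := by ring
  have h4 : |((Psi ((A : ℝ) + k * N) - Psi β) - (Psi A - Psi α)) / k| ≤ 2 * (K0 * Real.log W + 2) := by
    apply div_bd hk0
    refine (abs_sub _ _).trans ?_
    linarith
  have h5 := (abs_le.1 h4).2
  linarith

end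

/-- converting `log W` into `log n` -/
lemma conv1 {L l c' K0 : ℝ} (h1 : L ≤ c' * l) (h2 : 1 / 2 ≤ l) (hK0 : 0 ≤ K0) :
    9 * L + 6 + 4 * (K0 * L + 2) ≤ (9 * c' + 12 + 4 * (K0 * c' + 4)) * l := by
  have := mul_le_mul_of_nonneg_left h1 hK0
  nlinarith

lemma conv4 {L l c' K0 : ℝ} (h1 : L ≤ c' * l) (h2 : 1 / 2 ≤ l) (hK0 : 0 ≤ K0) :
    2 * (K0 * L + 2) ≤ (2 * (K0 * c' + 4)) * l := by
  have := mul_le_mul_of_nonneg_left h1 hK0
  nlinarith

lemma conv2 {L l c c' K0 k N n : ℝ} (h1 : L ≤ c' * l) (h2 : 1 / 2 ≤ l) (hK0 : 0 ≤ K0) (hk : 0 ≤ k)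
    (hc' : 0 ≤ c') (hc : 0 ≤ c) (hL : 0 ≤ L) (hn : 2 ≤ n) (hN : N ≤ 701 * n) :
    2 * (N * (k * L + 2)) + 4 * (K0 * (c * n * L + 2) + K0 * (K0 * L + 2)) ≤
      (2 * (701 * (k * c' + 4)) + 4 * (K0 * (c * c' + 4) + K0 * (K0 * c' + 4))) * (n * l) := by
  have a1 : k * L + 2 ≤ (k * c' + 4) * l := by
    have := mul_le_mul_of_nonneg_left h1 hk
    nlinarith
  have a2 : N * (k * L + 2) ≤ 701 * n * ((k * c' + 4) * l) :=
    mul_le_mul hN a1 (by positivity) (by positivity)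
  have hnl : l ≤ n * l := by nlinarith
  have hone : 1 ≤ n * l := by nlinarith
  have a3 : c * n * L ≤ c * n * (c' * l) := mul_le_mul_of_nonneg_left h1 (by positivity)
  have a4 : c * n * L + 2 ≤ (c * c' + 4) * (n * l) := by
    have : c * n * (c' * l) = c * c' * (n * l) := by ring
    linarith
  have a5 : K0 * L ≤ K0 * c' * (n * l) := by
    have h3 := mul_le_mul_of_nonneg_left h1 hK0
    have h4 : K0 * c' * l ≤ K0 * c' * (n * l) := mul_le_mul_of_nonneg_left hnl (by positivity)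
    linarith
  have a6 : K0 * L + 2 ≤ (K0 * c' + 4) * (n * l) := by linarith
  have a7 := mul_le_mul_of_nonneg_left a4 hK0
  have a8 := mul_le_mul_of_nonneg_left a6 hK0
  have e : (2 * (701 * (k * c' + 4)) + 4 * (K0 * (c * c' + 4) + K0 * (K0 * c' + 4))) * (n * l) =
      2 * (701 * n * ((k * c' + 4) * l)) + 4 * (K0 * ((c * c' + 4) * (n * l)) + K0 * ((K0 * c' + 4) * (n * l))) := by
    ring
  rw [e]
  linarith

/-- estimates for one arithmetic progression -/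
theorem ap_est (k : ℕ) (hk : 1 ≤ k) (K0 : ℝ) (hK0 : 0 ≤ K0) : ∃ C : ℝ, 0 ≤ C ∧ ∀ n : ℕ, 2 ≤ n → ∀ A N : ℕ,
    1 ≤ A → A + k * N ≤ 701 * n → ∀ α β : ℝ, |(A : ℝ) - α| ≤ K0 → |(A : ℝ) + k * N - β| ≤ K0 →
    (∀ u : ℕ, 1 ≤ u → u ≤ 700 * n →
      |∑ j ∈ range N, gl u (A + k * j) - (ff u β - ff u α) / k| ≤ C * Real.log n) ∧
    (∀ t : ℝ, 0 ≤ t → t ≤ 700 * n →
      |∑ j ∈ range N, ff ((A + k * j : ℕ) : ℝ) t - (HH t β - HH t α) / k| ≤ C * (n * Real.log n)) ∧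
    |(N : ℝ) - (β - α) / k| ≤ C * Real.log n ∧
    ∑ j ∈ range N, Real.log (((A + k * j : ℕ)) : ℝ) ≤ (Psi β - Psi α) / k + C * Real.log n := by
  have hk1 : (1 : ℝ) ≤ k := by exact_mod_cast hk
  have hk0 : (0 : ℝ) < k := by linarith
  set c : ℝ := 3000 + k + K0 with hc
  have hc1 : 1 ≤ c := by rw [hc]; linarith
  set c' : ℝ := 2 * Real.log c + 1 with hc'
  have hc'0 : 0 ≤ c' := by
    have := Real.log_nonneg hc1
    rw [hc']; linarith
  obtain ⟨C1, hC1⟩ : ∃ C1 : ℝ, C1 = 9 * c' + 12 + 4 * (K0 * c' + 4) := ⟨_, rfl⟩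
  obtain ⟨C2, hC2⟩ : ∃ C2 : ℝ, C2 = 2 * (701 * (k * c' + 4)) + 4 * (K0 * (c * c' + 4) + K0 * (K0 * c' + 4)) :=
    ⟨_, rfl⟩
  obtain ⟨C3, hC3⟩ : ∃ C3 : ℝ, C3 = 4 * K0 := ⟨_, rfl⟩
  obtain ⟨C4, hC4⟩ : ∃ C4 : ℝ, C4 = 2 * (K0 * c' + 4) := ⟨_, rfl⟩
  have p1 : 0 ≤ C1 := by rw [hC1]; positivity
  have p2 : 0 ≤ C2 := by rw [hC2]; positivity
  have p3 : 0 ≤ C3 := by rw [hC3]; positivity
  have p4 : 0 ≤ C4 := by rw [hC4]; positivity
  refine ⟨C1 + C2 + C3 + C4, by positivity, ?_⟩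
  intro n hn A N hA hAN α β hα hβ
  have hn0 : (0:ℝ) < n := by exact_mod_cast (by omega : 0 < n)
  have hn2 : (2:ℝ) ≤ n := by exact_mod_cast hn
  have hl := half_le_log hn
  have hl0 : 0 ≤ Real.log n := by linarith
  have hW : 3000 * (n : ℝ) + 2 * k + 2 * K0 ≤ c * n := by
    have h1 : 2 * (k : ℝ) ≤ k * n := by nlinarith
    have h2 : 2 * K0 ≤ K0 * n := by nlinarith
    rw [hc]
    linarith
  have hlW : Real.log (c * n) ≤ c' * Real.log n := logc hc1 hn
  have hD : Dat k K0 (c * n) n A N α β := ⟨hk, hK0, by omega, hA, by exact_mod_cast hAN, hα, hβ, hW⟩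
  have hlW0 : 0 ≤ Real.log (c * n) := Real.log_nonneg hD.W1
  refine ⟨fun u hu1 hu2 => ?_, fun t ht0 ht1 => ?_, ?_, ?_⟩
  · refine (hD.est1 u hu1 hu2).trans ((conv1 hlW hl hK0).trans ?_)
    rw [← hC1]
    exact mul_le_mul_of_nonneg_right (by linarith) hl0
  · refine (hD.est2 t ht0 ht1).trans ((conv2 hlW hl hK0 hk0.le hc'0 (by linarith) hlW0 hn2 hD.Nn).trans ?_)
    rw [← hC2]
    exact mul_le_mul_of_nonneg_right (by linarith) (by positivity)
  · refine hD.est3.trans ?_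
    have h2 : 2 * K0 ≤ C3 * Real.log n := by rw [hC3]; nlinarith
    have h3 : C3 * Real.log n ≤ (C1 + C2 + C3 + C4) * Real.log n :=
      mul_le_mul_of_nonneg_right (by linarith) hl0
    linarith
  · have h1 := hD.est4
    have h2 := conv4 hlW hl hK0
    rw [← hC4] at h2
    have h3 : C4 * Real.log n ≤ (C1 + C2 + C3 + C4) * Real.log n :=
      mul_le_mul_of_nonneg_right (by linarith) hl0
    linarith

end

end Pool.Agent.Y801.Z5S
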