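import Pool.Agent.Y801.Z5S.GP2

/-!
# Finite sets of nodes with a piecewise constant density: unions, modifications, cells
-/

open Finset Pool.Agent.H312R.ZA

namespace Pool.Agent.Y801.Z5S

noncomputable section

/-- the four estimates for a finite set of nodes; `J F` is the integral of `F'` over the density -/
structure Est (C : ℝ) (n : ℕ) (X : Finset ℕ) (J : (ℝ → ℝ) → ℝ) : Prop where
  e1 : ∀ u : ℕ, 1 ≤ u → u ≤ 700 * n → |∑ w ∈ X, gl u w - J (ff u)| ≤ C * Real.log n
  e2 : ∀ t : ℝ, 0 ≤ t → t ≤ 700 * n → |∑ w ∈ X, ff w t - J (HH t)| ≤ C * (n * Real.log n)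
  e3 : |(X.card : ℝ) - J id| ≤ C
  e4 : ∑ w ∈ X, Real.log (w : ℝ) ≤ J Psi + C * Real.log n

lemma Est.mono {C C' : ℝ} {n : ℕ} {X : Finset ℕ} {J : (ℝ → ℝ) → ℝ} (h : Est C n X J) (hC : C ≤ C') (hn : 2 ≤ n) :
    Est C' n X J := by
  have hl : 0 ≤ Real.log n := by have := half_le_log hn; linarith
  have h1 : C * Real.log n ≤ C' * Real.log n := mul_le_mul_of_nonneg_right hC hl
  have h2 : C * (n * Real.log n) ≤ C' * (n * Real.log n) := mul_le_mul_of_nonneg_right hC (by positivity)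
  exact ⟨fun u a b => (h.e1 u a b).trans h1, fun t a b => (h.e2 t a b).trans h2, h.e3.trans hC,
    h.e4.trans (by linarith)⟩

lemma Est.empty {n : ℕ} : Est 0 n ∅ (fun _ => 0) := by
  constructor <;> simp

lemma Est.union {C C' : ℝ} {n : ℕ} {X Y : Finset ℕ} {J J' : (ℝ → ℝ) → ℝ} (h : Est C n X J) (h' : Est C' n Y J')
    (hd : Disjoint X Y) : Est (C + C') n (X ∪ Y) (fun F => J F + J' F) := by
  refine ⟨fun u a b => ?_, fun t a b => ?_, ?_, ?_⟩
  · rw [Finset.sum_union hd]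
    have h1 := abs_le.1 (h.e1 u a b)
    have h2 := abs_le.1 (h'.e1 u a b)
    rw [abs_le]
    constructor <;> linarith [h1.1, h1.2, h2.1, h2.2]
  · rw [Finset.sum_union hd]
    have h1 := abs_le.1 (h.e2 t a b)
    have h2 := abs_le.1 (h'.e2 t a b)
    rw [abs_le]
    constructor <;> linarith [h1.1, h1.2, h2.1, h2.2]
  · rw [Finset.card_union_of_disjoint hd]
    have h1 := abs_le.1 h.e3
    have h2 := abs_le.1 h'.e3
    push_cast
    rw [abs_le]
    constructor <;> linarith [h1.1, h1.2, h2.1, h2.2]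
  · rw [Finset.sum_union hd]
    have h1 := h.e4
    have h2 := h'.e4
    linarith

/-! ### bounds for single terms -/

lemma log_1402 {n : ℕ} (hn : 2 ≤ n) {x : ℝ} (hx0 : 0 < x) (hx : x ≤ 1402 * n) : Real.log x ≤ 17 * Real.log n := by
  have hn0 : (0:ℝ) < n := by exact_mod_cast (by omega : 0 < n)
  have h1 : Real.log x ≤ Real.log (1402 * n) := Real.log_le_log hx0 hx
  rw [Real.log_mul (by norm_num) hn0.ne'] at h1
  have h2 : Real.log 1402 ≤ 8 := by
    have h3 : Real.log 1402 ≤ Real.log (2 ^ 11) := Real.log_le_log (by norm_num) (by norm_num)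
    rw [Real.log_pow] at h3
    have := Real.log_two_lt_d9
    push_cast at h3
    linarith
  have := half_le_log hn
  linarith

lemma gl_bd {n : ℕ} (hn : 2 ≤ n) {u w : ℕ} (hu : u ≤ 700 * n) (hw : w ≤ 701 * n) : |gl u w| ≤ 34 * Real.log n := by
  have hl := half_le_log hn
  unfold gl
  split_ifs with h
  · rw [abs_zero]; linarith
  have hu' : (u : ℝ) ≤ 700 * n := by exact_mod_cast hu
  have hw' : (w : ℝ) ≤ 701 * n := by exact_mod_cast hw
  have hu0 : (0 : ℝ) ≤ u := Nat.cast_nonneg u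
  have hw0 : (0 : ℝ) ≤ w := Nat.cast_nonneg w
  have hne : ((u : ℤ) - w) ≠ 0 := by omega
  have h1 : (1 : ℝ) ≤ |(u : ℝ) - w| := by
    have := Int.one_le_abs hne
    exact_mod_cast this
  have h2 : (1 : ℝ) ≤ (u : ℝ) + w := by
    have : 1 ≤ u + w := by omega
    exact_mod_cast this
  have h3 : |(u : ℝ) - w| ≤ 1402 * n := by rw [abs_le]; constructor <;> linarith
  have e : |(u : ℝ) ^ 2 - (w : ℝ) ^ 2| = |(u : ℝ) - w| * ((u : ℝ) + w) := by
    rw [show (u : ℝ) ^ 2 - (w : ℝ) ^ 2 = ((u : ℝ) - w) * ((u : ℝ) + w) by ring, abs_mul,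
      abs_of_pos (by linarith : (0 : ℝ) < (u : ℝ) + w)]
  rw [e, Real.log_mul (by linarith) (by linarith)]
  have a1 := log_1402 hn (by linarith) h3
  have a2 := log_1402 hn (x := (u : ℝ) + w) (by linarith) (by linarith)
  have a3 := Real.log_nonneg h1
  have a4 := Real.log_nonneg h2
  rw [abs_of_nonneg (by linarith)]
  linarith

lemma ff_bd {n : ℕ} (hn : 2 ≤ n) {w t : ℝ} (hw : 0 ≤ w) (hw2 : w ≤ 701 * n) (ht : 0 ≤ t) (ht2 : t ≤ 700 * n) :
    |ff w t| ≤ 23804 * (n * Real.log n) := by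
  have hl := half_le_log hn
  have hn2 : (2 : ℝ) ≤ n := by exact_mod_cast hn
  have h1 := Psi_sub_abs (x := w - t) (y := w + t) (W := 1402 * n) (by linarith)
    (by rw [abs_le]; constructor <;> linarith) (by rw [abs_le]; constructor <;> linarith)
  have h2 := log_1402 hn (x := 1402 * n) (by linarith) le_rfl
  have h3 : |w + t - (w - t)| ≤ 1400 * n := by
    rw [show w + t - (w - t) = 2 * t by ring, abs_of_nonneg (by linarith)]
    linarith
  have h4 : |w + t - (w - t)| * Real.log (1402 * n) ≤ (1400 * n) * (17 * Real.log n) :=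
    mul_le_mul h3 h2 (Real.log_nonneg (by linarith)) (by linarith)
  have h5 : 1 ≤ n * Real.log n := by nlinarith
  unfold ff
  have h6 : (1400 * (n : ℝ)) * (17 * Real.log n) = 23800 * (n * Real.log n) := by ring
  linarith

lemma sum_sdiff_bd {X Y : Finset ℕ} {f : ℕ → ℝ} {m : ℕ} {B : ℝ} (hB : 0 ≤ B) (h1 : (X \ Y).card ≤ m)
    (h2 : (Y \ X).card ≤ m) (hX : ∀ w ∈ X, |f w| ≤ B) (hY : ∀ w ∈ Y, |f w| ≤ B) :
    |∑ w ∈ Y, f w - ∑ w ∈ X, f w| ≤ 2 * m * B := by
  have e1 : ∑ w ∈ Y, f w = ∑ w ∈ Y \ X, f w + ∑ w ∈ Y ∩ X, f w := by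
    rw [← Finset.sum_union (Finset.disjoint_sdiff_inter Y X), Finset.sdiff_union_inter]
  have e2 : ∑ w ∈ X, f w = ∑ w ∈ X \ Y, f w + ∑ w ∈ X ∩ Y, f w := by
    rw [← Finset.sum_union (Finset.disjoint_sdiff_inter X Y), Finset.sdiff_union_inter]
  have e3 : Y ∩ X = X ∩ Y := Finset.inter_comm _ _
  have key : ∀ Z W : Finset ℕ, (Z \ W).card ≤ m → (∀ w ∈ Z, |f w| ≤ B) → |∑ w ∈ Z \ W, f w| ≤ m * B := by
    intro Z W hc hb
    refine (Finset.abs_sum_le_sum_abs _ _).trans ?_
    refine (Finset.sum_le_card_nsmul _ _ B fun w hw => hb w (Finset.mem_sdiff.1 hw).1).trans ?_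
    rw [nsmul_eq_mul]
    exact mul_le_mul_of_nonneg_right (by exact_mod_cast hc) hB
  have k1 := abs_le.1 (key X Y h1 hX)
  have k2 := abs_le.1 (key Y X h2 hY)
  rw [e1, e2, e3, abs_le]
  constructor <;> linarith [k1.1, k1.2, k2.1, k2.2]

lemma Est.modify {C : ℝ} {n : ℕ} {X Y : Finset ℕ} {J : (ℝ → ℝ) → ℝ} (h : Est C n X J) (hn : 2 ≤ n) (m : ℕ)
    (h1 : (X \ Y).card ≤ m) (h2 : (Y \ X).card ≤ m) (hX : ∀ w ∈ X, 1 ≤ w ∧ w ≤ 701 * n)
    (hY : ∀ w ∈ Y, 1 ≤ w ∧ w ≤ 701 * n) : Est (C + 47608 * m) n Y J := by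
  have hl := half_le_log hn
  have hl0 : 0 ≤ Real.log n := by linarith
  have hn2 : (2 : ℝ) ≤ n := by exact_mod_cast hn
  have hm0 : (0 : ℝ) ≤ m := Nat.cast_nonneg _
  have hml : 0 ≤ (m : ℝ) * Real.log n := by positivity
  have hcast : ∀ w : ℕ, w ≤ 701 * n → (w : ℝ) ≤ 701 * n := fun w hw => by exact_mod_cast hw
  refine ⟨fun u a b => ?_, fun t a b => ?_, ?_, ?_⟩
  · have k1 := abs_le.1 (h.e1 u a b)
    have k2 := abs_le.1 (sum_sdiff_bd (f := gl u) (B := 34 * Real.log n) (by linarith) h1 h2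
      (fun w hw => gl_bd hn b (hX w hw).2) (fun w hw => gl_bd hn b (hY w hw).2))
    have k3 : 2 * (m : ℝ) * (34 * Real.log n) ≤ 47608 * m * Real.log n := by nlinarith
    rw [abs_le]
    constructor <;> linarith [k1.1, k1.2, k2.1, k2.2]
  · have k1 := abs_le.1 (h.e2 t a b)
    have k2 := abs_le.1 (sum_sdiff_bd (f := fun w => ff w t) (B := 23804 * (n * Real.log n)) (by positivity) h1 h2
      (fun w hw => ff_bd hn (Nat.cast_nonneg _) (hcast w (hX w hw).2) a b)
      (fun w hw => ff_bd hn (Nat.cast_nonneg _) (hcast w (hY w hw).2) a b))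
    have k3 : 2 * (m : ℝ) * (23804 * (n * Real.log n)) = 47608 * m * (n * Real.log n) := by ring
    rw [abs_le]
    constructor <;> linarith [k1.1, k1.2, k2.1, k2.2]
  · have k1 := abs_le.1 h.e3
    have k2 := abs_le.1 (sum_sdiff_bd (f := fun _ => (1 : ℝ)) (B := 1) zero_le_one h1 h2
      (fun w _ => by norm_num) (fun w _ => by norm_num))
    rw [Finset.sum_const, Finset.sum_const, nsmul_eq_mul, nsmul_eq_mul, mul_one, mul_one] at k2
    have k3 : 2 * (m : ℝ) * 1 ≤ 47608 * m := by linarith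
    rw [abs_le]
    constructor <;> linarith [k1.1, k1.2, k2.1, k2.2]
  · have k1 := h.e4
    have hb : ∀ w : ℕ, 1 ≤ w → w ≤ 701 * n → |Real.log (w : ℝ)| ≤ 17 * Real.log n := by
      intro w h1 h2
      have h1' : (1 : ℝ) ≤ w := by exact_mod_cast h1
      have h2' := hcast w h2
      rw [abs_of_nonneg (Real.log_nonneg h1')]
      exact log_1402 hn (by linarith) (by linarith)
    have k2 := abs_le.1 (sum_sdiff_bd (f := fun w : ℕ => Real.log (w : ℝ)) (B := 17 * Real.log n) (by linarith) h1 h2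
      (fun w hw => hb w (hX w hw).1 (hX w hw).2) (fun w hw => hb w (hY w hw).1 (hY w hw).2))
    have k3 : 2 * (m : ℝ) * (17 * Real.log n) ≤ 47608 * m * Real.log n := by nlinarith
    linarith [k2.2]

/-! ### cells -/

/-- the points `A + k j + r` with `j < N`, `r < g` -/
def cellSet (A k g N : ℕ) : Finset ℕ := ((range N) ×ˢ (range g)).image fun x => A + k * x.1 + x.2

lemma cell_inj {A k g N : ℕ} (hg : g ≤ k) :
    Set.InjOn (fun x : ℕ × ℕ => A + k * x.1 + x.2) ((range N) ×ˢ (range g) : Finset (ℕ × ℕ)) := by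
  rintro ⟨j, r⟩ h1 ⟨j', r'⟩ h2 h
  simp only [Finset.coe_product, Set.mem_prod, Finset.mem_coe, Finset.mem_range] at h1 h2
  have h3 : k * j + r = k * j' + r' := by
    have h' : A + k * j + r = A + k * j' + r' := h
    omega
  have hr : r < k := by omega
  have hr' : r' < k := by omega
  have h4 : (k * j + r) / k = j := by
    rw [Nat.mul_add_div (by omega), Nat.div_eq_of_lt hr, add_zero]
  have h5 : (k * j' + r') / k = j' := by
    rw [Nat.mul_add_div (by omega), Nat.div_eq_of_lt hr', add_zero]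
  have h6 : j = j' := by rw [← h4, ← h5, h3]
  subst h6
  have h7 : r = r' := by omega
  rw [h7]

lemma cell_sum {A k g N : ℕ} (hg : g ≤ k) (f : ℕ → ℝ) :
    ∑ w ∈ cellSet A k g N, f w = ∑ r ∈ range g, ∑ j ∈ range N, f ((A + r) + k * j) := by
  unfold cellSet
  rw [Finset.sum_image (cell_inj hg), Finset.sum_product, Finset.sum_comm]
  refine Finset.sum_congr rfl fun r _ => Finset.sum_congr rfl fun j _ => ?_
  congr 1
  ring

lemma cell_card {A k g N : ℕ} (hg : g ≤ k) : (cellSet A k g N).card = N * g := by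
  unfold cellSet
  rw [Finset.card_image_of_injOn (cell_inj hg), Finset.card_product, Finset.card_range, Finset.card_range]

lemma cell_mem {A k g N w : ℕ} (hg : g ≤ k) (h : w ∈ cellSet A k g N) : A ≤ w ∧ w < A + k * N := by
  unfold cellSet at h
  rw [Finset.mem_image] at h
  obtain ⟨⟨j, r⟩, h1, h2⟩ := h
  rw [Finset.mem_product, Finset.mem_range, Finset.mem_range] at h1
  obtain ⟨h3, h4⟩ := h1
  have h5 : k * (j + 1) ≤ k * N := Nat.mul_le_mul_left k h3
  have h6 : k * (j + 1) = k * j + k := by ring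
  simp only at h2 h4
  constructor <;> omega

/-- estimates for a cell -/
theorem cell_est (k g : ℕ) (hk : 1 ≤ k) (hg : g ≤ k) (K0 : ℝ) (hK0 : 0 ≤ K0) : ∃ C : ℝ, 0 ≤ C ∧
    ∀ n : ℕ, 2 ≤ n → ∀ A N : ℕ, 1 ≤ A → A + k + k * N ≤ 701 * n → ∀ α β : ℝ, |(A : ℝ) - α| ≤ K0 →
    |(A : ℝ) + k * N - β| ≤ K0 → Est C n (cellSet A k g N) (fun F => g * (F β - F α) / k) := by
  obtain ⟨C, hC0, hC⟩ := ap_est k hk (K0 + k) (by positivity)
  have hg0 : (0 : ℝ) ≤ g := Nat.cast_nonneg _
  refine ⟨g * C + 2 * g * (K0 + k), by positivity, fun n hn A N hA hAN α β hα hβ => ?_⟩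
  have hl : 0 ≤ Real.log n := by have := half_le_log hn; linarith
  have hk0 : (0 : ℝ) < k := by exact_mod_cast hk
  have hk1 : (1 : ℝ) ≤ k := by exact_mod_cast hk
  have key : ∀ r ∈ range g, _ := fun r hr => by
    have hr' : r < k := lt_of_lt_of_le (Finset.mem_range.1 hr) hg
    have hrk : (r : ℝ) ≤ k := by exact_mod_cast hr'.le
    have hr0 : (0 : ℝ) ≤ r := Nat.cast_nonneg _
    exact hC n hn (A + r) N (by omega) (by omega) α β (by
      push_cast
      have := abs_le.1 hα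
      rw [abs_le]; constructor <;> linarith [this.1, this.2]) (by
      push_cast
      have := abs_le.1 hβ
      rw [abs_le]; constructor <;> linarith [this.1, this.2])
  have hsum : ∀ (S : ℕ → ℝ) (Q B : ℝ), (∀ r ∈ range g, |S r - Q| ≤ B) → |∑ r ∈ range g, S r - g * Q| ≤ g * B := by
    intro S Q B h
    have e : ∑ r ∈ range g, S r - g * Q = ∑ r ∈ range g, (S r - Q) := by
      rw [Finset.sum_sub_distrib, Finset.sum_const, Finset.card_range, nsmul_eq_mul]
    rw [e]
    refine (Finset.abs_sum_le_sum_abs _ _).trans ((Finset.sum_le_card_nsmul _ _ B h).trans ?_)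
    rw [Finset.card_range, nsmul_eq_mul]
  have hextra : 0 ≤ 2 * g * (K0 + k) := by positivity
  refine ⟨fun u a b => ?_, fun t a b => ?_, ?_, ?_⟩
  · rw [cell_sum hg]
    have h1 := hsum (fun r => ∑ j ∈ range N, gl u ((A + r) + k * j)) ((ff u β - ff u α) / k) (C * Real.log n)
      (fun r hr => (key r hr).1 u a b)
    rw [mul_div_assoc]
    have : 0 ≤ 2 * g * (K0 + k) * Real.log n := by positivity
    refine h1.trans ?_
    linarith
  · rw [cell_sum hg]
    have h1 := hsum (fun r => ∑ j ∈ range N, ff (((A + r) + k * j : ℕ) : ℝ) t) ((HH t β - HH t α) / k)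
      (C * (n * Real.log n)) (fun r hr => (key r hr).2.1 t a b)
    rw [mul_div_assoc]
    have : 0 ≤ 2 * g * (K0 + k) * (n * Real.log n) := by positivity
    refine h1.trans ?_
    linarith
  · rw [cell_card hg]
    push_cast
    simp only [id]
    have e : (N : ℝ) * g - g * (β - α) / k = g * ((((A : ℝ) + k * N - β) - ((A : ℝ) - α)) / k) := by
      field_simp
      ring
    rw [e, abs_mul, abs_of_nonneg hg0]
    have h1 : |(((A : ℝ) + k * N - β) - ((A : ℝ) - α)) / k| ≤ 2 * K0 :=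
      div_bd hk1 ((abs_sub _ _).trans (by linarith))
    have h2 : (g : ℝ) * |(((A : ℝ) + k * N - β) - ((A : ℝ) - α)) / k| ≤ g * (2 * K0) :=
      mul_le_mul_of_nonneg_left h1 hg0
    have h3 : 0 ≤ g * C := by positivity
    have h4 : 0 ≤ 2 * (g : ℝ) * k := by positivity
    nlinarith
  · rw [cell_sum hg]
    have h1 : ∑ r ∈ range g, ∑ j ∈ range N, Real.log (((A + r) + k * j : ℕ) : ℝ) ≤
        ∑ r ∈ range g, ((Psi β - Psi α) / k + C * Real.log n) :=
      Finset.sum_le_sum fun r hr => (key r hr).2.2.2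
    rw [Finset.sum_const, Finset.card_range, nsmul_eq_mul] at h1
    rw [mul_div_assoc]
    have : 0 ≤ 2 * g * (K0 + k) * Real.log n := by positivity
    refine h1.trans ?_
    linarith

end

end Pool.Agent.Y801.Z5S
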