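import Pool.Agent.Y801.Z5S.GP3

/-!
# The nodes: saturated part, cells, exact number of nodes
-/

open Finset Pool.Agent.H312R.ZA Pool.Agent.H336R2.Z5

namespace Pool.Agent.Y801.Z5S

noncomputable section

/-- the integral of `F'` against the density of the cells `(p, q, γ)`: density `γ/D` on `[p, q]` -/
def J1 (D : ℕ) (l : List (ℕ × ℕ × ℕ)) (F : ℝ → ℝ) : ℝ :=
  (l.map fun c => (c.2.2 : ℝ) * (F c.2.1 - F c.1) / D).sum

lemma J1_nil (D : ℕ) (F : ℝ → ℝ) : J1 D [] F = 0 := rfl

lemma J1_cons (D : ℕ) (c : ℕ × ℕ × ℕ) (l : List (ℕ × ℕ × ℕ)) (F : ℝ → ℝ) :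
    J1 D (c :: l) F = (c.2.2 : ℝ) * (F c.2.1 - F c.1) / D + J1 D l F := by
  unfold J1
  rw [List.map_cons, List.sum_cons]

lemma J1_append (D : ℕ) (l l' : List (ℕ × ℕ × ℕ)) (F : ℝ → ℝ) : J1 D (l ++ l') F = J1 D l F + J1 D l' F := by
  unfold J1
  rw [List.map_append, List.sum_append]

/-- the chain condition -/
def okc (D : ℕ) : ℕ → List (ℕ × ℕ × ℕ) → Bool
  | _, [] => true
  | s, c :: l => decide (s ≤ c.1) && decide (c.1 ≤ c.2.1) && decide (c.2.2 ≤ D) && decide (c.2.1 ≤ 700) &&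
      okc D c.2.1 l

/-- the nodes of the cells -/
def NS (D n : ℕ) : List (ℕ × ℕ × ℕ) → Finset ℕ
  | [] => ∅
  | c :: l => cellSet (c.1 * n) D c.2.2 (((c.2.1 - c.1) * n) / D) ∪ NS D n l

theorem NS_est (D : ℕ) (hD : 1 ≤ D) (l : List (ℕ × ℕ × ℕ)) : ∀ s : ℕ, 1 ≤ s → okc D s l = true →
    ∃ C : ℝ, 0 ≤ C ∧ ∀ n : ℕ, 2 ≤ n → D ≤ n →
      Est C n (NS D n l) (fun F => J1 D l (fun y => F (n * y))) ∧ ∀ w ∈ NS D n l, s * n ≤ w ∧ w < 700 * n := by
  induction l with
  | nil =>
    intro s _ _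
    refine ⟨0, le_rfl, fun n _ _ => ⟨Est.empty, fun w hw => ?_⟩⟩
    simp [NS] at hw
  | cons c l ih =>
    intro s hs h
    simp only [okc, Bool.and_eq_true, decide_eq_true_eq] at h
    obtain ⟨⟨⟨⟨h1, h2⟩, h3⟩, h4⟩, h5⟩ := h
    obtain ⟨p, q, g⟩ := c
    simp only at h1 h2 h3 h4 h5
    obtain ⟨C1, hC1, hE1⟩ := ih q (by omega) h5
    obtain ⟨C2, hC2, hE2⟩ := cell_est D g hD h3 D (Nat.cast_nonneg _)
    refine ⟨C2 + C1, by positivity, fun n hn hDn => ?_⟩
    obtain ⟨e1, e2⟩ := hE1 n hn hDn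
    have hn0 : 0 < n := by omega
    have hdiv : D * (((q - p) * n) / D) ≤ (q - p) * n := Nat.mul_div_le _ _
    have hdiv2 : (q - p) * n < D * (((q - p) * n) / D) + D := by
      have h6 := Nat.div_add_mod ((q - p) * n) D
      have h7 := Nat.mod_lt ((q - p) * n) (show 0 < D by omega)
      omega
    have hpq : p * n + (q - p) * n = q * n := by
      rw [← add_mul]
      congr 1
      omega
    have hqn : q * n ≤ 700 * n := Nat.mul_le_mul_right n h4
    have hpn : 1 ≤ p * n := Nat.mul_pos (by omega) hn0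
    have hsn : s * n ≤ p * n := Nat.mul_le_mul_right n h1
    have hpqn : p * n ≤ q * n := Nat.mul_le_mul_right n h2
    have f := hE2 n hn (p * n) (((q - p) * n) / D) hpn (by omega) (n * p) (n * q) (by
      push_cast
      rw [mul_comm (p : ℝ), sub_self, abs_zero]
      exact Nat.cast_nonneg _) (by
      have a1 : ((p * n : ℕ) : ℝ) + D * ((((q - p) * n) / D : ℕ) : ℝ) ≤ n * q := by
        have : p * n + D * (((q - p) * n) / D) ≤ q * n := by omega
        have h8 : ((p * n + D * (((q - p) * n) / D) : ℕ) : ℝ) ≤ ((q * n : ℕ) : ℝ) := by exact_mod_cast this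
        push_cast at h8 ⊢
        linarith
      have a2 : (n : ℝ) * q ≤ ((p * n : ℕ) : ℝ) + D * ((((q - p) * n) / D : ℕ) : ℝ) + D := by
        have : q * n ≤ p * n + D * (((q - p) * n) / D) + D := by omega
        have h8 : ((q * n : ℕ) : ℝ) ≤ ((p * n + D * (((q - p) * n) / D) + D : ℕ) : ℝ) := by exact_mod_cast this
        push_cast at h8 ⊢
        linarith
      rw [abs_le]
      constructor <;> linarith)
    have hmem : ∀ w ∈ cellSet (p * n) D g (((q - p) * n) / D), p * n ≤ w ∧ w < q * n := by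
      intro w hw
      have := cell_mem h3 hw
      omega
    have hdisj : Disjoint (cellSet (p * n) D g (((q - p) * n) / D)) (NS D n l) := by
      rw [Finset.disjoint_left]
      intro w hw hw2
      have a := hmem w hw
      have b := e2 w hw2
      omega
    refine ⟨?_, ?_⟩
    · have hu := f.union e1 hdisj
      have e : (fun F : ℝ → ℝ => (g : ℝ) * (F (n * q) - F (n * p)) / D + J1 D l (fun y => F (n * y))) =
          fun F : ℝ → ℝ => J1 D ((p, q, g) :: l) (fun y => F (n * y)) := by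
        funext F
        rw [J1_cons]
      rw [← e]
      exact hu
    · intro w hw
      simp only [NS, Finset.mem_union] at hw
      rcases hw with hw | hw
      · have := hmem w hw
        omega
      · have := e2 w hw
        omega

/-- the saturated nodes: all odd `w` in `(16 n, 24 n)` and all `w` in `[24 n, 30 n)` -/
def SS (n : ℕ) : Finset ℕ := cellSet (16 * n + 1) 2 1 (4 * n) ∪ cellSet (24 * n) 1 1 (6 * n)

/-- the saturated cells -/
def lS (D : ℕ) : List (ℕ × ℕ × ℕ) := [(16, 24, D / 2), (24, 30, D)]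

lemma SS_disj (n : ℕ) : Disjoint (cellSet (16 * n + 1) 2 1 (4 * n)) (cellSet (24 * n) 1 1 (6 * n)) := by
  rw [Finset.disjoint_left]
  intro w hw hw2
  have a := cell_mem (by norm_num) hw2
  unfold cellSet at hw
  rw [Finset.mem_image] at hw
  obtain ⟨⟨j, r⟩, h1, h2⟩ := hw
  rw [Finset.mem_product, Finset.mem_range, Finset.mem_range] at h1
  simp only at h1 h2
  omega

lemma SS_card (n : ℕ) : (SS n).card = 10 * n := by
  unfold SS
  rw [Finset.card_union_of_disjoint (SS_disj n), cell_card (by norm_num), cell_card (by norm_num)]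
  ring

lemma SS_mem {n w : ℕ} (h : w ∈ SS n) : 16 * n < w ∧ w < 30 * n ∧ (w < 24 * n → Odd w) := by
  unfold SS at h
  rw [Finset.mem_union] at h
  rcases h with h | h
  · unfold cellSet at h
    rw [Finset.mem_image] at h
    obtain ⟨⟨j, r⟩, h1, h2⟩ := h
    rw [Finset.mem_product, Finset.mem_range, Finset.mem_range] at h1
    simp only at h1 h2
    refine ⟨by omega, by omega, fun _ => ⟨8 * n + j, by omega⟩⟩
  · have a := cell_mem (by norm_num) h
    refine ⟨?_, by omega, fun h => absurd h (by omega)⟩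
    rcases Nat.eq_zero_or_pos n with h0 | h0
    · subst h0; omega
    · omega

lemma SS_of_odd {n w : ℕ} (h1 : 16 * n < w) (h2 : w < 24 * n) (h3 : Odd w) : w ∈ SS n := by
  obtain ⟨i, hi⟩ := h3
  unfold SS
  rw [Finset.mem_union]
  left
  unfold cellSet
  rw [Finset.mem_image]
  refine ⟨(i - 8 * n, 0), ?_, ?_⟩
  · rw [Finset.mem_product, Finset.mem_range, Finset.mem_range]
    simp only
    omega
  · simp only
    omega

lemma SS_of_mid {n w : ℕ} (h1 : 24 * n ≤ w) (h2 : w < 30 * n) : w ∈ SS n := by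
  unfold SS
  rw [Finset.mem_union]
  right
  unfold cellSet
  rw [Finset.mem_image]
  refine ⟨(w - 24 * n, 0), ?_, ?_⟩
  · rw [Finset.mem_product, Finset.mem_range, Finset.mem_range]
    simp only
    omega
  · simp only
    omega

theorem SS_est (D : ℕ) (hD : 1 ≤ D) (hD2 : Even D) : ∃ C : ℝ, 0 ≤ C ∧ ∀ n : ℕ, 2 ≤ n →
    Est C n (SS n) (fun F => J1 D (lS D) (fun y => F (n * y))) := by
  obtain ⟨C1, hC1, hE1⟩ := cell_est 2 1 (by norm_num) (by norm_num) 1 zero_le_one
  obtain ⟨C2, hC2, hE2⟩ := cell_est 1 1 (by norm_num) (by norm_num) 1 zero_le_one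
  refine ⟨C1 + C2, by positivity, fun n hn => ?_⟩
  have f1 := hE1 n hn (16 * n + 1) (4 * n) (by omega) (by omega) (n * 16) (n * 24) (by
    push_cast
    rw [abs_le]; constructor <;> linarith) (by
    push_cast
    rw [abs_le]; constructor <;> linarith)
  have f2 := hE2 n hn (24 * n) (6 * n) (by omega) (by omega) (n * 24) (n * 30) (by
    push_cast
    rw [abs_le]; constructor <;> linarith) (by
    push_cast
    rw [abs_le]; constructor <;> linarith)
  have hu := f1.union f2 (SS_disj n)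
  have e : (fun F : ℝ → ℝ => ((1 : ℕ) : ℝ) * (F (n * 24) - F (n * 16)) / ((2 : ℕ) : ℝ) +
      ((1 : ℕ) : ℝ) * (F (n * 30) - F (n * 24)) / ((1 : ℕ) : ℝ)) =
      fun F : ℝ → ℝ => J1 D (lS D) (fun y => F (n * y)) := by
    funext F
    unfold lS
    rw [J1_cons, J1_cons, J1_nil]
    obtain ⟨e, he⟩ := hD2
    have hD0 : (D : ℝ) ≠ 0 := by exact_mod_cast (by omega : D ≠ 0)
    have he' : (D : ℝ) = 2 * e := by rw [he]; push_cast; ring
    have hd2 : D / 2 = e := by omega
    have he0 : (e : ℝ) ≠ 0 := by exact_mod_cast (by omega : e ≠ 0)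
    simp only [hd2]
    rw [he']
    push_cast
    field_simp
    ring
  rw [← e]
  exact hu

/-- the remaining nodes, with the exact number of elements -/
theorem exists_N (D : ℕ) (hD : 1 ≤ D) (l : List (ℕ × ℕ × ℕ)) (hl : okc D 30 l = true)
    (hm : J1 D l id = 13) : ∃ C : ℝ, 0 ≤ C ∧ ∀ n : ℕ, 2 ≤ n → D ≤ n → ∃ Y : Finset ℕ,
      Y.card = 13 * n - 23 ∧ (∀ w ∈ Y, 30 * n ≤ w ∧ w < 700 * n) ∧
      Est C n Y (fun F => J1 D l (fun y => F (n * y))) := by
  obtain ⟨C, hC, hE⟩ := NS_est D hD l 30 (by norm_num) hl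
  obtain ⟨m, hmC⟩ := exists_nat_gt (C + 23)
  refine ⟨C + 47608 * m, by positivity, fun n hn hDn => ?_⟩
  obtain ⟨e1, e2⟩ := hE n hn hDn
  have hJ : J1 D l (fun y => id ((n : ℝ) * y)) = 13 * n := by
    have h1 : ∀ l : List (ℕ × ℕ × ℕ), J1 D l (fun y => id ((n : ℝ) * y)) = n * J1 D l id := by
      intro l
      induction l with
      | nil => simp [J1_nil]
      | cons c l ih =>
        rw [J1_cons, J1_cons, ih]
        simp only [id]
        ring
    rw [h1, hm]
    ring
  have hc := e1.e3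
  have hc' : |((NS D n l).card : ℝ) - 13 * n| ≤ C := by rw [← hJ]; exact hc
  have hcard1 : (NS D n l).card ≤ (13 * n - 23) + m := by
    have h1 := (abs_le.1 hc').2
    have h2 : ((NS D n l).card : ℝ) < 13 * n - 23 + m := by linarith
    have h3 : ((13 * n - 23 : ℕ) : ℝ) = 13 * n - 23 := by
      rw [Nat.cast_sub (by omega)]; push_cast; ring
    have h4 : ((NS D n l).card : ℝ) < (((13 * n - 23) + m : ℕ) : ℝ) := by
      push_cast [h3]
      exact h2
    exact_mod_cast h4.le
  have hcard2 : (13 * n - 23) ≤ (NS D n l).card + m := by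
    have h1 := (abs_le.1 hc').1
    have h3 : ((13 * n - 23 : ℕ) : ℝ) = 13 * n - 23 := by
      rw [Nat.cast_sub (by omega)]; push_cast; ring
    have h4 : ((13 * n - 23 : ℕ) : ℝ) ≤ (((NS D n l).card + m : ℕ) : ℝ) := by
      push_cast
      rw [h3]
      linarith
    exact_mod_cast h4
  have hsubI : NS D n l ⊆ Finset.Ico (30 * n) (700 * n) := by
    intro w hw
    rw [Finset.mem_Ico]
    exact e2 w hw
  obtain ⟨Y, hY1, hY2, hY3, hY4⟩ : ∃ Y : Finset ℕ, Y.card = 13 * n - 23 ∧ Y ⊆ Finset.Ico (30 * n) (700 * n) ∧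
      (NS D n l \ Y).card ≤ m ∧ (Y \ NS D n l).card ≤ m := by
    rcases le_or_gt (13 * n - 23) (NS D n l).card with h | h
    · obtain ⟨Y, hY1, hY2⟩ := Finset.exists_subset_card_eq h
      refine ⟨Y, hY2, hY1.trans hsubI, ?_, ?_⟩
      · rw [Finset.card_sdiff_of_subset hY1, hY2]
        omega
      · rw [Finset.sdiff_eq_empty_iff_subset.2 hY1]
        simp
    · obtain ⟨Y, hY1, hY2, hY3⟩ := Finset.exists_subsuperset_card_eq hsubI h.le (by
        rw [Nat.card_Ico]
        omega)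
      refine ⟨Y, hY3, hY2, ?_, ?_⟩
      · rw [Finset.sdiff_eq_empty_iff_subset.2 hY1]
        simp
      · rw [Finset.card_sdiff_of_subset hY1, hY3]
        omega
  have hYm : ∀ w ∈ Y, 30 * n ≤ w ∧ w < 700 * n := fun w hw => Finset.mem_Ico.1 (hY2 hw)
  refine ⟨Y, hY1, hYm, ?_⟩
  exact e1.modify hn m hY3 hY4 (fun w hw => by have := e2 w hw; omega) (fun w hw => by have := hYm w hw; omega)

end

end Pool.Agent.Y801.Z5S
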