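import Pool.Agent.Y801.Z5S.GP4

/-!
# The density functional, energies and scaling
-/

open Finset Pool.Agent.H312R.ZA Pool.Agent.H336R2.Z5

namespace Pool.Agent.Y801.Z5S

noncomputable section

lemma J1_smul (D : ℕ) (l : List (ℕ × ℕ × ℕ)) (a : ℝ) (F : ℝ → ℝ) : J1 D l (fun y => a * F y) = a * J1 D l F := by
  induction l with
  | nil => simp [J1_nil]
  | cons c l ih => rw [J1_cons, J1_cons, ih]; ring

lemma J1_add (D : ℕ) (l : List (ℕ × ℕ × ℕ)) (F G : ℝ → ℝ) : J1 D l (fun y => F y + G y) = J1 D l F + J1 D l G := by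
  induction l with
  | nil => simp [J1_nil]
  | cons c l ih => rw [J1_cons, J1_cons, J1_cons, ih]; ring

lemma J1_sum (D : ℕ) (l : List (ℕ × ℕ × ℕ)) (X : Finset ℕ) (F : ℕ → ℝ → ℝ) :
    ∑ w ∈ X, J1 D l (F w) = J1 D l (fun y => ∑ w ∈ X, F w y) := by
  induction l with
  | nil => simp [J1_nil]
  | cons c l ih =>
    simp only [J1_cons]
    rw [Finset.sum_add_distrib, ih, ← Finset.sum_div, ← Finset.mul_sum, Finset.sum_sub_distrib]

/-- all ends at most `700` -/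
def endsOK (l : List (ℕ × ℕ × ℕ)) : Prop := ∀ c ∈ l, c.1 ≤ 700 ∧ c.2.1 ≤ 700

lemma okc_ends {D : ℕ} {l : List (ℕ × ℕ × ℕ)} : ∀ {s : ℕ}, okc D s l = true → endsOK l := by
  induction l with
  | nil => intro s _ c hc; simp at hc
  | cons c l ih =>
    intro s h
    simp only [okc, Bool.and_eq_true, decide_eq_true_eq] at h
    obtain ⟨⟨⟨⟨h1, h2⟩, h3⟩, h4⟩, h5⟩ := h
    intro d hd
    rcases List.mem_cons.1 hd with rfl | hd
    · omega
    · exact ih h5 d hd

/-- total weight of the functional -/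
def wt (D : ℕ) (l : List (ℕ × ℕ × ℕ)) : ℝ := (l.map fun c => 2 * (c.2.2 : ℝ) / D).sum

lemma wt_nonneg (D : ℕ) (l : List (ℕ × ℕ × ℕ)) : 0 ≤ wt D l := by
  unfold wt
  apply List.sum_nonneg
  intro x hx
  rw [List.mem_map] at hx
  obtain ⟨c, _, rfl⟩ := hx
  positivity

lemma J1_bound (D : ℕ) (l : List (ℕ × ℕ × ℕ)) (hl : endsOK l) (F G : ℝ → ℝ) (B : ℝ)
    (h : ∀ y : ℝ, 0 ≤ y → y ≤ 700 → |F y - G y| ≤ B) : |J1 D l F - J1 D l G| ≤ wt D l * B := by
  induction l with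
  | nil => simp [J1_nil, wt]
  | cons c l ih =>
    have ih' := abs_le.1 (ih (fun d hd => hl d (List.mem_cons_of_mem _ hd)))
    have hc := hl c List.mem_cons_self
    have c1 : (c.1 : ℝ) ≤ 700 := by exact_mod_cast hc.1
    have c2 : (c.2.1 : ℝ) ≤ 700 := by exact_mod_cast hc.2
    have h1 := abs_le.1 (h c.1 (Nat.cast_nonneg _) c1)
    have h2 := abs_le.1 (h c.2.1 (Nat.cast_nonneg _) c2)
    have hw : wt D (c :: l) = 2 * (c.2.2 : ℝ) / D + wt D l := by
      unfold wt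
      rw [List.map_cons, List.sum_cons]
    have hk : 0 ≤ (c.2.2 : ℝ) / D := by positivity
    rw [J1_cons, J1_cons, hw]
    have e : (c.2.2 : ℝ) * (F c.2.1 - F c.1) / D + J1 D l F - ((c.2.2 : ℝ) * (G c.2.1 - G c.1) / D + J1 D l G) =
        (c.2.2 : ℝ) / D * ((F c.2.1 - G c.2.1) - (F c.1 - G c.1)) + (J1 D l F - J1 D l G) := by ring
    have e2 : (2 * (c.2.2 : ℝ) / D + wt D l) * B = (c.2.2 : ℝ) / D * (2 * B) + wt D l * B := by ring
    rw [e, e2, abs_le]
    have m1 : (c.2.2 : ℝ) / D * ((F c.2.1 - G c.2.1) - (F c.1 - G c.1)) ≤ (c.2.2 : ℝ) / D * (2 * B) :=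
      mul_le_mul_of_nonneg_left (by linarith [h1.1, h2.2]) hk
    have m2 : (c.2.2 : ℝ) / D * (-(2 * B)) ≤ (c.2.2 : ℝ) / D * ((F c.2.1 - G c.2.1) - (F c.1 - G c.1)) :=
      mul_le_mul_of_nonneg_left (by linarith [h1.2, h2.1]) hk
    constructor <;> linarith [ih'.1, ih'.2]

lemma HH_scale {r : ℝ} (hr : 0 < r) (t z : ℝ) :
    HH (r * t) (r * z) = r ^ 2 * HH t z + 2 * r ^ 2 * Real.log r * t * z := by
  have hG : ∀ x : ℝ, GG (r * x) = r ^ 2 * GG x + r ^ 2 * x ^ 2 / 2 * Real.log r := by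
    intro x
    unfold GG
    rcases eq_or_ne x 0 with rfl | hx
    · simp
    · rw [Real.log_mul hr.ne' hx]; ring
  unfold HH
  rw [← mul_add, ← mul_sub, hG, hG]
  ring

lemma ff_scale' {r : ℝ} (hr : 0 < r) (v b : ℝ) :
    ff (r * v) (r * b) = r * ff v b + 2 * r * Real.log r * b := by
  have hP : ∀ x : ℝ, Psi (r * x) = r * Psi x + r * x * Real.log r := by
    intro x
    unfold Psi
    rcases eq_or_ne x 0 with rfl | hx
    · simp
    · rw [Real.log_mul hr.ne' hx]; ring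
  unfold ff
  rw [← mul_add, ← mul_sub, hP, hP]
  ring

/-- the energy, scaled -/
lemma J1_HH_scale (D : ℕ) (l : List (ℕ × ℕ × ℕ)) {r : ℝ} (hr : 0 < r) (t : ℝ) :
    J1 D l (fun z => HH (r * t) (r * z)) = r ^ 2 * J1 D l (HH t) + 2 * r ^ 2 * Real.log r * t * J1 D l id := by
  have e : (fun z => HH (r * t) (r * z)) = fun z => r ^ 2 * HH t z + (2 * r ^ 2 * Real.log r * t) * id z := by
    funext z
    rw [HH_scale hr]
    rfl
  rw [e, J1_add, J1_smul, J1_smul]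

lemma J1_J1_scale (D : ℕ) (l l' : List (ℕ × ℕ × ℕ)) {r : ℝ} (hr : 0 < r) :
    J1 D l' (fun y => J1 D l (fun z => HH (r * y) (r * z))) =
      r ^ 2 * J1 D l' (fun y => J1 D l (HH y)) + 2 * r ^ 2 * Real.log r * J1 D l id * J1 D l' id := by
  have e : (fun y => J1 D l (fun z => HH (r * y) (r * z))) =
      fun y => r ^ 2 * J1 D l (HH y) + (2 * r ^ 2 * Real.log r * J1 D l id) * id y := by
    funext y
    rw [J1_HH_scale D l hr]
    simp only [id]
    ring
  rw [e, J1_add, J1_smul, J1_smul]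

lemma J1_ff_scale (D : ℕ) (l : List (ℕ × ℕ × ℕ)) {n : ℕ} (hn : 0 < n) (u : ℝ) :
    J1 D l (fun y => ff u (n * y)) = n * J1 D l (ff (u / n)) + 2 * n * Real.log n * J1 D l id := by
  have hn0 : (0 : ℝ) < n := by exact_mod_cast hn
  have e : (fun y : ℝ => ff u (n * y)) = fun y => n * ff (u / n) y + (2 * n * Real.log n) * id y := by
    funext y
    have := ff_scale' hn0 (u / n) y
    rw [mul_div_cancel₀ _ hn0.ne'] at this
    rw [this]
    rfl
  rw [e, J1_add, J1_smul, J1_smul]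

/-- the sum of the potentials over a set of nodes -/
lemma energy {C : ℝ} {n : ℕ} (hn : 2 ≤ n) {X : Finset ℕ} {D : ℕ} {l : List (ℕ × ℕ × ℕ)}
    (h : Est C n X (fun F => J1 D l (fun y => F (n * y)))) (l' : List (ℕ × ℕ × ℕ)) (hl' : endsOK l') :
    |∑ w ∈ X, J1 D l' (fun y => ff w (n * y)) -
      ((n : ℝ) ^ 2 * J1 D l' (fun y => J1 D l (HH y)) + 2 * (n : ℝ) ^ 2 * Real.log n * J1 D l id * J1 D l' id)| ≤
      wt D l' * (C * (n * Real.log n)) := by
  have hn0 : (0 : ℝ) < n := by exact_mod_cast (by omega : 0 < n)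
  rw [J1_sum, ← J1_J1_scale D l l' hn0]
  apply J1_bound D l' hl'
  intro y hy0 hy1
  exact h.e2 (n * y) (by positivity) (by nlinarith)

/-- one fixed end -/
lemma energy1 {C : ℝ} {n : ℕ} (hn : 2 ≤ n) {X : Finset ℕ} {D : ℕ} {l : List (ℕ × ℕ × ℕ)}
    (h : Est C n X (fun F => J1 D l (fun y => F (n * y)))) (b : ℝ) (hb0 : 0 ≤ b) (hb : b ≤ 700) :
    |∑ w ∈ X, ff w (n * b) -
      ((n : ℝ) ^ 2 * J1 D l (HH b) + 2 * (n : ℝ) ^ 2 * Real.log n * b * J1 D l id)| ≤ C * (n * Real.log n) := by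
  have hn0 : (0 : ℝ) < n := by exact_mod_cast (by omega : 0 < n)
  rw [← J1_HH_scale D l hn0]
  exact h.e2 (n * b) (by positivity) (by nlinarith)

/-- `φ`, scaled -/
lemma phi_scale' {n : ℕ} (hn : 0 < n) (u : ℝ) : (n : ℝ) * phi (u / n) =
    n * (36 * Real.log 36 - 36 + 32 * Real.log 32 - 32 + 28 * Real.log 28 - 28) + 96 * n * Real.log n -
      ff u (n * 18) - ff u (n * 16) - ff u (n * 14) := by
  have hn0 : (0:ℝ) < n := by exact_mod_cast hn
  have hs : ∀ b : ℝ, ff u (n * b) = n * ff (u / n) b + 2 * n * Real.log n * b := by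
    intro b
    have := ff_scale' hn0 (u / n) b
    rwa [mul_div_cancel₀ _ hn0.ne'] at this
  rw [hs, hs, hs]
  unfold phi
  ring

/-! ### logarithms of the products -/

lemma log_xu {n u w : ℕ} (h : w ≠ u) : Real.log |xu n u - xu n w| = gl u w - Real.log 4 := by
  unfold gl
  rw [if_neg h]
  have h1 : xu n u - xu n w = ((u : ℝ) ^ 2 - (w : ℝ) ^ 2) / 4 := by
    unfold xu
    ring
  have h2 : (u : ℝ) ^ 2 - (w : ℝ) ^ 2 ≠ 0 := by
    intro h0
    have h3 : (u : ℝ) ^ 2 = (w : ℝ) ^ 2 := by linarith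
    have h4 : u ^ 2 = w ^ 2 := by exact_mod_cast h3
    exact h (Nat.pow_left_injective (n := 2) (by norm_num) h4).symm
  rw [h1, abs_div, Real.log_div (abs_ne_zero.2 h2) (by norm_num)]
  norm_num

lemma xu_ne {n u w : ℕ} (h : w ≠ u) : 0 < |xu n u - xu n w| := by
  rw [abs_pos]
  intro h0
  have h2 : (u : ℝ) ^ 2 = (w : ℝ) ^ 2 := by
    unfold xu at h0
    linarith
  have h4 : u ^ 2 = w ^ 2 := by exact_mod_cast h2
  exact h (Nat.pow_left_injective (n := 2) (by norm_num) h4).symm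

/-- the product over all nodes, at a point which is not a node -/
lemma log_prod_notMem {n u : ℕ} {T : Finset ℕ} (hu : u ∉ T) :
    0 < ∏ v ∈ T, |xu n u - xu n v| ∧
    Real.log (∏ v ∈ T, |xu n u - xu n v|) = ∑ v ∈ T, gl u v - T.card * Real.log 4 := by
  have hne : ∀ v ∈ T, v ≠ u := fun v hv h => hu (h ▸ hv)
  refine ⟨Finset.prod_pos fun v hv => xu_ne (hne v hv), ?_⟩
  rw [Real.log_prod (fun v hv => (xu_ne (hne v hv)).ne'), Finset.sum_congr rfl (fun v hv => log_xu (hne v hv)),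
    Finset.sum_sub_distrib, Finset.sum_const, nsmul_eq_mul]

/-- the product over the other nodes, at a node -/
lemma log_prod_mem {n u : ℕ} {T : Finset ℕ} (hu : u ∈ T) :
    0 < ∏ v ∈ T.erase u, |xu n u - xu n v| ∧
    Real.log (∏ v ∈ T.erase u, |xu n u - xu n v|) = ∑ v ∈ T, gl u v - (T.card - 1) * Real.log 4 := by
  have hne : ∀ v ∈ T.erase u, v ≠ u := fun v hv => (Finset.mem_erase.1 hv).1
  refine ⟨Finset.prod_pos fun v hv => xu_ne (hne v hv), ?_⟩
  rw [Real.log_prod (fun v hv => (xu_ne (hne v hv)).ne'), Finset.sum_congr rfl (fun v hv => log_xu (hne v hv)),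
    Finset.sum_sub_distrib, Finset.sum_const, nsmul_eq_mul, Finset.card_erase_of_mem hu]
  have h1 : ∑ v ∈ T, gl u v = ∑ v ∈ T.erase u, gl u v := by
    rw [← Finset.add_sum_erase T _ hu]
    have : gl u u = 0 := by unfold gl; rw [if_pos rfl]
    rw [this, zero_add]
  rw [h1]
  have h2 : 1 ≤ T.card := Finset.card_pos.2 ⟨u, hu⟩
  rw [Nat.cast_sub h2]
  push_cast
  ring

end

end Pool.Agent.Y801.Z5S
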