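import Pool.Agent.Y801.Z5S.GP5

/-!
# The nodes: all estimates
-/

open Finset Pool.Agent.H312R.ZA Pool.Agent.H336R2.Z5

namespace Pool.Agent.Y801.Z5S

noncomputable section

/-- the constant of `φ` -/
def cph : ℝ := 36 * Real.log 36 - 36 + 32 * Real.log 32 - 32 + 28 * Real.log 28 - 28

/-- all cells -/
def lT (D : ℕ) (l : List (ℕ × ℕ × ℕ)) : List (ℕ × ℕ × ℕ) := lS D ++ l

/-- all estimates for the nodes -/
structure ND (D : ℕ) (l : List (ℕ × ℕ × ℕ)) (C : ℝ) (n : ℕ) (Y : Finset ℕ) : Prop where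
  card : Y.card = 13 * n - 23
  bd : ∀ w ∈ Y, 30 * n ≤ w ∧ w < 700 * n
  pot : ∀ u : ℕ, 1 ≤ u → u ≤ 700 * n →
    |∑ v ∈ SS n ∪ Y, gl u v - (n * J1 D (lT D l) (ff (u / n)) + 46 * n * Real.log n)| ≤ C * Real.log n
  eS : |∑ w ∈ SS n, ∑ v ∈ SS n ∪ Y, gl w v -
    ((n : ℝ) ^ 2 * J1 D (lT D l) (fun y => J1 D (lS D) (HH y)) + 460 * (n : ℝ) ^ 2 * Real.log n)| ≤
      C * (n * Real.log n)
  eY : |∑ w ∈ Y, ∑ v ∈ SS n ∪ Y, gl w v -
    ((n : ℝ) ^ 2 * J1 D (lT D l) (fun y => J1 D l (HH y)) + 598 * (n : ℝ) ^ 2 * Real.log n)| ≤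
      C * (n * Real.log n)
  ephi : ∑ w ∈ SS n, n * phi ((w : ℝ) / n) ≤
    (n : ℝ) ^ 2 * (10 * cph - J1 D (lS D) (HH 18) - J1 D (lS D) (HH 16) - J1 D (lS D) (HH 14)) + C * (n * Real.log n)
  elog : ∑ w ∈ SS n ∪ Y, Real.log (w : ℝ) ≤ n * J1 D (lT D l) Psi + 23 * n * Real.log n + C * Real.log n

lemma J1_lS_id {D : ℕ} (hD : 1 ≤ D) (hD2 : Even D) : J1 D (lS D) id = 10 := by
  unfold lS
  rw [J1_cons, J1_cons, J1_nil]
  obtain ⟨e, he⟩ := hD2
  have he' : (D : ℝ) = 2 * e := by rw [he]; push_cast; ring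
  have hd2 : D / 2 = e := by omega
  have he0 : (e : ℝ) ≠ 0 := by exact_mod_cast (by omega : e ≠ 0)
  simp only [hd2, id]
  rw [he']
  push_cast
  field_simp
  norm_num

lemma lS_ends (D : ℕ) : endsOK (lS D) := by
  intro c hc
  unfold lS at hc
  simp only [List.mem_cons, List.not_mem_nil, or_false] at hc
  rcases hc with rfl | rfl <;> simp

lemma lT_ends {D : ℕ} {l : List (ℕ × ℕ × ℕ)} (h : endsOK l) : endsOK (lT D l) := by
  intro c hc
  unfold lT at hc
  rcases List.mem_append.1 hc with hc | hc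
  · exact lS_ends D c hc
  · exact h c hc

lemma Psi_nscale {n : ℕ} (hn : 0 < n) (D : ℕ) (l : List (ℕ × ℕ × ℕ)) :
    J1 D l (fun y => Psi (n * y)) = n * J1 D l Psi + n * Real.log n * J1 D l id := by
  have hn0 : (0 : ℝ) < n := by exact_mod_cast hn
  have e : (fun y : ℝ => Psi (n * y)) = fun y => n * Psi y + (n * Real.log n) * id y := by
    funext y
    unfold Psi
    rcases eq_or_ne y 0 with rfl | hy
    · simp
    · rw [Real.log_mul hn0.ne' hy]
      simp only [id]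
      ring
  rw [e, J1_add, J1_smul, J1_smul]

theorem nodes (D : ℕ) (hD : 1 ≤ D) (hD2 : Even D) (l : List (ℕ × ℕ × ℕ)) (hl : okc D 30 l = true)
    (hm : J1 D l id = 13) : ∃ C : ℝ, 0 ≤ C ∧ ∀ n : ℕ, 2 ≤ n → D ≤ n → ∃ Y : Finset ℕ, ND D l C n Y := by
  obtain ⟨C1, hC1, h1⟩ := SS_est D hD hD2
  obtain ⟨C2, hC2, h2⟩ := exists_N D hD l hl hm
  have hmS := J1_lS_id hD hD2
  have hlends : endsOK l := okc_ends hl
  set l' := lT D l with hl'
  have hmT : J1 D l' id = 23 := by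
    rw [hl', lT, J1_append, hmS, hm]
    norm_num
  have hTends : endsOK l' := lT_ends hlends
  have hw0 := wt_nonneg D l'
  obtain ⟨C, hC⟩ : ∃ C : ℝ, C = (C1 + C2) + 13 * (C1 + C2) + (wt D l') * (C1 + C2) + 3 * C1 := ⟨_, rfl⟩
  have hCge1 : C1 + C2 ≤ C := by
    rw [hC]
    have : 0 ≤ wt D l' * (C1 + C2) := by positivity
    linarith
  have hCge2 : 13 * (C1 + C2) + (wt D l') * (C1 + C2) ≤ C := by
    rw [hC]
    linarith
  have hCge3 : 3 * C1 ≤ C := by
    rw [hC]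
    have : 0 ≤ wt D l' * (C1 + C2) := by positivity
    linarith
  refine ⟨C, by linarith, fun n hn hDn => ?_⟩
  have hn0 : 0 < n := by omega
  have hnR : (0 : ℝ) < n := by exact_mod_cast hn0
  have hl0 : 0 ≤ Real.log n := by have := half_le_log hn; linarith
  have hES := h1 n hn
  obtain ⟨Y, hYc, hYb, hEY⟩ := h2 n hn hDn
  have hdisj : Disjoint (SS n) Y := by
    rw [Finset.disjoint_left]
    intro w hw hw2
    have a := SS_mem hw
    have b := hYb w hw2
    omega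
  have hET : Est (C1 + C2) n (SS n ∪ Y) (fun F => J1 D l' (fun y => F (n * y))) := by
    have := hES.union hEY hdisj
    have e : (fun F : ℝ → ℝ => J1 D (lS D) (fun y => F (n * y)) + J1 D l (fun y => F (n * y))) =
        fun F : ℝ → ℝ => J1 D l' (fun y => F (n * y)) := by
      funext F
      rw [hl', lT, J1_append]
    rw [e] at this
    exact this
  have hpot : ∀ u : ℕ, 1 ≤ u → u ≤ 700 * n →
      |∑ v ∈ SS n ∪ Y, gl u v - J1 D l' (fun y => ff u (n * y))| ≤ (C1 + C2) * Real.log n := hET.e1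
  -- energies
  have hen : ∀ (X : Finset ℕ) (lX : List (ℕ × ℕ × ℕ)) (CX m : ℝ), Est CX n X (fun F => J1 D lX (fun y => F (n * y))) →
      J1 D lX id = m → (∀ w ∈ X, 1 ≤ w ∧ w ≤ 700 * n) → (X.card : ℝ) ≤ 13 * n → 0 ≤ CX → CX ≤ C1 + C2 →
      |∑ w ∈ X, ∑ v ∈ SS n ∪ Y, gl w v -
        ((n : ℝ) ^ 2 * J1 D l' (fun y => J1 D lX (HH y)) + 2 * (n : ℝ) ^ 2 * Real.log n * m * 23)| ≤
          C * (n * Real.log n) := by
    intro X lX CX m hX hmX hXb hXc hCX0 hCX
    have g1 := energy hn hX l' hTends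
    rw [hmX, hmT] at g1
    have g2 : |∑ w ∈ X, ∑ v ∈ SS n ∪ Y, gl w v - ∑ w ∈ X, J1 D l' (fun y => ff w (n * y))| ≤
        13 * n * ((C1 + C2) * Real.log n) := by
      rw [← Finset.sum_sub_distrib]
      refine (Finset.abs_sum_le_sum_abs _ _).trans ?_
      refine (Finset.sum_le_card_nsmul _ _ ((C1 + C2) * Real.log n) fun w hw =>
        hpot w (hXb w hw).1 (hXb w hw).2).trans ?_
      rw [nsmul_eq_mul]
      exact mul_le_mul_of_nonneg_right hXc (by positivity)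
    have g3 : wt D l' * (CX * (n * Real.log n)) ≤ wt D l' * (C1 + C2) * (n * Real.log n) := by
      have : CX * (n * Real.log n) ≤ (C1 + C2) * (n * Real.log n) := mul_le_mul_of_nonneg_right hCX (by positivity)
      have := mul_le_mul_of_nonneg_left this hw0
      linarith
    have g4 : (13 * (C1 + C2) + (wt D l') * (C1 + C2)) * (n * Real.log n) ≤ C * (n * Real.log n) :=
      mul_le_mul_of_nonneg_right hCge2 (by positivity)
    rw [abs_le] at g1 g2 ⊢
    constructor <;> linarith [g1.1, g1.2, g2.1, g2.2]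
  have hSSc : ((SS n).card : ℝ) = 10 * n := by rw [SS_card]; push_cast; ring
  refine ⟨Y, hYc, hYb, fun u hu1 hu2 => ?_, ?_, ?_, ?_, ?_⟩
  · have g := hpot u hu1 hu2
    rw [J1_ff_scale D l' hn0, hmT] at g
    have g4 : (C1 + C2) * Real.log n ≤ C * Real.log n := mul_le_mul_of_nonneg_right hCge1 hl0
    refine le_trans (le_of_eq ?_) (g.trans g4)
    congr 1
    ring
  · have g := hen (SS n) (lS D) C1 10 hES hmS (fun w hw => by have := SS_mem hw; omega) (by
      rw [hSSc]; linarith) hC1 (by linarith)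
    refine le_trans (le_of_eq ?_) g
    congr 1
    ring
  · have g := hen Y l C2 13 hEY hm (fun w hw => by have := hYb w hw; omega) (by
      rw [hYc]
      have : ((13 * n - 23 : ℕ) : ℝ) ≤ ((13 * n : ℕ) : ℝ) := by exact_mod_cast (by omega : 13 * n - 23 ≤ 13 * n)
      push_cast at this ⊢
      exact this) hC2 (by linarith)
    refine le_trans (le_of_eq ?_) g
    congr 1
    ring
  · have e : ∑ w ∈ SS n, (n : ℝ) * phi ((w : ℝ) / n) =
        (SS n).card * (n * cph + 96 * n * Real.log n) - ∑ w ∈ SS n, ff w (n * 18) - ∑ w ∈ SS n, ff w (n * 16) -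
          ∑ w ∈ SS n, ff w (n * 14) := by
      have : ∀ w ∈ SS n, (n : ℝ) * phi ((w : ℝ) / n) =
          (n * cph + 96 * n * Real.log n) - ff w (n * 18) - ff w (n * 16) - ff w (n * 14) := by
        intro w _
        rw [phi_scale' hn0]
        unfold cph
        ring
      rw [Finset.sum_congr rfl this, Finset.sum_sub_distrib, Finset.sum_sub_distrib, Finset.sum_sub_distrib,
        Finset.sum_const, nsmul_eq_mul]
    have g18 := (abs_le.1 (energy1 hn hES 18 (by norm_num) (by norm_num))).1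
    have g16 := (abs_le.1 (energy1 hn hES 16 (by norm_num) (by norm_num))).1
    have g14 := (abs_le.1 (energy1 hn hES 14 (by norm_num) (by norm_num))).1
    rw [hmS] at g18 g16 g14
    rw [e, hSSc]
    have g4 : 3 * C1 * (n * Real.log n) ≤ C * (n * Real.log n) := mul_le_mul_of_nonneg_right hCge3 (by positivity)
    have e2 : 10 * (n : ℝ) * (n * cph + 96 * n * Real.log n) = 10 * ((n : ℝ) ^ 2 * cph) +
      960 * ((n : ℝ) ^ 2 * Real.log n) := by ring
    rw [e2]
    have e3 : (n : ℝ) ^ 2 * (10 * cph - J1 D (lS D) (HH 18) - J1 D (lS D) (HH 16) - J1 D (lS D) (HH 14)) =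
        10 * ((n : ℝ) ^ 2 * cph) - (n : ℝ) ^ 2 * J1 D (lS D) (HH 18) - (n : ℝ) ^ 2 * J1 D (lS D) (HH 16) -
          (n : ℝ) ^ 2 * J1 D (lS D) (HH 14) := by ring
    rw [e3]
    linarith
  · have g := hET.e4
    rw [Psi_nscale hn0, hmT] at g
    have g4 : (C1 + C2) * Real.log n ≤ C * Real.log n := mul_le_mul_of_nonneg_right hCge1 hl0
    linarith

end

end Pool.Agent.Y801.Z5S
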