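import Pool.Agent.H336R2.Z5M.NonV
import Pool.Agent.Y801.Z5S.Deg

/-!
# Irrationality measure of `ζ(5)`: non-vanishing at a prime parameter `p`, for `|u|_p ≤ p^4`
-/

open Polynomial Pool.Agent.H337R2 Pool.Agent.H336R2.Z5 Pool.Agent.H336R2.Z5.H3 Filter Topology

namespace Pool.Agent.Y801.Z5S

noncomputable section

section loc

variable {p : ℕ} [hp : Fact p.Prime]

lemma u_term5 (hp60 : 60 ≤ p) {r e k : ℕ} (hr1 : 1 ≤ r) (hr2 : 2 * r < p) (he : e ≤ 90) (hk : k ∈ sN p) :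
    padicNorm p ((p : ℚ) ^ (-(e : ℤ)) *
      pa (sN p) (muN p) (PPn p * EE p (Qr p r e)) k 5) ≤ (p : ℚ) ^ (-5 : ℤ) := by
  by_cases h : (p : ℤ) ∣ (k : ℤ) - r ∨ (p : ℤ) ∣ (k : ℤ) + r
  · have h1 := nmul (norm_pzpow (p := p) e).le
      (pa_near (p := p) hp60 r e k 5 hk (not_dvd_near hr1 hr2 h) h)
    refine h1.trans ?_
    rw [← zpow_add₀ p_pos'.ne']
    apply zpow_le_zpow_right₀ p_one'
    push_cast
    omega
  · have h1 := nmul (norm_pzpow (p := p) e).le (pa_far (p := p) hp60 r e k 5 hk h)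
    refine h1.trans ?_
    rw [← zpow_add₀ p_pos'.ne']
    apply zpow_le_zpow_right₀ p_one'
    push_cast
    omega

lemma norm24 (u : ℚ) (hu : padicNorm p u ≤ (p : ℚ) ^ 4) : padicNorm p (-24 * u) ≤ (p : ℚ) ^ 4 := by
  have h1 := norm_int_le (p := p) (-24)
  push_cast at h1
  have := nmul h1 hu
  rwa [one_mul] at this

theorem H3_diag4 (hp60 : 60 ≤ p) (u : ℚ) (hu : padicNorm p u ≤ (p : ℚ) ^ 4)
    (r : ℕ) (hr1 : 1 ≤ r) (hr2 : 2 * r < p) :
    ∃ w : ℚ, padicNorm p w = 1 ∧ ∀ e : ℕ, e ≤ 90 →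
      padicNorm p ((p : ℚ) ^ (-(e : ℤ)) * NL p u (XN p r ^ e * Nod p r 92) - w * (-2 * r) ^ e * Fm e) ≤ (p : ℚ)⁻¹ := by
  obtain ⟨w, hw1, hw⟩ := H3_diag hp60 0 (by rw [padicNorm.zero]; exact zero_le_one) r hr1 hr2
  refine ⟨w, hw1, fun e he => ?_⟩
  have e1 : (p : ℚ) ^ (-(e : ℤ)) * NL p u (XN p r ^ e * Nod p r 92) - w * (-2 * r) ^ e * Fm e =
      ((p : ℚ) ^ (-(e : ℤ)) * NL p 0 (XN p r ^ e * Nod p r 92) - w * (-2 * r) ^ e * Fm e) +
      (-24 * u) * ∑ k ∈ sN p, (p : ℚ) ^ (-(e : ℤ)) *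
        pa (sN p) (muN p) (PPn p * EE p (XN p r ^ e * Nod p r 92)) k 5 := by
    rw [NL_affine p u, ← Finset.mul_sum]
    unfold Pool.Agent.H336R2.Z5M.rho
    ring
  rw [e1]
  refine nadd (hw e he) ?_
  have h2 : padicNorm p (∑ k ∈ sN p, (p : ℚ) ^ (-(e : ℤ)) *
        pa (sN p) (muN p) (PPn p * EE p (XN p r ^ e * Nod p r 92)) k 5) ≤ (p : ℚ) ^ (-5 : ℤ) := by
    have hp0 : (0 : ℚ) < p := p_pos'
    apply padicNorm.sum_le' _ (by positivity)
    intro k hk
    exact u_term5 hp60 hr1 hr2 he hk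
  refine (nmul (norm24 u hu) h2).trans (le_of_eq ?_)
  rw [← zpow_natCast (p : ℚ) 4, ← zpow_add₀ p_pos'.ne', ← zpow_neg_one]
  norm_num

theorem H4_offdiag4 (hp60 : 60 ≤ p) (u : ℚ) (hu : padicNorm p u ≤ (p : ℚ) ^ 4)
    (r s l l' : ℕ) (hr1 : 1 ≤ r) (hr2 : 2 * r < p) (hs1 : 1 ≤ s) (hs2 : 2 * s < p) (hrs : r ≠ s)
    (hl : l < 46) (hl' : l' < 46) :
    padicNorm p ((p : ℚ) ^ (-(l : ℤ) - (l' : ℤ)) * NL p u
      ((XN p r ^ l * Nod p r 46) * (XN p s ^ l' * Nod p s 46))) ≤ (p : ℚ)⁻¹ := by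
  have hp0 : (0 : ℚ) < p := p_pos'
  have hp1 : (1 : ℚ) ≤ p := p_one'
  have hp2 : 24 * p < p ^ 2 := by
    have : 24 * p < p * p := Nat.mul_lt_mul_of_pos_right (by omega) (by omega)
    rw [sq]
    exact this
  have h0 := H4_offdiag hp60 0 (by rw [padicNorm.zero]; exact zero_le_one) r s l l' hr1 hr2 hs1 hs2 hrs hl hl'
  set Q : ℚ[X] := (XN p r ^ l * Nod p r 46) * (XN p s ^ l' * Nod p s 46) with hQ
  have e1 : (p : ℚ) ^ (-(l : ℤ) - (l' : ℤ)) * NL p u Q =
      (p : ℚ) ^ (-(l : ℤ) - (l' : ℤ)) * NL p 0 Q +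
      ((p : ℚ) ^ (-(l : ℤ) - (l' : ℤ)) * (-24 * u)) * ∑ k ∈ sN p,
        pa (sN p) (muN p) (PPn p * EE p Q) k 5 := by
    rw [NL_affine p u]
    unfold Pool.Agent.H336R2.Z5M.rho
    ring
  rw [e1]
  refine nadd h0 ?_
  have h3 : padicNorm p (∑ k ∈ sN p, pa (sN p) (muN p) (PPn p * EE p Q) k 5) ≤
      (p : ℚ) ^ (-(l : ℤ) - (l' : ℤ)) * (p : ℚ) ^ (-5 : ℤ) * (p : ℚ)⁻¹ := by
    apply padicNorm.sum_le' _ (by positivity)
    intro k hk
    have h1 := H4_pa_mul (n := p) (by omega) hp2 _ hk _ (H4_A_nonneg r s l l' k)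
      (H4_PB r s l l' k) 5
    have h2 := H4_A_le hp60 r s l l' hr1 hr2 hs1 hs2 hrs hl hl' k
    have h4 : (p : ℚ) ^ (-(eeN p p k) - (5 : ℕ) : ℤ) * H4_A p r s l l' k =
        (p : ℚ) ^ (-(l : ℤ) - (l' : ℤ)) * (p : ℚ) ^ (-5 : ℤ) *
            ((p : ℚ) ^ (((l : ℤ) + l') - eeN p p k) * H4_A p r s l l' k) := by
      have e2 : (p : ℚ) ^ (-(eeN p p k) - (5 : ℕ) : ℤ) =
          (p : ℚ) ^ (-(l : ℤ) - (l' : ℤ)) * (p : ℚ) ^ (-5 : ℤ) * (p : ℚ) ^ (((l : ℤ) + l') - eeN p p k) := by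
        rw [← zpow_add₀ hp0.ne', ← zpow_add₀ hp0.ne']
        congr 1
        push_cast
        ring
      rw [e2]
      ring
    rw [h4] at h1
    have h5 : padicNorm p (pa (sN p) (muN p) (PPn p * EE p Q) k 5) ≤
        (p : ℚ) ^ (-(l : ℤ) - (l' : ℤ)) * (p : ℚ) ^ (-5 : ℤ) *
            ((p : ℚ) ^ (((l : ℤ) + l') - eeN p p k) * H4_A p r s l l' k) := h1
    exact h5.trans (mul_le_mul_of_nonneg_left h2 (by positivity))
  have h6 : padicNorm p ((p : ℚ) ^ (-(l : ℤ) - (l' : ℤ))) = (p : ℚ) ^ (-(-(l : ℤ) - (l' : ℤ))) :=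
    H4_norm_zpow _
  have h7 := nmul h6.le (norm24 u hu)
  refine (nmul h7 h3).trans ?_
  have e3 : (p : ℚ) ^ (-(-(l : ℤ) - (l' : ℤ))) * (p : ℚ) ^ 4 *
      ((p : ℚ) ^ (-(l : ℤ) - (l' : ℤ)) * (p : ℚ) ^ (-5 : ℤ) * (p : ℚ)⁻¹) = (p : ℚ) ^ (-2 : ℤ) := by
    rw [← zpow_natCast (p : ℚ) 4, ← zpow_neg_one (p : ℚ), ← zpow_add₀ hp0.ne', ← zpow_add₀ hp0.ne',
      ← zpow_add₀ hp0.ne', ← zpow_add₀ hp0.ne']
    congr 1
    push_cast
    ring
  rw [e3, ← zpow_neg_one (p : ℚ)]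
  exact zpow_le_zpow_right₀ hp1 (by norm_num)

end loc

theorem nonvanish4 : ∃ p0 : ℕ, ∀ p : ℕ, p0 ≤ p → p.Prime → ∀ u : ℚ, padicNorm p u ≤ (p : ℚ) ^ 4 →
    DET p u (mN p) ≠ 0 := by
  -- bounds on the constants
  obtain ⟨p1, hp1⟩ := H6_unit _ H5_local
  have hF : ∃ p2 : ℕ, ∀ e ∈ Finset.range 91, ∀ p : ℕ, p2 ≤ p → p.Prime → padicNorm p (Fm e) ≤ 1 := by
    choose f hf using fun e : ℕ => H6_int (Fm e)
    refine ⟨(Finset.range 91).sup f, fun e he p hp hpp => hf e p ?_ hpp⟩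
    exact (Finset.le_sup (f := f) he).trans hp
  obtain ⟨p2, hp2⟩ := hF
  refine ⟨p1 + p2 + 60, fun p hp hpp u hup => ?_⟩
  have : Fact p.Prime := ⟨hpp⟩
  have hp60 : 60 ≤ p := by omega
  have hodd : p % 2 = 1 := by
    rcases hpp.eq_two_or_odd with h | h
    · omega
    · exact h
  set h := (p - 1) / 2 with hh
  have hph : p = 2 * h + 1 := by omega
  -- choose the units
  have hw : ∀ r : Fin h, ∃ w : ℚ, padicNorm p w = 1 ∧ ∀ e : ℕ, e ≤ 90 →
      padicNorm p ((p : ℚ) ^ (-(e : ℤ)) * NL p u (XN p (r.1 + 1) ^ e * Nod p (r.1 + 1) 92) -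
        w * (-2 * ((r.1 + 1 : ℕ) : ℚ)) ^ e * Fm e) ≤ (p : ℚ)⁻¹ := by
    intro r
    have hr := r.2
    exact H3_diag4 hp60 u hup (r.1 + 1) (by omega) (by omega)
  choose w hw1 hw2 using hw
  -- the Gram matrix
  set G : Matrix (Fin 46 × Fin h) (Fin 46 × Fin h) ℚ :=
    Matrix.of fun a b => NL p u (H6_P p (a.2.1 + 1) a.1.1 * H6_P p (b.2.1 + 1) b.1.1) with hG
  have key : G.det ≠ 0 := by
    set c : Fin 46 × Fin h → ℚ := fun a => (p : ℚ) ^ (-(a.1.1 : ℤ)) with hc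
    set M : Matrix (Fin 46 × Fin h) (Fin 46 × Fin h) ℚ :=
      Matrix.of fun a b => c a * c b * G a b with hM
    set Bl : Fin h → Matrix (Fin 46) (Fin 46) ℚ := fun r =>
      Matrix.of fun l l' => w r * (-2 * ((r.1 + 1 : ℕ) : ℚ)) ^ (l.1 + l'.1) * Fm (l.1 + l'.1) with hBl
    have hp0 : (p : ℚ) ≠ 0 := by exact_mod_cast hpp.ne_zero
    have hcc : ∀ a b : Fin 46 × Fin h, c a * c b = (p : ℚ) ^ (-(a.1.1 : ℤ) - (b.1.1 : ℤ)) := by
      intro a b
      simp only [hc]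
      rw [← zpow_add₀ hp0]
      congr 1
    have hM0 : M.det ≠ 0 := by
      apply Pool.Agent.H336R2.HD.A6_det_congr p M (Matrix.blockDiagonal Bl)
      · intro a b
        rw [Matrix.blockDiagonal_apply]
        split_ifs with hab
        · simp only [hBl, Matrix.of_apply]
          have ha := a.1.2
          have hb := b.1.2
          have h1 : padicNorm p (Fm (a.1.1 + b.1.1)) ≤ 1 :=
            hp2 _ (Finset.mem_range.2 (by omega)) p (by omega) hpp
          have h2 : padicNorm p ((-2 * ((a.2.1 + 1 : ℕ) : ℚ)) ^ (a.1.1 + b.1.1)) ≤ 1 := by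
            have h3 : ((-2 * ((a.2.1 + 1 : ℕ) : ℚ)) ^ (a.1.1 + b.1.1)) =
                (((-2 * ((a.2.1 + 1 : ℕ) : ℤ)) ^ (a.1.1 + b.1.1) : ℤ) : ℚ) := by
              push_cast
              ring
            rw [h3]
            exact padicNorm.of_int _
          rw [padicNorm.mul, padicNorm.mul, hw1, one_mul]
          exact mul_le_one₀ h2 (padicNorm.nonneg _) h1
        · simp
      · intro a b
        rw [Matrix.blockDiagonal_apply]
        have ha := a.1.2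
        have hb := b.1.2
        have ha2 := a.2.2
        have hb2 := b.2.2
        have hMab : M a b = (p : ℚ) ^ (-(a.1.1 : ℤ) - (b.1.1 : ℤ)) *
            NL p u (H6_P p (a.2.1 + 1) a.1.1 * H6_P p (b.2.1 + 1) b.1.1) := by
          simp only [hM, hG, Matrix.of_apply]
          rw [hcc]
        split_ifs with hab
        · rw [hMab, ← hab, H6_P_mul]
          have h1 := hw2 a.2 (a.1.1 + b.1.1) (by omega)
          have h2 : (-((a.1.1 + b.1.1 : ℕ) : ℤ)) = -(a.1.1 : ℤ) - (b.1.1 : ℤ) := by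
            push_cast
            ring
          rw [h2] at h1
          exact h1
        · rw [hMab, sub_zero]
          apply H4_offdiag4 hp60 u hup (a.2.1 + 1) (b.2.1 + 1) a.1.1 b.1.1 (by omega) (by omega)
            (by omega) (by omega) _ ha hb
          intro h1
          apply hab
          ext
          omega
      · rw [Matrix.det_blockDiagonal]
        have hdet : ∀ r : Fin h, padicNorm p (Bl r).det = 1 := by
          intro r
          have hr := r.2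
          have h1 : Bl r = Matrix.of fun l l' => (w r) *
              (Matrix.of fun l l' : Fin 46 => ((-2 * ((r.1 + 1 : ℕ) : ℚ)) ^ l.1) *
                ((-2 * ((r.1 + 1 : ℕ) : ℚ)) ^ l'.1) *
                (Matrix.of fun l l' : Fin 46 => Fm (l.1 + l'.1)) l l') l l' := by
            ext l l'
            simp only [hBl, Matrix.of_apply]
            ring
          rw [h1, Matrix.det_mul_column (fun _ => w r), H6_det_scale]
          have h2 : padicNorm p (-2 * ((r.1 + 1 : ℕ) : ℚ)) = 1 := by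
            have h3 : (-2 * ((r.1 + 1 : ℕ) : ℚ)) = ((-(2 * (r.1 + 1) : ℕ) : ℤ) : ℚ) := by
              push_cast
              ring
            rw [h3, padicNorm.int_eq_one_iff]
            intro h4
            rw [Int.dvd_neg, Int.natCast_dvd_natCast] at h4
            have := Nat.le_of_dvd (by omega) h4
            omega
          have hprod : ∀ f : Fin 46 → ℚ, (∀ i, padicNorm p (f i) = 1) → padicNorm p (∏ i, f i) = 1 := by
            intro f hf
            have h4 : padicNorm p (∏ i, f i) = ∏ i, padicNorm p (f i) := by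
              exact map_prod (⟨⟨fun x => padicNorm p x, padicNorm.one⟩, fun x y => padicNorm.mul x y⟩ :
                ℚ →* ℚ) f Finset.univ
            rw [h4]
            exact Finset.prod_eq_one fun i _ => hf i
          have h5 : ∀ i : Fin 46, padicNorm p ((-2 * ((r.1 + 1 : ℕ) : ℚ)) ^ i.1) = 1 := by
            intro i
            have h6 : ∀ k : ℕ, padicNorm p ((-2 * ((r.1 + 1 : ℕ) : ℚ)) ^ k) = 1 := by
              intro k
              induction k with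
              | zero => simp
              | succ k ih => rw [pow_succ, padicNorm.mul, ih, h2, one_mul]
            exact h6 i.1
          rw [padicNorm.mul, padicNorm.mul, padicNorm.mul, hprod _ (fun _ => hw1 r), hprod _ h5,
            hp1 p (by omega) hpp]
          norm_num
        have hprod2 : padicNorm p (∏ r, (Bl r).det) = ∏ r, padicNorm p (Bl r).det := by
          exact map_prod (⟨⟨fun x => padicNorm p x, padicNorm.one⟩, fun x y => padicNorm.mul x y⟩ :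
            ℚ →* ℚ) (fun r => (Bl r).det) Finset.univ
        rw [hprod2]
        exact Finset.prod_eq_one fun r _ => hdet r
    intro h0
    apply hM0
    rw [hM, H6_det_scale, h0, mul_zero, mul_zero]
  -- conclusion
  have hcard : Fintype.card (Fin 46 × Fin h) = Fintype.card (Fin (mN p)) := by
    simp only [Fintype.card_prod, Fintype.card_fin]
    show 46 * h = 23 * (p - 1)
    omega
  obtain ⟨e⟩ := Fintype.card_eq.1 hcard
  unfold DET
  apply Pool.Agent.H336R2.HD.A2_gram_ne (NL p u) (mN p) e (fun a => H6_P p (a.2.1 + 1) a.1.1)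
  · intro a
    have ha := a.1.2
    have ha2 := a.2.2
    exact H6_P_natDegree p _ _ (by omega) (by omega) ha hp60 hodd
  · exact key


end

end Pool.Agent.Y801.Z5S
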