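import Pool.Agent.Y801.Z5S.PU
import Pool.Agent.H312R.PC.PsiCert

/-!
# Irrationality measure of `ζ(5)`: the sum of the local bounds
-/

open Polynomial Pool.Agent.H337R2 Pool.Agent.H336R2.Z5 Pool.Agent.H336R2.Z5.P49 Filter Topology

namespace Pool.Agent.Y801.Z5S

noncomputable section

theorem numeric : LA + LB + LU ≤ 18369017 / 10000 := by
  decide +kernel

theorem log46 : (3.8286413 : ℝ) ≤ Real.log 46 := by
  have h2 := abs_le.mp (Pool.Agent.H312R.PC.lnA_spec 46 (by norm_num) (by norm_num))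
  have e2 : Pool.Agent.H312R.PC.lnA 46 ≥ 3828641390000 := by decide +kernel
  have e3 : (3828641390000 : ℝ) ≤ (Pool.Agent.H312R.PC.lnA 46 : ℝ) := by exact_mod_cast e2
  have h3 := h2.1
  push_cast at h3
  norm_num at h3 ⊢
  linarith

lemma Bf_pos (n p : ℕ) (hp : p.Prime) : 0 < Bf n p := by
  unfold Bf
  have hp0 : (0 : ℝ) < p := by exact_mod_cast hp.pos
  apply mul_pos
  · split_ifs <;> positivity
  · exact Finset.prod_pos fun i _ => norm_fac_pos p _ hp

lemma BB_pos (K0 : ℝ) (n p : ℕ) (hp : p.Prime) : 0 < BB K0 n p := by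
  unfold BB
  have hp0 : (0 : ℝ) < p := by exact_mod_cast hp.pos
  split_ifs
  · positivity
  · exact one_pos
  · exact Bf_pos n p hp

/-- the sum over all primes up to `48 n` -/
theorem P_sum (K0 : ℝ) (hK0 : 0 ≤ K0) :
    ∀ ε : ℝ, 0 < ε → ∀ᶠ n : ℕ in atTop,
    ∑ p ∈ (Finset.range (48 * n + 1)).filter Nat.Prime, Real.log (BB K0 n p) ≤
      -(1058 * (n : ℝ) ^ 2 * Real.log n) - (6199 / 10 - ε) * (n : ℝ) ^ 2 := by
  intro ε hε
  have hnumr : (LA : ℝ) + LB + LU ≤ 18369017 / 10000 := by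
    have h := (Rat.cast_le (K := ℝ)).2 numeric
    push_cast at h
    exact h
  have hε' : 0 < ε / 10 := by positivity
  have ev9 : ∀ᶠ n : ℕ in atTop, K0 * (Real.log 4 * 34) ≤ ε / 10 * n := by
    have := (tendsto_natCast_atTop_atTop (R := ℝ)).const_mul_atTop hε'
    exact this.eventually_ge_atTop _
  filter_upwards [ev_of_tendsto P5_A (ε / 10) hε', ev_of_tendsto P5_B (ε / 10) hε', ev_of_tendsto P5_U (ε / 10) hε',
    P5_small 60 (by norm_num) (ε / 10) hε', P5_fact, P5_superfac (ε / 10) hε', ev9, eventually_ge_atTop 20000] with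
    n g2 g3 g5 g6 g7 g8 g9 hn
  have hn7 : 7 ≤ n := by omega
  have hn0 : (0 : ℝ) < n := by exact_mod_cast (by omega : 0 < n)
  set S := (Finset.range (48 * n + 1)).filter Nat.Prime with hS
  rw [← Finset.sum_filter_add_sum_filter_not S (fun p => 20 * p ≤ n)]
  -- small primes
  have hsmall : ∑ p ∈ S.filter (fun p => 20 * p ≤ n), Real.log (BB K0 n p) ≤
      23 * (n : ℝ) * (∑ p ∈ (Finset.range (n + 1)).filter (fun p : ℕ => p.Prime ∧ p ^ 2 ≤ 48 * n),
        60 * Real.log (48 * n + 1) +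
      ∑ p ∈ (Finset.range (n + 1)).filter (fun p : ℕ => p.Prime ∧ 20 * p ≤ n), 6 * Real.log p) +
      ∑ p ∈ (Finset.range (n + 1)).filter (fun p : ℕ => p.Prime ∧ 20 * p ≤ n), ∑ i ∈ Finset.range (mN n),
      Real.log ((padicNorm p (((2 * i - 1).factorial : ℕ) : ℚ) ^ 2 : ℚ) : ℝ) := by
    have e1 : S.filter (fun p => 20 * p ≤ n) = (Finset.range (n + 1)).filter (fun p : ℕ => p.Prime ∧ 20 * p ≤ n) := by
      ext p
      rw [hS]
      simp only [Finset.mem_filter, Finset.mem_range]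
      constructor
      · rintro ⟨⟨h1, h2⟩, h3⟩; exact ⟨by omega, h2, h3⟩
      · rintro ⟨h1, h2, h3⟩; exact ⟨⟨by omega, h2⟩, h3⟩
    rw [e1]
    calc _ ≤ ∑ p ∈ (Finset.range (n + 1)).filter (fun p : ℕ => p.Prime ∧ 20 * p ≤ n),
          (23 * (n : ℝ) * ((if p ^ 2 ≤ 48 * n then 60 * Real.log (48 * n + 1) else 0) + 6 * Real.log p) +
          ∑ i ∈ Finset.range (mN n), Real.log ((padicNorm p (((2 * i - 1).factorial : ℕ) : ℚ) ^ 2 : ℚ) : ℝ)) := by
          apply Finset.sum_le_sum
          intro p hp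
          rw [Finset.mem_filter] at hp
          have e2 : BB K0 n p = Bf n p := by
            unfold BB
            rw [if_neg (by omega)]
          rw [e2]
          exact log_Bf_small n p hp.2.1
      _ ≤ _ := by
          rw [Finset.sum_add_distrib, ← Finset.mul_sum, Finset.sum_add_distrib]
          apply add_le_add_left
          apply mul_le_mul_of_nonneg_left _ (by positivity)
          apply add_le_add_left
          rw [← Finset.sum_filter]
          apply Finset.sum_le_sum_of_subset_of_nonneg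
          · intro p hp
            simp only [Finset.mem_filter, Finset.mem_range] at hp ⊢
            exact ⟨hp.1.1, hp.1.2.1, hp.2⟩
          · intro p _ _
            have : 0 ≤ Real.log (48 * (n : ℝ) + 1) := Real.log_nonneg (by linarith)
            positivity
  -- large primes
  have hlarge : ∑ p ∈ S.filter (fun p => ¬ 20 * p ≤ n), Real.log (BB K0 n p) ≤
      ∑ p ∈ PS (1 / 20) 12 n, EA n p * Real.log p + ∑ p ∈ PS 12 34 n, EB n p * Real.log p +
      K0 * (Real.log 4 * (34 * n)) := by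
    refine le_trans ?_ (EW_split n hn7 K0 hK0)
    have e1 : ((Finset.range (34 * n)).filter Nat.Prime).filter (fun p => ¬ 20 * p ≤ n) =
        (S.filter (fun p => ¬ 20 * p ≤ n)).filter (fun p => p < 34 * n) := by
      ext p
      rw [hS]
      simp only [Finset.mem_filter, Finset.mem_range]
      constructor
      · rintro ⟨⟨h1, h2⟩, h3⟩; exact ⟨⟨⟨by omega, h2⟩, h3⟩, h1⟩
      · rintro ⟨⟨⟨h1, h2⟩, h3⟩, h4⟩; exact ⟨⟨h4, h2⟩, h3⟩
    rw [e1, ← Finset.sum_filter_add_sum_filter_not (S.filter (fun p => ¬ 20 * p ≤ n)) (fun p => p < 34 * n)]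
    have hlo : ∑ p ∈ (S.filter (fun p => ¬ 20 * p ≤ n)).filter (fun p => p < 34 * n), Real.log (BB K0 n p) ≤
        ∑ p ∈ (S.filter (fun p => ¬ 20 * p ≤ n)).filter (fun p => p < 34 * n), (EW n p + K0) * Real.log p := by
      apply Finset.sum_le_sum
      intro p hp
      rw [hS, Finset.mem_filter, Finset.mem_filter, Finset.mem_filter] at hp
      obtain ⟨⟨⟨_, h2⟩, h3⟩, h5⟩ := hp
      have hp0 : (0 : ℝ) < p := by exact_mod_cast h2.pos
      unfold BB
      rw [if_pos (by omega), if_pos h5, Real.log_rpow hp0]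
    have hhi : ∑ p ∈ (S.filter (fun p => ¬ 20 * p ≤ n)).filter (fun p => ¬ p < 34 * n), Real.log (BB K0 n p) ≤ 0 := by
      apply Finset.sum_nonpos
      intro p hp
      rw [hS, Finset.mem_filter, Finset.mem_filter, Finset.mem_filter] at hp
      obtain ⟨⟨⟨_, h2⟩, h3⟩, h5⟩ := hp
      unfold BB
      rw [if_pos (by omega), if_neg h5, Real.log_one]
    linarith
  have hfin : K0 * (Real.log 4 * (34 * n)) ≤ ε / 10 * (n : ℝ) ^ 2 := by
    have := mul_le_mul_of_nonneg_right g9 hn0.le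
    nlinarith
  have hn2 : (0 : ℝ) < (n : ℝ) ^ 2 := by positivity
  have hlog : (40507024 / 10000 : ℝ) ≤ 1058 * Real.log 46 := by
    have := log46
    norm_num at this ⊢
    linarith
  have hcon : ((LA : ℝ) + ε / 10 + (LB + ε / 10) + (LU + ε / 10) + (69 / 10 + ε / 10) -
      (1058 * Real.log 46 - 1587 - ε / 10) + ε / 10) * (n : ℝ) ^ 2 ≤ -(6199 / 10 - ε) * (n : ℝ) ^ 2 := by
    apply mul_le_mul_of_nonneg_right _ hn2.le
    linarith
  linarith

end

end Pool.Agent.Y801.Z5S
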