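import Pool.Agent.H336R2.Z5.ZP

/-!
# Irrationality measure of `ζ(5)`: p-adic bounds uniform in the rational parameter

The local bounds for `DET n u (mN n)` hold for all rational numbers `u` with `|u|_p ≤ 1`, and for the primes
`p < 12 n` even for `|u|_p ≤ p^5`: the fifth order poles contribute a factor `p^5`.
-/

open Polynomial Pool.Agent.H337R2 Pool.Agent.H336R2.Z5 Filter Topology

namespace Pool.Agent.Y801.Z5S

noncomputable section

section loc

variable {p : ℕ} [hp : Fact p.Prime]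

lemma xf_aux5 (n : ℕ) (u : ℚ) (hu : padicNorm p u ≤ (p : ℚ) ^ 5) (P : ℚ[X]) (W : ℚ) (hW : 0 ≤ W)
    (h1 : ∀ k ∈ sN n, padicNorm p (pa (sN n) (muN n) P k 5) ≤ W * ((p : ℚ) ^ 5)⁻¹)
    (h2 : ∀ k ∈ sN n, padicNorm p (∑ i ∈ Finset.Icc 1 6, pa (sN n) (muN n) P k i *
      (7 * hs i (k - 1) - ho i ((k : ℤ) - 4 * n))) ≤ W) :
    padicNorm p (xf n u P) ≤ W := by
  have hp0 : (0 : ℚ) < (p : ℚ) ^ 5 := by
    have : (0 : ℚ) < p := by exact_mod_cast hp.out.pos
    positivity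
  unfold xf
  refine padicNorm.sub.trans (max_le ?_ ?_)
  · rw [padicNorm.mul, padicNorm.mul]
    have e1 : padicNorm p (-24 : ℚ) ≤ 1 := by
      rw [padicNorm.neg]
      have := padicNorm.of_nat (p := p) 24
      exact_mod_cast this
    have e2 : padicNorm p (∑ k ∈ sN n, pa (sN n) (muN n) P k 5) ≤ W * ((p : ℚ) ^ 5)⁻¹ :=
      padicNorm.sum_le' h1 (mul_nonneg hW (inv_nonneg.2 hp0.le))
    calc _ ≤ (1 * (W * ((p : ℚ) ^ 5)⁻¹)) * (p : ℚ) ^ 5 := by
          apply mul_le_mul _ hu (padicNorm.nonneg _) (by positivity)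
          exact mul_le_mul e1 e2 (padicNorm.nonneg _) zero_le_one
      _ = W := by rw [one_mul, mul_assoc, inv_mul_cancel₀ hp0.ne', mul_one]
  · rw [Finset.sum_comm]
    exact padicNorm.sum_le' h2 hW

/-- all classes estimated by the left alternative, `|u|_p ≤ p^5` -/
theorem xf_le_all5 {n : ℕ} (hn : 1 ≤ n) (hp2 : 48 * n < p ^ 2) (u : ℚ)
    (hu : padicNorm p u ≤ (p : ℚ) ^ 5) (E : ℚ[X]) (W : ℚ) (hW : 0 ≤ W) (A : ℕ → ℚ) (hA : ∀ k, 0 ≤ A k)
    (hE : ∀ k ∈ Finset.Icc (3 * n) (21 * n), PB p (p : ℚ) (A k) (TS (-(k : ℚ)) E))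
    (h : ∀ k ∈ Finset.Icc (3 * n) (21 * n), (p : ℚ) ^ (-(eeN p n k)) * A k ≤ W) :
    padicNorm p (xf n u (PPn n * E)) ≤ W := by
  have hpo : p ≠ 2 := by
    rintro rfl
    omega
  have hp0 : (0 : ℚ) < p := by exact_mod_cast hp.out.pos
  apply xf_aux5 n u hu _ W hW
  · intro k hk
    by_cases hm : muN n k = 0
    · rw [pa_zero_of_mu (by norm_num) hm, padicNorm.zero]
      positivity
    have hkI := P1_mem_Icc hm
    refine (P1_pa_mul hn hp2 E hk (A k) (hA k) (hE k hkI) 5).trans ?_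
    have e1 : (p : ℚ) ^ (-(eeN p n k) - (5 : ℕ) : ℤ) = (p : ℚ) ^ (-(eeN p n k)) * ((p : ℚ) ^ 5)⁻¹ := by
      rw [zpow_sub₀ hp0.ne', zpow_natCast, div_eq_mul_inv]
    rw [e1]
    have h1 := h k hkI
    calc (p : ℚ) ^ (-(eeN p n k)) * ((p : ℚ) ^ 5)⁻¹ * A k =
          ((p : ℚ) ^ (-(eeN p n k)) * A k) * ((p : ℚ) ^ 5)⁻¹ := by ring
      _ ≤ W * ((p : ℚ) ^ 5)⁻¹ := mul_le_mul_of_nonneg_right h1 (by positivity)
  · intro k hk
    apply padicNorm.sum_le' _ hW
    intro i hi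
    rw [Finset.mem_Icc] at hi
    by_cases hm : muN n k = 0
    · rw [pa_zero_of_mu hi.1 hm, zero_mul, padicNorm.zero]
      exact hW
    have hkI := P1_mem_Icc hm
    exact (P1_left hn hp2 hpo E W (A k) (hA k) hk (hE k hkI) (h k hkI) i).2

theorem det_med5 {n : ℕ} (hn : 1 ≤ n) (hp2 : 48 * n < p ^ 2) (u : ℚ)
    (hu : padicNorm p u ≤ (p : ℚ) ^ 5) (m : ℕ) (μ : ℤ) :
    padicNorm p (DET n u m) ≤ (p : ℚ) ^ (m * μ + ∑ κ ∈ Kset n p, Pool.Agent.H336R2.Z5.TT (-(eeN p n κ) - μ)) := by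
  have hpp : p.Prime := Fact.out
  have hpo : p ≠ 2 := by
    rintro rfl
    omega
  have hp0 : (0 : ℚ) < p := by exact_mod_cast hpp.pos
  have hp1 : (1 : ℚ) ≤ p := by exact_mod_cast hpp.one_le
  have hKne : (Kset n p).Nonempty := ⟨kap n p 0, P1_kap_mem hpp.pos (Nat.zero_le _)⟩
  obtain ⟨κ, s, -, hs1, hs2, hs3⟩ := Pool.Agent.H336R2.HD.D1_greedy (Kset n p) hKne (fun k => -(eeN p n k)) μ m
  have hTT : ∀ y, Pool.Agent.H336R2.Z5.TT y = Pool.Agent.H336R2.HD.TT y := fun y => rfl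
  have hgoal : (p : ℚ) ^ (∑ i ∈ Finset.range m, s i) ≤
      (p : ℚ) ^ (m * μ + ∑ κ ∈ Kset n p, Pool.Agent.H336R2.Z5.TT (-(eeN p n κ) - μ)) := by
    apply zpow_le_zpow_right₀ hp1
    simp only [hTT]
    exact hs2
  have hst := P1_det_step (n := n) (p := p) 1 u m (fun i => ND n (fun l => 2 * κ l) i)
    (fun i _ => P1_ND n _ i) s
  rw [Nat.cast_one, one_pow, one_mul] at hst
  refine le_trans (hst ?_) hgoal
  intro i j _ _
  rw [one_mul]
  have hW : padicNorm p (xf n u (PPn n * EE n (ND n (fun l => 2 * κ l) i * ND n (fun l => 2 * κ l) j))) ≤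
      (p : ℚ) ^ ((s i + s j) / 2) := by
    refine xf_le_all5 hn hp2 u hu _ ((p : ℚ) ^ ((s i + s j) / 2)) (by positivity)
      (fun k => (p : ℚ)⁻¹ ^ ((Finset.range i).filter fun l => κ l = kap n p k).card *
        (p : ℚ)⁻¹ ^ ((Finset.range j).filter fun l => κ l = kap n p k).card)
      (fun k => by positivity) ?_ ?_
    · intro k hk
      have hk24 : k ≤ 24 * n := by
        have := (Finset.mem_Icc.1 hk).2
        omega
      have hdv : ∀ i' : ℕ, ∀ l ∈ (Finset.range i').filter (fun l => κ l = kap n p k),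
          (p : ℤ) ∣ ((2 * κ l : ℕ) : ℤ) - 2 * k ∨ (p : ℤ) ∣ ((2 * κ l : ℕ) : ℤ) + 2 * k - 48 * n := by
        intro i' l hl
        rw [Finset.mem_filter] at hl
        rcases P1_kap_dvd hk24 hl.2 with h | h
        · left
          have e : ((2 * κ l : ℕ) : ℤ) - 2 * k = 2 * ((κ l : ℤ) - k) := by push_cast; ring
          rw [e]
          exact Dvd.dvd.mul_left h 2
        · right
          have e : ((2 * κ l : ℕ) : ℤ) + 2 * k - 48 * n = 2 * ((κ l : ℤ) + k - 24 * n) := by push_cast; ring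
          rw [e]
          exact Dvd.dvd.mul_left h 2
      exact P1_EE_PB (p : ℚ) hp1 n k _ _ _ _ (by positivity) (by positivity)
        (P1_ND_PB hpo n k _ i _ (Finset.filter_subset _ _) (hdv i))
        (P1_ND_PB hpo n k _ j _ (Finset.filter_subset _ _) (hdv j))
    · intro k hk
      have hk24 : k ≤ 24 * n := by
        have := (Finset.mem_Icc.1 hk).2
        omega
      have h1 := P1_kap_mem (n := n) hpp.pos hk24
      have h2 := hs3 _ h1 i
      have h3 := hs3 _ h1 j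
      rw [P1_ee_kap hk24] at h2 h3
      set a := ((Finset.range i).filter fun l => κ l = kap n p k).card
      set b := ((Finset.range j).filter fun l => κ l = kap n p k).card
      have e : (p : ℚ) ^ (-(eeN p n k)) * ((p : ℚ)⁻¹ ^ a * (p : ℚ)⁻¹ ^ b) =
          (p : ℚ) ^ (-(eeN p n k) - a - b : ℤ) := by
        generalize -(eeN p n k) = z
        rw [zpow_sub₀ hp0.ne', zpow_sub₀ hp0.ne', zpow_natCast, zpow_natCast,
          inv_pow, inv_pow, div_eq_mul_inv, div_eq_mul_inv, mul_assoc]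
      rw [e]
      refine zpow_le_zpow_right₀ hp1 ?_
      omega
  calc padicNorm p (xf n u (PPn n * EE n (ND n (fun l => 2 * κ l) i * ND n (fun l => 2 * κ l) j))) ^ 2
      ≤ ((p : ℚ) ^ ((s i + s j) / 2)) ^ 2 := pow_le_pow_left₀ (padicNorm.nonneg _) hW 2
    _ = (p : ℚ) ^ ((s i + s j) / 2 * 2) := by
        rw [← zpow_natCast, ← zpow_mul]
        rfl
    _ ≤ (p : ℚ) ^ (s i + s j) := zpow_le_zpow_right₀ hp1 (by omega)
    _ = (p : ℚ) ^ (s i) * (p : ℚ) ^ (s j) := zpow_add₀ hp0.ne' _ _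

end loc

/-- a rational number with `|u|_p ≤ 1`: its denominator is a unit -/
lemma den_unit {p : ℕ} [hp : Fact p.Prime] (u : ℚ) (hu : padicNorm p u ≤ 1) : padicNorm p (u.den : ℚ) = 1 := by
  rw [padicNorm.nat_eq_one_iff]
  intro hd
  have h1 : ¬ (p : ℤ) ∣ u.num := by
    intro h2
    have h3 := u.reduced
    have h4 : p ∣ Nat.gcd u.num.natAbs u.den := Nat.dvd_gcd (Int.natCast_dvd.1 h2) hd
    rw [Nat.Coprime] at h3
    rw [h3] at h4
    exact hp.out.one_lt.ne' (Nat.dvd_one.1 h4)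
  have h2 : padicNorm p ((u.num : ℤ) : ℚ) = 1 := (padicNorm.int_eq_one_iff _).2 h1
  have h3 : padicNorm p (u.den : ℚ) < 1 := (padicNorm.nat_lt_one_iff _).2 hd
  have h4 : (0 : ℚ) < padicNorm p (u.den : ℚ) :=
    lt_of_le_of_ne (padicNorm.nonneg _) (Ne.symm (padicNorm.nonzero (by exact_mod_cast u.den_ne_zero)))
  have h5 : u = (u.num : ℚ) / (u.den : ℚ) := (Rat.num_div_den u).symm
  rw [h5, padicNorm.div, h2, div_le_one h4] at hu
  linarith

lemma uint_den (u : ℚ) : UInt u.den u :=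
  ⟨u.den_pos, u.num, by rw [mul_comm]; exact Rat.mul_den_eq_num u⟩

/-- the bound of the local factor at `p` -/
def BB (K0 : ℝ) (n p : ℕ) : ℝ :=
  if n < 20 * p then (if p < 34 * n then (p : ℝ) ^ (EW n p + K0) else 1) else P49.Bf n p

theorem P_unif : ∃ K0 : ℝ, 0 ≤ K0 ∧ ∀ n : ℕ, 20000 ≤ n → ∀ p : ℕ, p.Prime → ∀ u : ℚ,
    (padicNorm p u ≤ 1 ∨ (n < p ∧ p < 12 * n ∧ padicNorm p u ≤ (p : ℚ) ^ 5)) →
    ((padicNorm p (DET n u (mN n)) : ℚ) : ℝ) ≤ BB K0 n p := by
  obtain ⟨K1, hK1, h4⟩ := ZP.P4_padic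
  obtain ⟨K2, h5⟩ := P3_A
  refine ⟨max K1 K2, hK1.trans (le_max_left _ _), fun n hn p hp u hu => ?_⟩
  have : Fact p.Prime := ⟨hp⟩
  have hp1 : (1 : ℝ) ≤ p := by exact_mod_cast hp.one_lt.le
  unfold BB
  rcases hu with hu | ⟨hnp, hp12, hu⟩
  · have hd := den_unit u hu
    have hz : padicNorm p (((u.den : ℚ)) ^ (mN n) * DET n u (mN n)) = padicNorm p (DET n u (mN n)) := by
      rw [padicNorm.mul]
      have h6 : padicNorm p ((u.den : ℚ) ^ (mN n)) = 1 := by
        have h7 : ∀ k : ℕ, padicNorm p ((u.den : ℚ) ^ k) = 1 := by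
          intro k
          induction k with
          | zero => simp
          | succ k ih => rw [pow_succ, padicNorm.mul, ih, hd, one_mul]
        exact h7 _
      rw [h6, one_mul]
    by_cases h20 : n < 20 * p
    · rw [if_pos h20]
      have h8 := h4 n (by omega) p hp h20 (by nlinarith) u.den u (uint_den u)
      rw [hz] at h8
      by_cases h34 : p < 34 * n
      · rw [if_pos h34] at h8 ⊢
        refine h8.trans ?_
        apply Real.rpow_le_rpow_of_exponent_le hp1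
        have := le_max_left K1 K2
        linarith
      · rw [if_neg h34] at h8 ⊢
        exact h8
    · rw [if_neg h20]
      have h8 := P49.norm_le_Bf P2_small_med P2_small_crude n p (by omega) hp u.den u (uint_den u)
      rw [hz] at h8
      exact h8
  · have h20 : n < 20 * p := by omega
    rw [if_pos h20, if_pos (by omega)]
    have hp2 : 48 * n < p ^ 2 := by nlinarith
    have h6 := det_med5 (n := n) (p := p) (by omega) hp2 u hu (mN n) (1 + 2 * (rh n p : ℤ) - vv n p)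
    refine P4_to_rpow hp.one_lt.le h6 ?_
    have h7 := h5 n p hp (by omega) h20 hp12 hp2
    refine h7.trans ?_
    rw [EW, if_pos hp12]
    have := le_max_right K1 K2
    linarith

end

end Pool.Agent.Y801.Z5S
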