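import Pool.Agent.H336R2.Z5.P41

/-!
# Irrationality measure of `ζ(5)`: the choice of the prime parameter

Given a denominator `b`, the parameter `n` is the largest prime `≤ K log b` whose fifth power does not divide `b`.
-/

open Filter Topology

namespace Pool.Agent.Y801.Z5S

noncomputable section

lemma theta_diff {x y : ℝ} (hxy : x ≤ y) : Chebyshev.theta y - Chebyshev.theta x =
    ∑ p ∈ (Finset.Ioc ⌊x⌋₊ ⌊y⌋₊).filter Nat.Prime, Real.log p := by
  rw [← Pool.Agent.H336R2.Z5.sum_one x y hxy, Finset.sum_filter]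
  refine Finset.sum_congr rfl fun k _ => ?_
  unfold Pool.Agent.H336R2.Z5.pw
  rw [one_mul]

lemma prod_pow_dvd (S : Finset ℕ) (hS : ∀ p ∈ S, p.Prime) (b : ℕ) (h : ∀ p ∈ S, p ^ 5 ∣ b) :
    ∏ p ∈ S, p ^ 5 ∣ b := by
  apply Finset.prod_dvd_of_isRelPrime
  · intro p hp q hq hpq
    rw [Function.onFun, ← Nat.coprime_iff_isRelPrime]
    exact Nat.Coprime.pow _ _ ((Nat.coprime_primes (hS p hp) (hS q hq)).2 hpq)
  · exact h

theorem select (K s0 : ℝ) (hs0 : 0 < s0) (hs : s0 + 1 / 5 < K) (ε : ℝ) (hε : 0 < ε) :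
    ∃ L0 : ℝ, 0 < L0 ∧ ∀ b : ℕ, 0 < b → L0 ≤ Real.log b →
    ∃ n : ℕ, n.Prime ∧ s0 * Real.log b < n ∧ (n : ℝ) ≤ K * Real.log b ∧ ¬ n ^ 5 ∣ b ∧
      ∃ S : Finset ℕ, (∀ p ∈ S, p.Prime ∧ n < p ∧ (p : ℝ) ≤ K * Real.log b) ∧ ∏ p ∈ S, p ^ 5 ∣ b ∧
        K * Real.log b - n - ε * Real.log b ≤ ∑ p ∈ S, Real.log p := by
  have hK : 0 < K := by linarith
  set η : ℝ := min (ε / (2 * K)) ((K - s0 - 1 / 5) / (4 * K)) with hη
  have hη0 : 0 < η := by
    rw [hη]
    apply lt_min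
    · positivity
    · have : 0 < K - s0 - 1 / 5 := by linarith
      positivity
  have hη1 : η * (2 * K) ≤ ε := by
    have h1 : η ≤ ε / (2 * K) := min_le_left _ _
    rwa [le_div_iff₀ (by positivity)] at h1
  have hη2 : η * (4 * K) ≤ K - s0 - 1 / 5 := by
    have h1 : η ≤ (K - s0 - 1 / 5) / (4 * K) := min_le_right _ _
    rwa [le_div_iff₀ (by positivity)] at h1
  obtain ⟨T, hT, hth⟩ := Pool.Agent.H336R2.Z5.theta_sub_le η hη0
  refine ⟨T / s0 + 1, by positivity, fun b hb hL => ?_⟩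
  set L := Real.log b with hLdef
  have hL0 : 0 < L := lt_of_lt_of_le (by positivity) hL
  have hTs : T ≤ s0 * L := by
    have h1 : T / s0 ≤ L := by linarith
    rw [div_le_iff₀ hs0] at h1
    linarith
  have hKs : s0 * L ≤ K * L := by
    apply mul_le_mul_of_nonneg_right _ hL0.le
    linarith
  classical
  -- the primes up to `K L` whose fifth power does not divide `b`
  set G : Finset ℕ := (Finset.Ioc ⌊s0 * L⌋₊ ⌊K * L⌋₊).filter (fun p => p.Prime ∧ ¬ p ^ 5 ∣ b) with hG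
  have hGne : G.Nonempty := by
    by_contra hcon
    rw [Finset.not_nonempty_iff_eq_empty] at hcon
    set S : Finset ℕ := (Finset.Ioc ⌊s0 * L⌋₊ ⌊K * L⌋₊).filter Nat.Prime with hS
    have hS5 : ∀ p ∈ S, p ^ 5 ∣ b := by
      intro p hp
      by_contra h
      have : p ∈ G := by
        rw [hG, Finset.mem_filter]
        rw [hS, Finset.mem_filter] at hp
        exact ⟨hp.1, hp.2, h⟩
      rw [hcon] at this
      exact absurd this (Finset.notMem_empty p)
    have hd := prod_pow_dvd S (fun p hp => (Finset.mem_filter.1 hp).2) b hS5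
    have hle : ∏ p ∈ S, p ^ 5 ≤ b := Nat.le_of_dvd hb hd
    have hpos : ∀ p ∈ S, (0 : ℝ) < p := fun p hp => by exact_mod_cast (Finset.mem_filter.1 hp).2.pos
    have h1 : ((∏ p ∈ S, p ^ 5 : ℕ) : ℝ) = ∏ p ∈ S, (p : ℝ) ^ 5 := by push_cast; rfl
    have hlog : 5 * ∑ p ∈ S, Real.log p ≤ L := by
      have h2 : Real.log (∏ p ∈ S, (p : ℝ) ^ 5) = 5 * ∑ p ∈ S, Real.log p := by
        rw [Real.log_prod (fun p hp => (pow_pos (hpos p hp) 5).ne'), Finset.mul_sum]
        refine Finset.sum_congr rfl fun p _ => ?_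
        rw [Real.log_pow]
        norm_num
      rw [← h2, ← h1]
      apply Real.log_le_log
      · rw [h1]
        exact Finset.prod_pos fun p hp => pow_pos (hpos p hp) 5
      · exact_mod_cast hle
    rw [hS, ← theta_diff hKs] at hlog
    have h3 := abs_le.1 (hth (K * L) (hTs.trans hKs))
    have h4 := abs_le.1 (hth (s0 * L) hTs)
    have h5 : η * (s0 * L) ≤ η * (K * L) := mul_le_mul_of_nonneg_left hKs hη0.le
    have h6 : (η * (4 * K)) * L ≤ (K - s0 - 1 / 5) * L := mul_le_mul_of_nonneg_right hη2 hL0.le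
    have h7 : 0 < η * (K * L) := by positivity
    nlinarith [h3.1, h4.2]
  obtain ⟨n, hn, hmax⟩ := Finset.exists_max_image G (fun p => p) hGne
  rw [hG, Finset.mem_filter, Finset.mem_Ioc] at hn
  obtain ⟨⟨hn1, hn2⟩, hnp, hn5⟩ := hn
  have hn1' : s0 * L < n := (Nat.floor_lt (by positivity)).1 hn1
  have hn2' : (n : ℝ) ≤ K * L := (Nat.le_floor_iff (by positivity)).1 hn2
  refine ⟨n, hnp, hn1', hn2', hn5, (Finset.Ioc n ⌊K * L⌋₊).filter Nat.Prime, ?_, ?_, ?_⟩
  · intro p hp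
    rw [Finset.mem_filter, Finset.mem_Ioc] at hp
    exact ⟨hp.2, hp.1.1, (Nat.le_floor_iff (by positivity)).1 hp.1.2⟩
  · apply prod_pow_dvd _ fun p hp => (Finset.mem_filter.1 hp).2
    intro p hp
    rw [Finset.mem_filter, Finset.mem_Ioc] at hp
    by_contra h
    have hpG : p ∈ G := by
      rw [hG, Finset.mem_filter, Finset.mem_Ioc]
      exact ⟨⟨by omega, hp.1.2⟩, hp.2, h⟩
    have := hmax p hpG
    omega
  · have h1 := theta_diff (x := (n : ℝ)) (y := K * L) hn2'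
    rw [Nat.floor_natCast] at h1
    rw [← h1]
    have h3 := abs_le.1 (hth (K * L) (hTs.trans hKs))
    have h4 := abs_le.1 (hth n (hTs.trans hn1'.le))
    have h5 : η * (n : ℝ) ≤ η * (K * L) := mul_le_mul_of_nonneg_left hn2' hη0.le
    have h6 : (η * (2 * K)) * L ≤ ε * L := mul_le_mul_of_nonneg_right hη1 hL0.le
    nlinarith [h3.1, h4.2]

end

end Pool.Agent.Y801.Z5S
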