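import Pool.Agent.Y801.Z5S.GP6
import Pool.Agent.Y801.Z5S.FarB
import Pool.Agent.Y801.Z5S.GA1
import Pool.Agent.Y801.Z5S.MA

/-!
# The archimedean bound with arbitrary cells
-/

open Polynomial Pool.Agent.H337R2 Pool.Agent.H336R2.Z5 Pool.Agent.H312R.ZA Filter Topology

namespace Pool.Agent.Y801.Z5S

noncomputable section

/-- the potential -/
def VW (D : ℕ) (l : List (ℕ × ℕ × ℕ)) (v : ℝ) : ℝ := phi v + 2 * (J1 D (lT D l) (ff v) - 23 * Real.log 4)

/-- the archimedean constant -/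
def AW (D : ℕ) (l : List (ℕ × ℕ × ℕ)) (lam δ θ : ℝ) : ℝ :=
  10 * cph - J1 D (lS D) (HH 18) - J1 D (lS D) (HH 16) - J1 D (lS D) (HH 14) +
    J1 D (lT D l) (fun y => J1 D (lS D) (HH y)) - J1 D (lT D l) (fun y => J1 D l (HH y)) +
    69 * Real.log 4 + 13 * lam + δ * (30 - θ)

lemma poly_exp (C : ℝ) (hC : 0 < C) (K : ℕ) : ∃ c : ℝ, 0 ≤ c ∧ ∀ n : ℕ, 2 ≤ n →
    C * (n : ℝ) ^ K ≤ Real.exp (c * Real.log n) := by
  refine ⟨K + 2 * |Real.log C|, by positivity, fun n hn => ?_⟩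
  have hn0 : (0 : ℝ) < n := by exact_mod_cast (by omega : 0 < n)
  have hl := half_le_log hn
  have h1 : C = Real.exp (Real.log C) := (Real.exp_log hC).symm
  have h2 : (n : ℝ) ^ K = Real.exp (K * Real.log n) := by
    rw [← Real.log_pow, Real.exp_log (by positivity)]
  rw [h2]
  nth_rewrite 1 [h1]
  rw [← Real.exp_add]
  apply Real.exp_le_exp.2
  have h3 := le_abs_self (Real.log C)
  have h4 := abs_nonneg (Real.log C)
  nlinarith

lemma log4_lt : Real.log 4 ≤ 14 / 10 := by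
  have h1 : Real.log 4 = 2 * Real.log 2 := by
    rw [show (4 : ℝ) = 2 ^ 2 by norm_num, Real.log_pow]; norm_num
  have := Real.log_two_lt_d9
  linarith

section
variable {D : ℕ} {l : List (ℕ × ℕ × ℕ)} {C : ℝ} {n : ℕ} {Y : Finset ℕ}

lemma ND.disj (h : ND D l C n Y) : Disjoint (SS n) Y := by
  rw [Finset.disjoint_left]
  intro w hw hw2
  have a := SS_mem hw
  have b := h.bd w hw2
  omega

lemma ND.cardT (h : ND D l C n Y) (hn : 2 ≤ n) : (SS n ∪ Y).card = mN n := by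
  rw [Finset.card_union_of_disjoint h.disj, SS_card, h.card]
  unfold mN
  omega

lemma ND.cardR (h : ND D l C n Y) (hn : 2 ≤ n) : ((SS n ∪ Y).card : ℝ) = 23 * n - 23 := by
  rw [h.cardT hn]
  unfold mN
  push_cast [Nat.cast_sub (show 1 ≤ n by omega)]
  ring

lemma ND.bdT (h : ND D l C n Y) {w : ℕ} (hw : w ∈ SS n ∪ Y) : 16 * n < w ∧ w ≤ 700 * n := by
  rcases Finset.mem_union.1 hw with hw | hw
  · have := SS_mem hw; omega
  · have := h.bd w hw; omega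

/-- the logarithm of the products -/
lemma ND.logT (h : ND D l C n Y) (hn : 2 ≤ n) {w : ℕ} (hw : w ∈ SS n ∪ Y) :
    0 < LT n (SS n ∪ Y) w ∧ Real.log (LT n (SS n ∪ Y) w) = ∑ v ∈ SS n ∪ Y, gl w v - (23 * n - 24) * Real.log 4 ∧
    |Real.log (LT n (SS n ∪ Y) w) - (n * (J1 D (lT D l) (ff ((w : ℝ) / n)) - 23 * Real.log 4) + 46 * n * Real.log n)| ≤
      (C + 70) * Real.log n := by
  have h1 := log_prod_mem (n := n) hw
  have h2 := h.bdT hw
  have h3 := abs_le.1 (h.pot w (by omega) h2.2)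
  have hl := half_le_log hn
  have h4 := log4_lt
  have h40 : 0 ≤ Real.log 4 := Real.log_nonneg (by norm_num)
  have e : Real.log (LT n (SS n ∪ Y) w) = ∑ v ∈ SS n ∪ Y, gl w v - (23 * n - 24) * Real.log 4 := by
    unfold LT
    rw [h1.2, h.cardR hn]
    ring
  refine ⟨h1.1, e, ?_⟩
  rw [e, abs_le]
  constructor <;> nlinarith [h3.1, h3.2]

lemma ND.logP (h : ND D l C n Y) (hn : 2 ≤ n) {u : ℕ} (hu : u ∉ SS n ∪ Y) (hu1 : 1 ≤ u) (hu2 : u ≤ 700 * n) :
    0 < ∏ v ∈ SS n ∪ Y, |xu n u - xu n v| ∧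
    |Real.log (∏ v ∈ SS n ∪ Y, |xu n u - xu n v|) -
      (n * (J1 D (lT D l) (ff ((u : ℝ) / n)) - 23 * Real.log 4) + 46 * n * Real.log n)| ≤ (C + 70) * Real.log n := by
  have h1 := log_prod_notMem (n := n) hu
  have h3 := abs_le.1 (h.pot u hu1 hu2)
  have hl := half_le_log hn
  have h4 := log4_lt
  have h40 : 0 ≤ Real.log 4 := Real.log_nonneg (by norm_num)
  refine ⟨h1.1, ?_⟩
  rw [h1.2, h.cardR hn, abs_le]
  constructor <;> nlinarith [h3.1, h3.2]

end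

lemma Wt_zero {n s : ℕ} (h1 : us n s < 30 * n) (h2 : us n s ∉ SS n) : Wt n s = 0 := by
  have h16 : 16 * n < us n s := by unfold us; omega
  have h24 : us n s < 24 * n := by
    by_contra hcon
    exact h2 (SS_of_mid (by omega) h1)
  have hev : ¬ Even s := by
    intro he
    apply h2
    apply SS_of_odd h16 h24
    obtain ⟨t, ht⟩ := he
    exact ⟨8 * n + t, by unfold us; omega⟩
  unfold Wt
  have h8 : ¬ 8 * n ≤ s + 1 := by
    intro h8
    unfold us at h24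
    have hodd := Nat.not_even_iff_odd.1 hev
    obtain ⟨t, ht⟩ := hodd
    omega
  rw [if_neg hev, if_neg h8, zero_mul]

/-- hypotheses on the cells -/
structure Hyp (D : ℕ) (l : List (ℕ × ℕ × ℕ)) (lam δ θ : ℝ) : Prop where
  hlam : 1473 / 10 ≤ lam
  hδ : 0 ≤ δ
  hθ : θ ≤ 30
  up : ∀ v : ℝ, 30 ≤ v → v ≤ 700 → VW D l v ≤ lam
  lo : ∀ v : ℝ, 16 ≤ v → v ≤ 30 → lam ≤ VW D l v + (if θ ≤ v then δ else 0)

section
variable {D : ℕ} {l : List (ℕ × ℕ × ℕ)} {lam δ θ : ℝ} {C : ℝ} {n : ℕ} {Y : Finset ℕ}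

lemma card_top (hn : 2 ≤ n) (hθ : θ ≤ 30) : (((SS n).filter fun w : ℕ => θ ≤ (w : ℝ) / n).card : ℝ) ≤ (30 - θ) * n + 1 := by
  have hn0 : (0 : ℝ) < n := by exact_mod_cast (by omega : 0 < n)
  have hsub : (SS n).filter (fun w : ℕ => θ ≤ (w : ℝ) / n) ⊆ Finset.Ico ⌈θ * n⌉₊ (30 * n) := by
    intro w hw
    rw [Finset.mem_filter] at hw
    rw [Finset.mem_Ico]
    refine ⟨?_, (SS_mem hw.1).2.1⟩
    apply Nat.ceil_le.2
    have := hw.2
    rwa [le_div_iff₀ hn0] at this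
  have h1 := Finset.card_le_card hsub
  rw [Nat.card_Ico] at h1
  have h2 : θ * n ≤ (⌈θ * n⌉₊ : ℝ) := Nat.le_ceil _
  rcases le_or_gt ⌈θ * n⌉₊ (30 * n) with h3 | h3
  · have h4 : (((SS n).filter fun w : ℕ => θ ≤ (w : ℝ) / n).card : ℝ) ≤ ((30 * n - ⌈θ * n⌉₊ : ℕ) : ℝ) := by
      exact_mod_cast h1
    rw [Nat.cast_sub h3] at h4
    push_cast at h4
    linarith
  · have h4 : ((SS n).filter fun w : ℕ => θ ≤ (w : ℝ) / n).card = 0 := by omega
    rw [h4]
    push_cast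
    have : 0 ≤ (30 - θ) * n := mul_nonneg (by linarith) hn0.le
    linarith

/-- logarithms of the two kinds of factors -/
lemma sat_factor {W L MM nφ X : ℝ} {c2 c3 C' lg dn : ℝ} (hlg : 1 / 2 ≤ lg) (hC' : 0 ≤ C') (hc3 : c2 ≤ c3) (hc2 : 0 ≤ c2)
    (hdn : 0 ≤ dn) (hL : 0 < L) (hMM : MM = Real.exp (c3 * lg + X))
    (hW : W ≤ Real.exp (c2 * lg + nφ)) (hX : X ≤ nφ + 2 * Real.log L + 2 * C' * lg + dn) (hW0 : 0 ≤ W) :
    0 < W * L ^ 2 + MM ∧ Real.log (W * L ^ 2 + MM) ≤ nφ + 2 * Real.log L + dn + (c3 + 2 * C' + 2) * lg := by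
  have hMM0 : 0 < MM := by rw [hMM]; exact Real.exp_pos _
  have hpos : 0 < W * L ^ 2 + MM := by positivity
  refine ⟨hpos, ?_⟩
  rw [← Real.log_exp (nφ + 2 * Real.log L + dn + (c3 + 2 * C' + 2) * lg)]
  apply Real.log_le_log hpos
  have e1 : L ^ 2 = Real.exp (2 * Real.log L) := by
    rw [show 2 * Real.log L = Real.log (L ^ 2) by rw [Real.log_pow]; norm_num, Real.exp_log (by positivity)]
  set E := Real.exp (nφ + 2 * Real.log L + dn + (c3 + 2 * C') * lg) with hE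
  have a1 : W * L ^ 2 ≤ E := by
    calc W * L ^ 2 ≤ Real.exp (c2 * lg + nφ) * L ^ 2 := mul_le_mul_of_nonneg_right hW (by positivity)
      _ = Real.exp (c2 * lg + nφ + 2 * Real.log L) := by rw [e1, ← Real.exp_add]
      _ ≤ E := by
          apply Real.exp_le_exp.2
          have h1 : c2 * lg ≤ c3 * lg := mul_le_mul_of_nonneg_right hc3 (by linarith)
          have h2 : 0 ≤ 2 * C' * lg := by positivity
          nlinarith
  have a2 : MM ≤ E := by
    rw [hMM]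
    apply Real.exp_le_exp.2
    nlinarith
  have a3 : (2 : ℝ) ≤ Real.exp (2 * lg) := by
    have := Real.add_one_le_exp (2 * lg)
    linarith
  calc W * L ^ 2 + MM ≤ 2 * E := by linarith
    _ ≤ Real.exp (2 * lg) * E := mul_le_mul_of_nonneg_right a3 (Real.exp_pos _).le
    _ = _ := by
        rw [hE, ← Real.exp_add]
        congr 1
        ring

end

end

end Pool.Agent.Y801.Z5S
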