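import Mathlib

/-!
# p-adic interpolation at the integers `0, …, d`
-/

open Polynomial

namespace Pool.Agent.Y801.Z5S

lemma prod_erase_eq (d j : ℕ) (hj : j ≤ d) :
    ∏ i ∈ (Finset.range (d + 1)).erase j, ((j : ℚ) - i) = (-1) ^ (d - j) * (j.factorial * (d - j).factorial : ℕ) := by
  have h1 : (Finset.range (d + 1)).erase j = Finset.range j ∪ Finset.Ico (j + 1) (d + 1) := by
    ext i
    simp only [Finset.mem_erase, Finset.mem_range, Finset.mem_union, Finset.mem_Ico]
    omega
  have h2 : Disjoint (Finset.range j) (Finset.Ico (j + 1) (d + 1)) := by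
    rw [Finset.disjoint_left]
    intro i hi hi2
    rw [Finset.mem_range] at hi
    rw [Finset.mem_Ico] at hi2
    omega
  rw [h1, Finset.prod_union h2]
  have h3 : ∏ i ∈ Finset.range j, ((j : ℚ) - i) = (j.factorial : ℚ) := by
    rw [← Finset.prod_range_reflect, ← Finset.prod_range_add_one_eq_factorial]
    push_cast
    refine Finset.prod_congr rfl fun i hi => ?_
    rw [Finset.mem_range] at hi
    have : ((j - 1 - i : ℕ) : ℚ) = (j : ℚ) - 1 - i := by
      rw [Nat.cast_sub (by omega), Nat.cast_sub (by omega)]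
      simp
    rw [this]
    ring
  have h4 : ∏ i ∈ Finset.Ico (j + 1) (d + 1), ((j : ℚ) - i) = (-1) ^ (d - j) * ((d - j).factorial : ℚ) := by
    rw [Finset.prod_Ico_eq_prod_range]
    have e : d + 1 - (j + 1) = d - j := by omega
    rw [e, ← Finset.prod_range_add_one_eq_factorial]
    push_cast
    have h5 : ∀ i ∈ Finset.range (d - j), ((j : ℚ) - ((j : ℚ) + 1 + i)) = (-1) * ((i : ℚ) + 1) := by
      intro i _
      ring
    rw [Finset.prod_congr rfl h5, Finset.prod_mul_distrib, Finset.prod_const, Finset.card_range]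
  rw [h3, h4]
  push_cast
  ring

lemma norm_prod_le_one {p : ℕ} [Fact p.Prime] {ι : Type} (s : Finset ι) (f : ι → ℚ)
    (h : ∀ i ∈ s, padicNorm p (f i) ≤ 1) : padicNorm p (∏ i ∈ s, f i) ≤ 1 := by
  classical
  induction s using Finset.induction_on with
  | empty => simp
  | insert a s ha ih =>
    rw [Finset.prod_insert ha, padicNorm.mul]
    exact mul_le_one₀ (h a (Finset.mem_insert_self _ _)) (padicNorm.nonneg _)
      (ih fun i hi => h i (Finset.mem_insert_of_mem hi))

/-- a polynomial of degree at most `d` at a rational point, from its values at `0, …, d` -/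
theorem interp {p : ℕ} [Fact p.Prime] (P : ℚ[X]) (d : ℕ) (hd : P.natDegree ≤ d) (b z : ℚ)
    (hb : padicNorm p b ≤ 1) (hbz : padicNorm p (b * z) ≤ 1) :
    ∃ j : ℕ, padicNorm p ((d.factorial : ℚ) * b ^ d * P.eval z) ≤ padicNorm p (P.eval (j : ℚ)) := by
  obtain ⟨j0, hj0, hmax⟩ := Finset.exists_max_image (Finset.range (d + 1))
    (fun j : ℕ => padicNorm p (P.eval (j : ℚ))) ⟨0, Finset.mem_range.2 (Nat.succ_pos d)⟩
  refine ⟨j0, ?_⟩
  have hinj : Set.InjOn (fun j : ℕ => (j : ℚ)) (Finset.range (d + 1) : Finset ℕ) := by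
    intro a _ c _ h
    have h' : (a : ℚ) = (c : ℚ) := h
    exact_mod_cast h'
  have hdeg : P.degree < ((Finset.range (d + 1)).card : WithBot ℕ) := by
    rw [Finset.card_range]
    refine lt_of_le_of_lt Polynomial.degree_le_natDegree ?_
    exact_mod_cast Nat.lt_succ_of_le hd
  have hP := Lagrange.eq_interpolate hinj hdeg
  have hev : P.eval z = ∑ j ∈ Finset.range (d + 1), P.eval (j : ℚ) *
      ∏ i ∈ (Finset.range (d + 1)).erase j, (((j : ℚ) - i)⁻¹ * (z - i)) := by
    conv_lhs => rw [hP]
    rw [Lagrange.interpolate_apply, Polynomial.eval_finsetSum]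
    refine Finset.sum_congr rfl fun j _ => ?_
    rw [Polynomial.eval_mul, Polynomial.eval_C, Lagrange.basis, Polynomial.eval_prod]
    congr 1
    refine Finset.prod_congr rfl fun i _ => ?_
    rw [Lagrange.basisDivisor]
    simp
  rw [hev, Finset.mul_sum]
  apply padicNorm.sum_le' _ (padicNorm.nonneg _)
  intro j hj
  have hjd : j ≤ d := by
    rw [Finset.mem_range] at hj
    omega
  refine le_trans ?_ (hmax j hj)
  have hcard : ((Finset.range (d + 1)).erase j).card = d := by
    rw [Finset.card_erase_of_mem hj, Finset.card_range]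
    omega
  have hfac : (j.factorial * (d - j).factorial : ℕ) * d.choose j = d.factorial := by
    have := Nat.choose_mul_factorial_mul_factorial hjd
    rw [← this]
    ring
  have hfacQ : ((j.factorial * (d - j).factorial : ℕ) : ℚ) ≠ 0 := by
    exact_mod_cast (Nat.mul_pos j.factorial_pos (d - j).factorial_pos).ne'
  have e1 : (d.factorial : ℚ) * b ^ d * (P.eval (j : ℚ) *
      ∏ i ∈ (Finset.range (d + 1)).erase j, (((j : ℚ) - i)⁻¹ * (z - i))) =
      P.eval (j : ℚ) * (((-1) ^ (d - j) * ((d.choose j : ℕ) : ℚ)) *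
        ∏ i ∈ (Finset.range (d + 1)).erase j, (b * z - b * i)) := by
    have e2 : ∏ i ∈ (Finset.range (d + 1)).erase j, (b * z - b * i) =
        b ^ d * ∏ i ∈ (Finset.range (d + 1)).erase j, (z - i) := by
      have e3 : ∏ i ∈ (Finset.range (d + 1)).erase j, (b * z - b * i) =
          ∏ i ∈ (Finset.range (d + 1)).erase j, (b * (z - i)) :=
        Finset.prod_congr rfl fun i _ => by ring
      rw [e3, Finset.prod_mul_distrib, Finset.prod_const, hcard]
    rw [e2, Finset.prod_mul_distrib, Finset.prod_inv_distrib, prod_erase_eq d j hjd, ← hfac]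
    have h1 : ((-1 : ℚ) ^ (d - j)) * (-1) ^ (d - j) = 1 := by
      rw [← mul_pow]; norm_num
    have h2 : ((-1 : ℚ) ^ (d - j)) ≠ 0 := pow_ne_zero _ (by norm_num)
    push_cast at hfacQ ⊢
    field_simp
    linear_combination (-(b ^ d) * P.eval (j : ℚ) * (d.choose j : ℚ) *
      ∏ i ∈ (Finset.range (d + 1)).erase j, (z - (i : ℚ))) * h1
  rw [e1, padicNorm.mul]
  have h3 : padicNorm p (((-1) ^ (d - j) * ((d.choose j : ℕ) : ℚ)) *
        ∏ i ∈ (Finset.range (d + 1)).erase j, (b * z - b * i)) ≤ 1 := by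
    rw [padicNorm.mul]
    apply mul_le_one₀ _ (padicNorm.nonneg _)
    · apply norm_prod_le_one
      intro i _
      refine padicNorm.sub.trans (max_le hbz ?_)
      rw [padicNorm.mul]
      exact mul_le_one₀ hb (padicNorm.nonneg _) (padicNorm.of_nat i)
    · have e4 : ((-1 : ℚ) ^ (d - j) * ((d.choose j : ℕ) : ℚ)) = (((-1) ^ (d - j) * (d.choose j : ℤ) : ℤ) : ℚ) := by
        push_cast
        ring
      rw [e4]
      exact padicNorm.of_int _
  calc _ ≤ padicNorm p (P.eval (j : ℚ)) * 1 := mul_le_mul_of_nonneg_left h3 (padicNorm.nonneg _)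
    _ = _ := mul_one _

end Pool.Agent.Y801.Z5S
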