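import Pool.Agent.Y801.Z5S.GP7
import Pool.Agent.H312R.PC.PsiCert3

/-!
# Numerical certificates: the potential and the energies
-/

open Pool.Agent.H312R.ZA

namespace Pool.Agent.Y801.Z5S

noncomputable section

open Pool.Agent.H312R.PC (EF EF_cons EF_nil EF_append lnA lnA_spec lnE chk)

/-- the list of `φ` -/
def phl (D M : ℕ) : List (ℤ × ℤ) :=
  [(-(D : ℤ), -(18 * M : ℤ)), ((D : ℤ), (18 * M : ℤ)), (-(D : ℤ), -(16 * M : ℤ)), ((D : ℤ), (16 * M : ℤ)),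
    (-(D : ℤ), -(14 * M : ℤ)), ((D : ℤ), (14 * M : ℤ))]

/-- the list of the cells -/
def bld (M : ℕ) : List (ℕ × ℕ × ℕ) → List (ℤ × ℤ)
  | [] => []
  | c :: l => (2 * (c.2.2 : ℤ), -((c.2.1 * M : ℕ) : ℤ)) :: (-(2 * (c.2.2 : ℤ)), ((c.2.1 * M : ℕ) : ℤ)) ::
      (-(2 * (c.2.2 : ℤ)), -((c.1 * M : ℕ) : ℤ)) :: (2 * (c.2.2 : ℤ), ((c.1 * M : ℕ) : ℤ)) :: bld M l

lemma PCPsi (z : ℝ) : Pool.Agent.H312R.PC.Psi z = Psi z := rfl

lemma EF_bld {D M : ℕ} (hM : 0 < M) (l : List (ℕ × ℕ × ℕ)) (v : ℝ) : EF D M (bld M l) v = 2 * J1 D l (ff v) := by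
  have hM0 : (M : ℝ) ≠ 0 := by exact_mod_cast hM.ne'
  induction l with
  | nil => simp [bld, EF_nil, J1_nil]
  | cons c l ih =>
    rw [bld, EF_cons, EF_cons, EF_cons, EF_cons, ih, J1_cons]
    simp only [PCPsi]
    have e1 : v - ((-((c.2.1 * M : ℕ) : ℤ) : ℤ) : ℝ) / M = v + c.2.1 := by push_cast; field_simp; ring
    have e2 : v - ((((c.2.1 * M : ℕ) : ℤ) : ℤ) : ℝ) / M = v - c.2.1 := by push_cast; field_simp
    have e3 : v - ((-((c.1 * M : ℕ) : ℤ) : ℤ) : ℝ) / M = v + c.1 := by push_cast; field_simp; ring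
    have e4 : v - ((((c.1 * M : ℕ) : ℤ) : ℤ) : ℝ) / M = v - c.1 := by push_cast; field_simp
    rw [e1, e2, e3, e4]
    unfold ff
    push_cast
    ring

lemma EF_phl {D M : ℕ} (hD : 0 < D) (hM : 0 < M) (v : ℝ) : cph + EF D M (phl D M) v = phi v := by
  have hM0 : (M : ℝ) ≠ 0 := by exact_mod_cast hM.ne'
  have hD0 : (D : ℝ) ≠ 0 := by exact_mod_cast hD.ne'
  unfold phl
  simp only [EF_cons, EF_nil, PCPsi]
  have e : ∀ b : ℕ, v - ((-((b : ℤ) * (M : ℤ)) : ℤ) : ℝ) / M = v + b ∧ v - ((((b : ℤ) * (M : ℤ)) : ℤ) : ℝ) / M = v - b := by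
    intro b
    constructor
    · push_cast; field_simp; ring
    · push_cast; field_simp
  have e18 := e 18
  have e16 := e 16
  have e14 := e 14
  push_cast at e18 e16 e14
  have hDD : ((D : ℤ) : ℝ) / D = 1 := by push_cast; field_simp
  have hDD' : ((-(D : ℤ) : ℤ) : ℝ) / D = -1 := by push_cast; field_simp
  rw [hDD, hDD']
  push_cast
  rw [e18.1, e18.2, e16.1, e16.2, e14.1, e14.2]
  unfold cph phi ff
  ring

/-- insertion of a term -/
def ins (s : ℤ × ℤ) : List (ℤ × ℤ) → List (ℤ × ℤ)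
  | [] => [s]
  | t :: l => if s.2 = t.2 then (s.1 + t.1, t.2) :: l else t :: ins s l

/-- collecting the terms -/
def mrg : List (ℤ × ℤ) → List (ℤ × ℤ)
  | [] => []
  | s :: l => ins s (mrg l)

lemma EF_ins (D M : ℕ) (s : ℤ × ℤ) (l : List (ℤ × ℤ)) (v : ℝ) : EF D M (ins s l) v = EF D M (s :: l) v := by
  induction l with
  | nil => rfl
  | cons t l ih =>
    rw [ins]
    split_ifs with h
    · rw [EF_cons, EF_cons, EF_cons, h]
      push_cast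
      ring
    · rw [EF_cons, ih, EF_cons, EF_cons, EF_cons]
      ring

lemma EF_mrg (D M : ℕ) (l : List (ℤ × ℤ)) (v : ℝ) : EF D M (mrg l) v = EF D M l v := by
  induction l with
  | nil => rfl
  | cons s l ih => rw [mrg, EF_ins, EF_cons, EF_cons, ih]

/-- the potential as a combination of `Ψ` -/
theorem VW_eq {D M : ℕ} (hD : 0 < D) (hM : 0 < M) (l : List (ℕ × ℕ × ℕ)) (v : ℝ) :
    VW D l v = (cph - 46 * Real.log 4) + EF D M (mrg (phl D M ++ bld M (lT D l))) v := by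
  rw [EF_mrg, EF_append, EF_bld hM]
  unfold VW
  rw [← EF_phl hD hM]
  ring

/-- checking a chain of intervals -/
def chkL (M : ℕ) (l : List (ℤ × ℤ)) (A : ℤ) : ℤ → List ℤ → Bool
  | _, [] => true
  | x, d :: r => chk M l A d 1 x && chkL M l A (x + d) r

/-- the end of the chain -/
def endL : ℤ → List ℤ → ℤ
  | x, [] => x
  | x, d :: r => endL (x + d) r

theorem chkL_spec {D M : ℕ} (hD : 0 < D) (hM : 1 ≤ M) (hM2 : M < 2 ^ 20) {l : List (ℤ × ℤ)} {A : ℤ}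
    (a : ℝ) (hA : (A : ℝ) ≤ a * (10 ^ 12 * D * M)) (r : List ℤ) :
    ∀ x : ℤ, r ≠ [] → chkL M l A x r = true → ∀ v : ℝ, (x : ℝ) / M ≤ v → v ≤ (endL x r : ℝ) / M → EF D M l v ≤ a := by
  induction r with
  | nil => intro x h; exact absurd rfl h
  | cons d r ih =>
    intro x _ h v h0 h1
    simp only [chkL, Bool.and_eq_true] at h
    have hM0 : (0 : ℝ) < M := by exact_mod_cast hM
    rcases le_or_gt v (((x + d : ℤ) : ℝ) / M) with hv | hv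
    · refine Pool.Agent.H312R.PC.EF_le hD hM hM2 a hA (st := d) (c := 1) one_ne_zero (x0 := x) h.1 v h0 ?_
      refine hv.trans (le_of_eq ?_)
      push_cast
      ring
    · cases r with
      | nil =>
        simp only [endL] at h1
        exact absurd h1 (not_le.2 hv)
      | cons d' r' => exact ih (x + d) (by simp) h.2 v hv.le h1

/-! ### energies -/

/-- `J1` in integers, not divided by `D` -/
def JI (l : List (ℕ × ℕ × ℕ)) (F : ℤ → ℤ) : ℤ := (l.map fun c => (c.2.2 : ℤ) * (F c.2.1 - F c.1)).sum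

/-- the error -/
def JE (l : List (ℕ × ℕ × ℕ)) (F : ℤ → ℤ) : ℤ := (l.map fun c => (c.2.2 : ℤ) * (F c.2.1 + F c.1)).sum

lemma J1_approx {D : ℕ} (hD : 0 < D) (a : ℝ) (l : List (ℕ × ℕ × ℕ)) (hl : endsOK l) (F : ℝ → ℝ) (FI E : ℤ → ℤ)
    (h : ∀ y : ℕ, y ≤ 700 → |a * F y - ((FI y : ℤ) : ℝ)| ≤ ((E y : ℤ) : ℝ)) :
    |a * D * J1 D l F - ((JI l FI : ℤ) : ℝ)| ≤ ((JE l E : ℤ) : ℝ) := by
  have hD0 : (D : ℝ) ≠ 0 := by exact_mod_cast hD.ne'
  induction l with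
  | nil => simp [J1_nil, JI, JE]
  | cons c l ih =>
    have ih' := abs_le.1 (ih (fun d hd => hl d (List.mem_cons_of_mem _ hd)))
    have hc := hl c List.mem_cons_self
    have h1 := abs_le.1 (h c.1 hc.1)
    have h2 := abs_le.1 (h c.2.1 hc.2)
    have e1 : JI (c :: l) FI = (c.2.2 : ℤ) * (FI c.2.1 - FI c.1) + JI l FI := by
      unfold JI; rw [List.map_cons, List.sum_cons]
    have e2 : JE (c :: l) E = (c.2.2 : ℤ) * (E c.2.1 + E c.1) + JE l E := by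
      unfold JE; rw [List.map_cons, List.sum_cons]
    have hk : (0 : ℝ) ≤ (c.2.2 : ℝ) := Nat.cast_nonneg _
    rw [J1_cons, e1, e2]
    have e3 : a * D * ((c.2.2 : ℝ) * (F c.2.1 - F c.1) / D + J1 D l F) =
        (c.2.2 : ℝ) * (a * F c.2.1 - a * F c.1) + a * D * J1 D l F := by
      field_simp
    rw [e3]
    push_cast
    have m1 : (c.2.2 : ℝ) * ((a * F c.2.1 - FI c.2.1) - (a * F c.1 - FI c.1)) ≤ (c.2.2 : ℝ) * (E c.2.1 + E c.1) :=
      mul_le_mul_of_nonneg_left (by linarith [h1.1, h2.2]) hk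
    have m2 : (c.2.2 : ℝ) * (-(E c.2.1 + E c.1)) ≤ (c.2.2 : ℝ) * ((a * F c.2.1 - FI c.2.1) - (a * F c.1 - FI c.1)) :=
      mul_le_mul_of_nonneg_left (by linarith [h1.2, h2.1]) hk
    rw [abs_le]
    constructor <;> nlinarith [ih'.1, ih'.2]

/-- `4 · 10^12 · GG z` without the quadratic term -/
def GI (z : ℤ) : ℤ := 2 * z ^ 2 * lnA z.natAbs

/-- `4 · 10^12 · HH t y` -/
def HI (t y : ℤ) : ℤ := GI (y + t) - GI (y - t) - 12000000000000 * t * y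

/-- the error of `HI` -/
def HE (t y : ℤ) : ℤ := 4 * (t ^ 2 + y ^ 2) * lnE

lemma GI_spec (z : ℤ) (hz : |z| < 1048576) :
    |4 * 10 ^ 12 * GG z + 3 * 10 ^ 12 * (z : ℝ) ^ 2 - GI z| ≤ 2 * (z : ℝ) ^ 2 * lnE := by
  rcases eq_or_ne z 0 with h0 | h0
  · subst h0
    simp [GG, GI]
  have h1 : 1 ≤ z.natAbs := Int.natAbs_pos.2 h0
  have h2 : z.natAbs < 2 ^ 20 := by
    have : (z.natAbs : ℤ) < 1048576 := by rw [Int.natCast_natAbs]; exact hz
    norm_num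
    omega
  have h3 := abs_le.1 (lnA_spec z.natAbs h1 h2)
  have h4 : ((z.natAbs : ℕ) : ℝ) = |(z : ℝ)| := by rw [Nat.cast_natAbs]; push_cast; rfl
  rw [h4, Real.log_abs] at h3
  unfold GG GI
  push_cast
  have e : 4 * 10 ^ 12 * ((z : ℝ) ^ 2 / 2 * Real.log z - 3 * (z : ℝ) ^ 2 / 4) + 3 * 10 ^ 12 * (z : ℝ) ^ 2 -
      2 * (z : ℝ) ^ 2 * (lnA z.natAbs : ℝ) = 2 * (z : ℝ) ^ 2 * (10 ^ 12 * Real.log z - lnA z.natAbs) := by ring
  rw [e, abs_mul, abs_of_nonneg (by positivity : (0 : ℝ) ≤ 2 * (z : ℝ) ^ 2)]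
  apply mul_le_mul_of_nonneg_left _ (by positivity)
  rw [abs_le]
  push_cast at h3
  constructor <;> linarith [h3.1, h3.2]

lemma HI_spec {t y : ℕ} (ht : t ≤ 700) (hy : y ≤ 700) :
    |4 * 10 ^ 12 * HH t y - ((HI t y : ℤ) : ℝ)| ≤ ((HE t y : ℤ) : ℝ) := by
  have h1 := abs_le.1 (GI_spec ((y : ℤ) + t) (by rw [abs_lt]; constructor <;> omega))
  have h2 := abs_le.1 (GI_spec ((y : ℤ) - t) (by rw [abs_lt]; constructor <;> omega))
  unfold HH HI HE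
  push_cast at h1 h2 ⊢
  rw [abs_le]
  constructor <;> nlinarith [h1.1, h1.2, h2.1, h2.2]

/-- `∑ κ HH t (·)` -/
lemma JH_spec {D : ℕ} (hD : 0 < D) (l : List (ℕ × ℕ × ℕ)) (hl : endsOK l) {t : ℕ} (ht : t ≤ 700) :
    |4 * 10 ^ 12 * D * J1 D l (HH t) - ((JI l (HI t) : ℤ) : ℝ)| ≤ ((JE l (HE t) : ℤ) : ℝ) :=
  J1_approx hD (4 * 10 ^ 12) l hl (HH t) (HI t) (HE t) fun _ hy => HI_spec ht hy

/-- the double sum -/
lemma JJ_spec {D : ℕ} (hD : 0 < D) (l l' : List (ℕ × ℕ × ℕ)) (hl : endsOK l) (hl' : endsOK l') :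
    |4 * 10 ^ 12 * D * D * J1 D l' (fun t => J1 D l (HH t)) - ((JI l' (fun t => JI l (HI t)) : ℤ) : ℝ)| ≤
      ((JE l' (fun t => JE l (HE t)) : ℤ) : ℝ) := by
  have h := J1_approx hD (4 * 10 ^ 12 * D) l' hl' (fun t => J1 D l (HH t)) (fun t => JI l (HI t))
    (fun t => JE l (HE t)) (fun y hy => by
      exact JH_spec hD l hl hy)
  exact h

/-- `10^12 Ψ` -/
def PI' (z : ℤ) : ℤ := z * lnA z.natAbs - 1000000000000 * z

lemma PI_spec {z : ℕ} (hz : z ≤ 700) :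
    |10 ^ 12 * Psi z - ((PI' z : ℤ) : ℝ)| ≤ (((z : ℤ) * lnE : ℤ) : ℝ) := by
  rcases Nat.eq_zero_or_pos z with h0 | h0
  · subst h0
    simp [Psi, PI']
  have h3 := abs_le.1 (lnA_spec z h0 (by omega))
  unfold Psi PI'
  rw [Int.natAbs_natCast]
  push_cast at h3 ⊢
  have e : (10 : ℝ) ^ 12 * ((z : ℝ) * Real.log z - z) - (z * (lnA z : ℝ) - 1000000000000 * z) =
      z * (10 ^ 12 * Real.log z - lnA z) := by ring
  have hz0 : (0 : ℝ) ≤ z := Nat.cast_nonneg z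
  rw [e, abs_mul, abs_of_nonneg hz0]
  apply mul_le_mul_of_nonneg_left _ hz0
  rw [abs_le]
  constructor <;> linarith [h3.1, h3.2]

lemma JP_spec {D : ℕ} (hD : 0 < D) (l : List (ℕ × ℕ × ℕ)) (hl : endsOK l) :
    |10 ^ 12 * D * J1 D l Psi - ((JI l PI' : ℤ) : ℝ)| ≤ ((JE l (fun z => z * lnE) : ℤ) : ℝ) :=
  J1_approx hD (10 ^ 12) l hl Psi PI' (fun z => z * lnE) fun _ hz => PI_spec hz

end

end Pool.Agent.Y801.Z5S
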