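import Pool.Agent.H336R2.Z5M.Rho

/-!
# Irrationality measure of `ζ(5)`: sharp bound for the coefficient of `ζ(5)`, arbitrary nodes
-/

open Polynomial Pool.Agent.H337R2 Pool.Agent.H336R2.Z5 Pool.Agent.H312R.ZA Pool.Agent.H336R2.Z5M

namespace Pool.Agent.Y801.Z5S

noncomputable section

lemma N1_node' {n k u : ℕ} (hn : 1 ≤ n) (h5 : 5 * n ≤ k) (h19 : k ≤ 19 * n) (hu : 16 * n < u) :
    N1 (TS (-(k : ℚ)) (xp n - C (xq n u))) ≤ ((u : ℚ) ^ 2 / 4) * (1 + 1 / (4 * n)) := by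
  have hn0 : (0 : ℚ) < n := by exact_mod_cast hn
  have h5' : 5 * (n : ℚ) ≤ k := by exact_mod_cast h5
  have h19' : (k : ℚ) ≤ 19 * n := by exact_mod_cast h19
  have hu' : 16 * (n : ℚ) < u := by exact_mod_cast hu
  have e : TS (-(k : ℚ)) (xp n - C (xq n u)) =
      (PowerSeries.X + PowerSeries.C (-(k : ℚ))) * (PowerSeries.X + PowerSeries.C (24 * n - k : ℚ)) -
        PowerSeries.C (xq n u) := by
    unfold xp
    rw [map_sub, map_mul, TS_X, map_add, TS_X, TS_C, TS_C]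
    have e1 : PowerSeries.C (24 * n - k : ℚ) = PowerSeries.C (-(k : ℚ)) + PowerSeries.C ((24 * n : ℕ) : ℚ) := by
      rw [← map_add]
      congr 1
      push_cast
      ring
    rw [e1]
    ring
  have e2 : TS (-(k : ℚ)) (xp n - C (xq n u)) =
      PowerSeries.X ^ 2 + PowerSeries.C (24 * n - 2 * k : ℚ) * PowerSeries.X +
        PowerSeries.C (((24 * n - 2 * k : ℚ) ^ 2 - u ^ 2) / 4) := by
    rw [e]
    have e1 : PowerSeries.C (24 * n - 2 * k : ℚ) = PowerSeries.C (-(k : ℚ)) + PowerSeries.C (24 * n - k : ℚ) := by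
      rw [← map_add]
      congr 1
      ring
    have e3 : PowerSeries.C (((24 * n - 2 * k : ℚ) ^ 2 - u ^ 2) / 4) =
        PowerSeries.C (-(k : ℚ)) * PowerSeries.C (24 * n - k : ℚ) - PowerSeries.C (xq n u) := by
      rw [← map_mul, ← map_sub]
      congr 1
      unfold xq
      ring
    rw [e1, e3]
    ring
  have c0 : PowerSeries.coeff 0 (TS (-(k : ℚ)) (xp n - C (xq n u))) = ((24 * n - 2 * k : ℚ) ^ 2 - u ^ 2) / 4 := by
    rw [e2, map_add, map_add, PowerSeries.coeff_C_mul, PowerSeries.coeff_X_pow, PowerSeries.coeff_C,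
      PowerSeries.coeff_X]
    simp
  have c1 : PowerSeries.coeff 1 (TS (-(k : ℚ)) (xp n - C (xq n u))) = (24 * n - 2 * k : ℚ) := by
    rw [e2, map_add, map_add, PowerSeries.coeff_C_mul, PowerSeries.coeff_X_pow, PowerSeries.coeff_C,
      PowerSeries.coeff_X]
    simp
  unfold N1
  rw [c0, c1]
  have hw1 : |(24 * (n : ℚ) - 2 * k)| ≤ 14 * n := by
    rw [abs_le]
    constructor <;> linarith
  have hw2 : (24 * (n : ℚ) - 2 * k) ^ 2 ≤ u ^ 2 := by
    rw [sq_le_sq]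
    rw [abs_of_nonneg (by linarith : (0 : ℚ) ≤ u)]
    linarith
  have hab : |((24 * (n : ℚ) - 2 * k) ^ 2 - u ^ 2) / 4| ≤ (u : ℚ) ^ 2 / 4 := by
    rw [abs_le]
    constructor
    · nlinarith [sq_nonneg (24 * (n : ℚ) - 2 * k)]
    · nlinarith
  have h6 : 14 * (n : ℚ) ≤ ((u : ℚ) ^ 2 / 4) * (1 / (4 * n)) := by
    rw [mul_one_div, le_div_iff₀ (by positivity)]
    nlinarith
  calc _ ≤ (u : ℚ) ^ 2 / 4 + 14 * n := add_le_add hab hw1
    _ ≤ (u : ℚ) ^ 2 / 4 + ((u : ℚ) ^ 2 / 4) * (1 / (4 * n)) := by linarith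
    _ = _ := by ring

/-- the product over the nodes -/
def PN (n m : ℕ) (nu : ℕ → ℕ) : ℚ := ∏ l ∈ Finset.range m, (((nu l : ℚ) ^ 2 / 4) * (1 + 1 / (4 * n)))

lemma factor_ge_one {n u : ℕ} (hn : 1 ≤ n) (hu : 16 * n < u) :
    (1 : ℚ) ≤ ((u : ℚ) ^ 2 / 4) * (1 + 1 / (4 * n)) := by
  have hn0 : (1 : ℚ) ≤ n := by exact_mod_cast hn
  have hu' : 16 * (n : ℚ) < u := by exact_mod_cast hu
  have h1 : (1 : ℚ) ≤ (u : ℚ) ^ 2 / 4 := by nlinarith
  have h2 : (1 : ℚ) ≤ 1 + 1 / (4 * n) := by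
    have : (0 : ℚ) ≤ 1 / (4 * n) := by positivity
    linarith
  calc (1 : ℚ) = 1 * 1 := by ring
    _ ≤ _ := mul_le_mul h1 h2 zero_le_one (by positivity)

lemma PN_nonneg (n m : ℕ) (nu : ℕ → ℕ) : 0 ≤ PN n m nu := by
  unfold PN
  exact Finset.prod_nonneg fun l _ => by positivity

lemma N1_EE' {n m k i j : ℕ} (nu : ℕ → ℕ) (hn : 1 ≤ n) (hlow : ∀ l < m, 16 * n < nu l) (h5 : 5 * n ≤ k)
    (h19 : k ≤ 19 * n) (hi : i < m) (hj : j < m) :
    N1 (TS (-(k : ℚ)) (EE n (lag m (fun j => xq n (nu j)) i * lag m (fun j => xq n (nu j)) j))) ≤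
      ((12 * (n : ℚ) + 1) ^ 2) ^ 49 * PN n m nu ^ 2 := by
  have hprod : ∀ i < m, N1 (TS (-(k : ℚ)) ((lag m (fun j => xq n (nu j)) i).comp (xp n))) ≤ PN n m nu := by
    intro i hi
    unfold lag
    rw [Polynomial.prod_comp, map_prod]
    refine (N1_prod _ _).trans ?_
    have h1 : ∀ l ∈ (Finset.range m).erase i,
        N1 (TS (-(k : ℚ)) ((X - C (xq n (nu l))).comp (xp n))) ≤
          (((nu l : ℚ) ^ 2 / 4) * (1 + 1 / (4 * n))) := by
      intro l hl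
      rw [Polynomial.sub_comp, Polynomial.X_comp, Polynomial.C_comp]
      exact N1_node' hn h5 h19 (hlow l (Finset.mem_range.1 (Finset.mem_erase.1 hl).2))
    refine (Finset.prod_le_prod (fun l _ => N1_nonneg _) h1).trans ?_
    unfold PN
    rw [← Finset.mul_prod_erase (Finset.range m) _ (Finset.mem_range.2 hi)]
    refine le_mul_of_one_le_left (Finset.prod_nonneg fun l _ => by positivity) ?_
    exact factor_ge_one hn (hlow i hi)
  unfold EE
  rw [Polynomial.mul_comp, Polynomial.pow_comp, Polynomial.X_comp, Polynomial.mul_comp, map_mul, map_mul, map_pow]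
  refine (N1_mul _ _).trans ?_
  have h1 : N1 (TS (-(k : ℚ)) (xp n) ^ 49) ≤ ((12 * (n : ℚ) + 1) ^ 2) ^ 49 :=
    (N1_pow _ _).trans (pow_le_pow_left₀ (N1_nonneg _) (N1_xp (by omega)) 49)
  have h2 := (N1_mul (TS (-(k : ℚ)) ((lag m (fun j => xq n (nu j)) i).comp (xp n)))
    (TS (-(k : ℚ)) ((lag m (fun j => xq n (nu j)) j).comp (xp n)))).trans
      (mul_le_mul (hprod i hi) (hprod j hj) (N1_nonneg _) (PN_nonneg n m nu))
  refine mul_le_mul h1 (h2.trans (le_of_eq ?_)) (N1_nonneg _) (by positivity)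
  rw [sq]

/-- bound for the coefficients -/
def T2 (n m : ℕ) (nu : ℕ → ℕ) : ℚ :=
  (24 * n + 2) * (((12 * (n : ℚ) + 1) ^ 2) ^ 49 * PN n m nu ^ 2) * (((24 * (n : ℚ) + 1) ^ 2) ^ 6 * 2 ^ (96 * n))

lemma T2_nonneg (n m : ℕ) (nu : ℕ → ℕ) : 0 ≤ T2 n m nu := by unfold T2; positivity

theorem pa5_bound' {n m : ℕ} (nu : ℕ → ℕ) (hn : 1 ≤ n) (hlow : ∀ l < m, 16 * n < nu l) {i j : ℕ}
    (hi : i < m) (hj : j < m) (k : ℕ) :
    |pa (sN n) (muN n) (PPn n * EE n (lag m (fun j => xq n (nu j)) i * lag m (fun j => xq n (nu j)) j)) k 5| ≤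
      T2 n m nu := by
  unfold pa
  split_ifs with h5
  · obtain ⟨h6, hk5, hk19⟩ := mu_six h5
    rw [h6]
    unfold pfc
    refine (coeff1_le _).trans ?_
    refine (N1_mul _ _).trans ?_
    have hk24 : k ≤ 24 * n := by omega
    have h1 : N1 (TS (-(k : ℚ)) (PPn n * EE n (lag m (fun j => xq n (nu j)) i *
        lag m (fun j => xq n (nu j)) j))) ≤
        (cstN n * (24 * n + 2)) * (((12 * (n : ℚ) + 1) ^ 2) ^ 49 * PN n m nu ^ 2) := by
      rw [map_mul]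
      refine (N1_mul _ _).trans ?_
      exact mul_le_mul (N1_PP hk24) (N1_EE' nu hn hlow hk5 hk19 hi hj) (N1_nonneg _)
        ((N1_nonneg _).trans (N1_PP hk24))
    have h2 := VV_bound (n := n) (by omega) hk5 hk19
    refine (mul_le_mul_of_nonneg_right h1 (N1_nonneg _)).trans ?_
    unfold T2
    set A : ℚ := (24 * n + 2) * (((12 * (n : ℚ) + 1) ^ 2) ^ 49 * PN n m nu ^ 2)
      with hA
    have hA0 : 0 ≤ A := by rw [hA]; positivity
    calc _ = A * (cstN n * N1 (Pool.Agent.H337R2.VV ((sN n).erase k) (muN n) (-(k : ℚ)))) := by rw [hA]; ring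
      _ ≤ A * (((24 * (n : ℚ) + 1) ^ 2) ^ 6 * 2 ^ (96 * n)) := mul_le_mul_of_nonneg_left h2 hA0
      _ = _ := by rw [hA]
  · rw [abs_zero]
    exact T2_nonneg n m nu

theorem rho_bound' {n m : ℕ} (nu : ℕ → ℕ) (hn : 1 ≤ n) (hlow : ∀ l < m, 16 * n < nu l) {i j : ℕ}
    (hi : i < m) (hj : j < m) :
    |rho n (lag m (fun j => xq n (nu j)) i * lag m (fun j => xq n (nu j)) j)| ≤ 20 * n * T2 n m nu := by
  unfold rho
  refine (Finset.abs_sum_le_sum_abs _ _).trans ?_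
  refine (Finset.sum_le_sum fun k _ => pa5_bound' nu hn hlow hi hj k).trans ?_
  rw [Finset.sum_const, nsmul_eq_mul]
  apply mul_le_mul_of_nonneg_right _ (T2_nonneg n m nu)
  have h1 : (sN n).card ≤ 20 * n := by
    unfold sN ss
    rw [Nat.card_Icc]
    omega
  exact_mod_cast h1

end

end Pool.Agent.Y801.Z5S
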